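import Mathlib

/-! # Counting the bases of a lattice in the plane with both vectors in a box -/

set_option autoImplicit false

namespace Pool.Agent.P8H29.SE

/-- a finite set of integers with bounded differences -/
theorem card_int (T : Finset ℤ) (L : ℝ) (hL : 0 ≤ L)
    (h : ∀ x ∈ T, ∀ y ∈ T, ((x : ℝ) - y) ≤ L) : (T.card : ℝ) ≤ L + 1 := by
  rcases T.eq_empty_or_nonempty with rfl | hne
  · simp
    linarith
  · have h1 : T ⊆ Finset.Icc (T.min' hne) (T.max' hne) := by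
      intro x hx
      rw [Finset.mem_Icc]
      exact ⟨T.min'_le x hx, T.le_max' x hx⟩
    have h2 := Finset.card_le_card h1
    rw [Int.card_Icc] at h2
    have h3 := h _ (T.max'_mem hne) _ (T.min'_mem hne)
    have h4 : T.min' hne ≤ T.max' hne := T.min'_le_max' hne
    have h5 : (((T.max' hne + 1 - T.min' hne).toNat : ℤ) : ℝ) =
        (T.max' hne : ℝ) + 1 - T.min' hne := by
      rw [Int.toNat_of_nonneg (by omega)]
      push_cast
      ring
    have h6 : (T.card : ℝ) ≤ ((T.max' hne + 1 - T.min' hne).toNat : ℝ) := by exact_mod_cast h2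
    have h7 : (((T.max' hne + 1 - T.min' hne).toNat : ℕ) : ℝ) =
      (((T.max' hne + 1 - T.min' hne).toNat : ℤ) : ℝ) := by norm_cast
    rw [h7, h5] at h6
    linarith

/-- determinant of two integer vectors -/
def dt (r s : ℤ × ℤ) : ℤ := r.1 * s.2 - r.2 * s.1

/-- the sup norm -/
noncomputable def nm (a b : ℝ) : ℝ := max |a| |b|

theorem nm_nonneg (a b : ℝ) : 0 ≤ nm a b := le_max_of_le_left (abs_nonneg a)

theorem det_le (a b c d : ℝ) : |a * d - b * c| ≤ 2 * nm a b * nm c d := by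
  have h1 : |a| ≤ nm a b := le_max_left _ _
  have h2 : |b| ≤ nm a b := le_max_right _ _
  have h3 : |c| ≤ nm c d := le_max_left _ _
  have h4 : |d| ≤ nm c d := le_max_right _ _
  have h5 : |a * d| ≤ nm a b * nm c d := by
    rw [abs_mul]
    exact mul_le_mul h1 h4 (abs_nonneg _) (nm_nonneg _ _)
  have h6 : |b * c| ≤ nm a b * nm c d := by
    rw [abs_mul]
    exact mul_le_mul h2 h3 (abs_nonneg _) (nm_nonneg _ _)
  have h7 := abs_sub (a * d) (b * c)
  linarith

theorem nm_smul (t a b : ℝ) : nm (t * a) (t * b) = |t| * nm a b := by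
  unfold nm
  rw [abs_mul, abs_mul, mul_max_of_nonneg _ _ (abs_nonneg t)]

theorem nm_sub_le (a b c d : ℝ) : nm (a - c) (b - d) ≤ nm a b + nm c d := by
  unfold nm
  refine max_le ?_ ?_
  · have := abs_sub a c
    have h1 := le_max_left |a| |b|
    have h2 := le_max_left |c| |d|
    linarith
  · have := abs_sub b d
    have h1 := le_max_right |a| |b|
    have h2 := le_max_right |c| |d|
    linarith

section

variable (a0 a1 b0 b1 : ℝ)

/-- norm of the lattice vector `r` -/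
noncomputable def ln (r : ℤ × ℤ) : ℝ := nm (r.1 * a0 + r.2 * b0) (r.1 * a1 + r.2 * b1)

theorem dt_le (r s : ℤ × ℤ) : |(dt r s : ℝ)| * |a0 * b1 - a1 * b0| ≤
    2 * ln a0 a1 b0 b1 r * ln a0 a1 b0 b1 s := by
  have h := det_le (r.1 * a0 + r.2 * b0) (r.1 * a1 + r.2 * b1) (s.1 * a0 + s.2 * b0)
    (s.1 * a1 + s.2 * b1)
  have e : (r.1 * a0 + r.2 * b0) * (s.1 * a1 + s.2 * b1) -
      (r.1 * a1 + r.2 * b1) * (s.1 * a0 + s.2 * b0) = (dt r s : ℝ) * (a0 * b1 - a1 * b0) := by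
    unfold dt
    push_cast
    ring
  rw [e, abs_mul] at h
  exact h

/-- if `r` and `r'` have the same determinant with `s` then they differ by a multiple of `s` -/
theorem same_dt (s1 s2 r r' : ℤ × ℤ) (hs : dt s1 s2 = 1 ∨ dt s1 s2 = -1)
    (h : dt r s2 = dt r' s2) :
    |((dt s1 r : ℤ) : ℝ) - (dt s1 r' : ℤ)| * ln a0 a1 b0 b1 s2 ≤
      ln a0 a1 b0 b1 r + ln a0 a1 b0 b1 r' := by
  have hsq : dt s1 s2 * dt s1 s2 = 1 := by rcases hs with h | h <;> rw [h] <;> norm_num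
  have e1 : r.1 - r'.1 = dt s1 s2 * (dt s1 r - dt s1 r') * s2.1 := by
    unfold dt at h hsq ⊢
    linear_combination (-(r.1 - r'.1)) * hsq + (s1.1 * (s1.1 * s2.2 - s1.2 * s2.1)) * h
  have e2 : r.2 - r'.2 = dt s1 s2 * (dt s1 r - dt s1 r') * s2.2 := by
    unfold dt at h hsq ⊢
    linear_combination (-(r.2 - r'.2)) * hsq + (s1.2 * (s1.1 * s2.2 - s1.2 * s2.1)) * h
  have e1' : (r.1 : ℝ) - r'.1 = (dt s1 s2 : ℝ) * ((dt s1 r : ℝ) - dt s1 r') * s2.1 := by
    exact_mod_cast e1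
  have e2' : (r.2 : ℝ) - r'.2 = (dt s1 s2 : ℝ) * ((dt s1 r : ℝ) - dt s1 r') * s2.2 := by
    exact_mod_cast e2
  have habs : |(dt s1 s2 : ℝ) * ((dt s1 r : ℝ) - dt s1 r')| = |(dt s1 r : ℝ) - dt s1 r'| := by
    rw [abs_mul]
    rcases hs with h | h <;> rw [h] <;> simp
  rw [← habs]
  unfold ln
  rw [← nm_smul]
  have := nm_sub_le (r.1 * a0 + r.2 * b0) (r.1 * a1 + r.2 * b1) (r'.1 * a0 + r'.2 * b0)
    (r'.1 * a1 + r'.2 * b1)
  have e3 : (dt s1 s2 : ℝ) * ((dt s1 r : ℝ) - dt s1 r') * (s2.1 * a0 + s2.2 * b0) =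
      r.1 * a0 + r.2 * b0 - (r'.1 * a0 + r'.2 * b0) := by
    linear_combination -(a0 * e1' + b0 * e2')
  have e4 : (dt s1 s2 : ℝ) * ((dt s1 r : ℝ) - dt s1 r') * (s2.1 * a1 + s2.2 * b1) =
      r.1 * a1 + r.2 * b1 - (r'.1 * a1 + r'.2 * b1) := by
    linear_combination -(a1 * e1' + b1 * e2')
  rw [e3, e4]
  exact this

theorem pair_inj (s1 s2 r r' : ℤ × ℤ) (hs : dt s1 s2 = 1 ∨ dt s1 s2 = -1)
    (h : dt r s2 = dt r' s2) (h' : dt s1 r = dt s1 r') : r = r' := by
  have hsq : dt s1 s2 * dt s1 s2 = 1 := by rcases hs with h | h <;> rw [h] <;> norm_num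
  have e1 : r.1 = r'.1 := by
    unfold dt at h h' hsq
    linear_combination (-(r.1 - r'.1)) * hsq + (s1.1 * (s1.1 * s2.2 - s1.2 * s2.1)) * h +
      (s2.1 * (s1.1 * s2.2 - s1.2 * s2.1)) * h'
  have e2 : r.2 = r'.2 := by
    unfold dt at h h' hsq
    linear_combination (-(r.2 - r'.2)) * hsq + (s1.2 * (s1.1 * s2.2 - s1.2 * s2.1)) * h +
      (s2.2 * (s1.1 * s2.2 - s1.2 * s2.1)) * h'
  exact Prod.ext e1 e2

/-- the number of lattice points in the unit box if there is a basis in it -/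
theorem count_pts (hd : 0 < |a0 * b1 - a1 * b0|) (S : Finset (ℤ × ℤ))
    (hS : ∀ r ∈ S, ln a0 a1 b0 b1 r ≤ 1) (s1 s2 : ℤ × ℤ)
    (hs : dt s1 s2 = 1 ∨ dt s1 s2 = -1) (h1 : ln a0 a1 b0 b1 s1 ≤ ln a0 a1 b0 b1 s2)
    (h2 : ln a0 a1 b0 b1 s2 ≤ 1) : (S.card : ℝ) ≤ 18 / |a0 * b1 - a1 * b0| := by
  classical
  set δ := |a0 * b1 - a1 * b0| with hδ
  set m2 := ln a0 a1 b0 b1 s2 with hm2
  have hb := dt_le a0 a1 b0 b1 s1 s2
  rw [← hδ, ← hm2] at hb
  have h1' : |(dt s1 s2 : ℝ)| = 1 := by rcases hs with h | h <;> rw [h] <;> simp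
  rw [h1', one_mul] at hb
  have hm1 : 0 ≤ ln a0 a1 b0 b1 s1 := nm_nonneg _ _
  have hm20 : 0 < m2 := by
    by_contra hcon
    push Not at hcon
    have : 2 * ln a0 a1 b0 b1 s1 * m2 ≤ 0 := by
      have : 0 ≤ 2 * ln a0 a1 b0 b1 s1 := by linarith
      nlinarith
    linarith
  have hδ2 : δ ≤ 2 * m2 := by nlinarith
  -- the images under `x`
  let f : ℤ × ℤ → ℤ := fun r => dt r s2
  have hx : ((S.image f).card : ℝ) ≤ 4 * m2 / δ + 1 := by
    refine card_int _ _ (by positivity) ?_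
    have key : ∀ x ∈ S.image f, |(x : ℝ)| ≤ 2 * m2 / δ := by
      intro x hx
      obtain ⟨r, hr, rfl⟩ := Finset.mem_image.1 hx
      have h3 := dt_le a0 a1 b0 b1 r s2
      rw [le_div_iff₀ hd]
      have h4 := hS r hr
      have h5 : 0 ≤ ln a0 a1 b0 b1 r := nm_nonneg _ _
      have h6 : 2 * ln a0 a1 b0 b1 r * m2 ≤ 2 * m2 := by nlinarith
      exact h3.trans h6
    intro x hx y hy
    have h3 := key x hx
    have h4 := key y hy
    rw [abs_le] at h3 h4
    have : 4 * m2 / δ = 2 * m2 / δ + 2 * m2 / δ := by ring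
    linarith [h3.2, h4.1]
  have hfib : ∀ x ∈ S.image f, (((S.filter fun r => f r = x).card : ℕ) : ℝ) ≤ 2 / m2 + 1 := by
    intro x _
    have hcard : (S.filter fun r => f r = x).card =
        ((S.filter fun r => f r = x).image fun r => dt s1 r).card := by
      rw [Finset.card_image_of_injOn]
      intro r hr r' hr' h
      rw [Finset.mem_coe, Finset.mem_filter] at hr hr'
      exact pair_inj s1 s2 r r' hs (hr.2.trans hr'.2.symm) h
    rw [hcard]
    refine card_int _ _ (by positivity) ?_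
    intro y hy y' hy'
    obtain ⟨r, hr, rfl⟩ := Finset.mem_image.1 hy
    obtain ⟨r', hr', rfl⟩ := Finset.mem_image.1 hy'
    rw [Finset.mem_filter] at hr hr'
    have h3 := same_dt a0 a1 b0 b1 s1 s2 r r' hs (hr.2.trans hr'.2.symm)
    have h4 := hS r hr.1
    have h5 := hS r' hr'.1
    rw [← hm2] at h3
    have h6 : |((dt s1 r : ℤ) : ℝ) - (dt s1 r' : ℤ)| ≤ 2 / m2 := by
      rw [le_div_iff₀ hm20]
      linarith
    exact (le_abs_self _).trans h6
  have hsum : (S.card : ℝ) ≤ (4 * m2 / δ + 1) * (2 / m2 + 1) := by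
    rw [Finset.card_eq_sum_card_image f S]
    push_cast
    calc ∑ b ∈ S.image f, (((S.filter fun r => f r = b).card : ℕ) : ℝ)
        ≤ ∑ _b ∈ S.image f, (2 / m2 + 1) := Finset.sum_le_sum hfib
      _ = (S.image f).card * (2 / m2 + 1) := by rw [Finset.sum_const, nsmul_eq_mul]
      _ ≤ _ := mul_le_mul_of_nonneg_right hx (by positivity)
  have h3 : 2 / m2 + 1 ≤ 3 / m2 := by
    have : 1 ≤ 1 / m2 := by
      rw [le_div_iff₀ hm20]
      linarith
    have e : 3 / m2 = 2 / m2 + 1 / m2 := by ring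
    linarith
  have h4 : (4 * m2 / δ + 1) * (2 / m2 + 1) ≤ (4 * m2 / δ + 1) * (3 / m2) :=
    mul_le_mul_of_nonneg_left h3 (by positivity)
  have h5 : (4 * m2 / δ + 1) * (3 / m2) = 12 / δ + 3 / m2 := by
    field_simp
    ring
  have h6 : 3 / m2 ≤ 6 / δ := by
    rw [div_le_div_iff₀ hm20 hd]
    linarith
  have h7 : 18 / δ = 12 / δ + 6 / δ := by ring
  linarith

/-- given the longer vector of a basis there are few choices for the shorter one -/
theorem fiber_le (hd : 0 < |a0 * b1 - a1 * b0|) (G : Finset (ℤ × ℤ)) (s : ℤ × ℤ) (η : ℤ)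
    (hη : η = 1 ∨ η = -1) (hG : ∀ r ∈ G, dt r s = η ∧ ln a0 a1 b0 b1 r ≤ ln a0 a1 b0 b1 s) :
    (G.card : ℝ) ≤ 3 := by
  classical
  rcases G.eq_empty_or_nonempty with rfl | ⟨r0, hr0⟩
  · simp
  have h0 := (hG r0 hr0).1
  have hs : dt r0 s = 1 ∨ dt r0 s = -1 := by rw [h0]; exact hη
  have hpos : 0 < ln a0 a1 b0 b1 s := by
    have hb := dt_le a0 a1 b0 b1 r0 s
    have h1 : |(dt r0 s : ℝ)| = 1 := by rcases hs with h | h <;> rw [h] <;> simp
    rw [h1, one_mul] at hb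
    by_contra hcon
    push Not at hcon
    have h2 : 0 ≤ 2 * ln a0 a1 b0 b1 r0 := by
      have : 0 ≤ ln a0 a1 b0 b1 r0 := nm_nonneg _ _
      linarith
    nlinarith
  have hcard : G.card = (G.image fun r => dt r0 r).card := by
    rw [Finset.card_image_of_injOn]
    intro r hr r' hr' h
    exact pair_inj r0 s r r' hs ((hG r hr).1.trans (hG r' hr').1.symm) h
  rw [hcard]
  have := card_int (G.image fun r => dt r0 r) 2 (by norm_num) ?_
  · linarith
  intro y hy y' hy'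
  obtain ⟨r, hr, rfl⟩ := Finset.mem_image.1 hy
  obtain ⟨r', hr', rfl⟩ := Finset.mem_image.1 hy'
  have h3 := same_dt a0 a1 b0 b1 r0 s r r' hs ((hG r hr).1.trans (hG r' hr').1.symm)
  have h4 := (hG r hr).2
  have h5 := (hG r' hr').2
  have h6 : |((dt r0 r : ℤ) : ℝ) - (dt r0 r' : ℤ)| ≤ 2 := by
    by_contra hcon
    push Not at hcon
    nlinarith
  exact (le_abs_self _).trans h6

theorem dt_swap (r s : ℤ × ℤ) : dt s r = - dt r s := by
  unfold dt
  ring

theorem half_pairs (hd : 0 < |a0 * b1 - a1 * b0|) (F : Finset ((ℤ × ℤ) × (ℤ × ℤ)))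
    (hF : ∀ z ∈ F, (dt z.1 z.2 = 1 ∨ dt z.1 z.2 = -1) ∧
      ln a0 a1 b0 b1 z.1 ≤ ln a0 a1 b0 b1 z.2 ∧ ln a0 a1 b0 b1 z.2 ≤ 1) :
    (F.card : ℝ) ≤ 108 / |a0 * b1 - a1 * b0| := by
  classical
  rcases F.eq_empty_or_nonempty with rfl | ⟨z0, hz0⟩
  · simp only [Finset.card_empty, Nat.cast_zero]
    positivity
  obtain ⟨hs, h1, h2⟩ := hF z0 hz0
  have hS := count_pts a0 a1 b0 b1 hd (F.image Prod.snd) (by
    intro r hr
    obtain ⟨z, hz, rfl⟩ := Finset.mem_image.1 hr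
    exact (hF z hz).2.2) z0.1 z0.2 hs h1 h2
  have hfib : ∀ s ∈ F.image Prod.snd,
      (((F.filter fun z => z.2 = s).card : ℕ) : ℝ) ≤ 6 := by
    intro s _
    have hcard : (F.filter fun z => z.2 = s).card =
        ((F.filter fun z => z.2 = s).image Prod.fst).card := by
      rw [Finset.card_image_of_injOn]
      intro z hz z' hz' h
      rw [Finset.mem_coe, Finset.mem_filter] at hz hz'
      exact Prod.ext h (hz.2.trans hz'.2.symm)
    set G := (F.filter fun z => z.2 = s).image Prod.fst with hGdef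
    have hG : ∀ r ∈ G, (dt r s = 1 ∨ dt r s = -1) ∧ ln a0 a1 b0 b1 r ≤ ln a0 a1 b0 b1 s := by
      intro r hr
      obtain ⟨z, hz, rfl⟩ := Finset.mem_image.1 hr
      rw [Finset.mem_filter] at hz
      have := hF z hz.1
      rw [hz.2] at this
      exact ⟨this.1, this.2.1⟩
    have hsplit : G = (G.filter fun r => dt r s = 1) ∪ (G.filter fun r => dt r s = -1) := by
      ext r
      rw [Finset.mem_union, Finset.mem_filter, Finset.mem_filter]
      constructor
      · intro hr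
        rcases (hG r hr).1 with h | h
        · exact Or.inl ⟨hr, h⟩
        · exact Or.inr ⟨hr, h⟩
      · rintro (h | h) <;> exact h.1
    have e1 := fiber_le a0 a1 b0 b1 hd (G.filter fun r => dt r s = 1) s 1 (Or.inl rfl) (by
      intro r hr
      rw [Finset.mem_filter] at hr
      exact ⟨hr.2, (hG r hr.1).2⟩)
    have e2 := fiber_le a0 a1 b0 b1 hd (G.filter fun r => dt r s = -1) s (-1) (Or.inr rfl) (by
      intro r hr
      rw [Finset.mem_filter] at hr
      exact ⟨hr.2, (hG r hr.1).2⟩)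
    have e3 : G.card ≤ (G.filter fun r => dt r s = 1).card +
        (G.filter fun r => dt r s = -1).card := by
      conv_lhs => rw [hsplit]
      exact Finset.card_union_le _ _
    have e4 : (G.card : ℝ) ≤ ((G.filter fun r => dt r s = 1).card : ℝ) +
        ((G.filter fun r => dt r s = -1).card : ℝ) := by exact_mod_cast e3
    rw [hcard]
    linarith
  have hsum : (F.card : ℝ) ≤ (F.image Prod.snd).card * 6 := by
    rw [Finset.card_eq_sum_card_image Prod.snd F]
    push_cast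
    calc ∑ b ∈ F.image Prod.snd, (((F.filter fun z => z.2 = b).card : ℕ) : ℝ)
        ≤ ∑ _b ∈ F.image Prod.snd, (6 : ℝ) := Finset.sum_le_sum hfib
      _ = (F.image Prod.snd).card * 6 := by rw [Finset.sum_const, nsmul_eq_mul]
  have h3 : (108 : ℝ) / |a0 * b1 - a1 * b0| = 18 / |a0 * b1 - a1 * b0| * 6 := by ring
  rw [h3]
  refine hsum.trans (mul_le_mul_of_nonneg_right hS (by norm_num))

/-- **The number of bases of a plane lattice in the unit box.** -/
theorem count_pairs (hd : 0 < |a0 * b1 - a1 * b0|) (F : Finset ((ℤ × ℤ) × (ℤ × ℤ)))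
    (hF : ∀ z ∈ F, (dt z.1 z.2 = 1 ∨ dt z.1 z.2 = -1) ∧
      ln a0 a1 b0 b1 z.1 ≤ 1 ∧ ln a0 a1 b0 b1 z.2 ≤ 1) :
    (F.card : ℝ) ≤ 216 / |a0 * b1 - a1 * b0| := by
  classical
  have e1 := half_pairs a0 a1 b0 b1 hd
    (F.filter fun z => ln a0 a1 b0 b1 z.1 ≤ ln a0 a1 b0 b1 z.2) (by
      intro z hz
      rw [Finset.mem_filter] at hz
      have := hF z hz.1
      exact ⟨this.1, hz.2, this.2.2⟩)
  have e2 := half_pairs a0 a1 b0 b1 hd
    ((F.filter fun z => ¬ ln a0 a1 b0 b1 z.1 ≤ ln a0 a1 b0 b1 z.2).image Prod.swap) (by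
      intro z hz
      obtain ⟨y, hy, rfl⟩ := Finset.mem_image.1 hz
      rw [Finset.mem_filter] at hy
      have := hF y hy.1
      simp only [Prod.fst_swap, Prod.snd_swap]
      refine ⟨?_, (not_le.1 hy.2).le, this.2.1⟩
      rw [dt_swap]
      rcases this.1 with h | h
      · right
        rw [h]
      · left
        rw [h]
        norm_num)
  rw [Finset.card_image_of_injective _ Prod.swap_injective] at e2
  have h3 := Finset.card_filter_add_card_filter_not (s := F)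
    (fun z => ln a0 a1 b0 b1 z.1 ≤ ln a0 a1 b0 b1 z.2)
  have h4 : (F.card : ℝ) = ((F.filter fun z => ln a0 a1 b0 b1 z.1 ≤ ln a0 a1 b0 b1 z.2).card : ℝ) +
      ((F.filter fun z => ¬ ln a0 a1 b0 b1 z.1 ≤ ln a0 a1 b0 b1 z.2).card : ℝ) := by
    exact_mod_cast h3.symm
  have h5 : (216 : ℝ) / |a0 * b1 - a1 * b0| = 108 / |a0 * b1 - a1 * b0| +
      108 / |a0 * b1 - a1 * b0| := by ring
  linarith

end

end Pool.Agent.P8H29.SE
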