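import Mathlib
import Pool.Agent.P8H29.SE.Lat

/-! # The number of elements of a class of orthogonal triples in a box -/

set_option autoImplicit false

namespace Pool.Agent.P8H29.SE

/-- integral `2 × 2` matrices -/
abbrev M2 : Type := Matrix (Fin 2) (Fin 2) ℤ

/-- the matrix is invertible over the integers -/
def IsU (g : M2) : Prop := g.det = 1 ∨ g.det = -1

/-- the bilinear form of the determinant -/
def bil (A B : M2) : ℤ := A 0 0 * B 1 1 + A 1 1 * B 0 0 - A 0 1 * B 1 0 - A 1 0 * B 0 1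

theorem cols_count (u0 u1 v0 v1 B1 B2 : ℝ) (hd : 0 < |u0 * v1 - u1 * v0|) (h1 : 0 < B1)
    (h2 : 0 < B2) (F : Finset M2)
    (hF : ∀ g ∈ F, IsU g ∧ nm (g 0 0 * u0 + g 0 1 * u1) (g 1 0 * u0 + g 1 1 * u1) ≤ B1 ∧
      nm (g 0 0 * v0 + g 0 1 * v1) (g 1 0 * v0 + g 1 1 * v1) ≤ B2) :
    (F.card : ℝ) ≤ 216 * B1 * B2 / |u0 * v1 - u1 * v0| := by
  classical
  let φ : M2 → (ℤ × ℤ) × (ℤ × ℤ) := fun g => ((g 0 0, g 0 1), (g 1 0, g 1 1))
  have hφ : Function.Injective φ := by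
    intro g g' h
    simp only [φ, Prod.mk.injEq] at h
    ext i j
    fin_cases i <;> fin_cases j
    · exact h.1.1
    · exact h.1.2
    · exact h.2.1
    · exact h.2.2
  have e : u0 / B1 * (v1 / B2) - v0 / B2 * (u1 / B1) = (u0 * v1 - u1 * v0) / (B1 * B2) := by
    field_simp
  have e' : |u0 / B1 * (v1 / B2) - v0 / B2 * (u1 / B1)| = |u0 * v1 - u1 * v0| / (B1 * B2) := by
    rw [e, abs_div, abs_of_pos (mul_pos h1 h2)]
  have key := count_pairs (u0 / B1) (v0 / B2) (u1 / B1) (v1 / B2) (by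
    rw [e']
    positivity) (F.image φ) (by
    intro z hz
    obtain ⟨g, hg, rfl⟩ := Finset.mem_image.1 hz
    obtain ⟨hu, hb1, hb2⟩ := hF g hg
    have f1 : |g 0 0 * u0 + g 0 1 * u1| ≤ B1 := (le_max_left _ _).trans hb1
    have f2 : |g 1 0 * u0 + g 1 1 * u1| ≤ B1 := (le_max_right _ _).trans hb1
    have f3 : |g 0 0 * v0 + g 0 1 * v1| ≤ B2 := (le_max_left _ _).trans hb2
    have f4 : |g 1 0 * v0 + g 1 1 * v1| ≤ B2 := (le_max_right _ _).trans hb2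
    refine ⟨?_, ?_, ?_⟩
    · unfold IsU at hu
      rw [Matrix.det_fin_two] at hu
      exact hu
    · unfold ln nm
      refine max_le ?_ ?_
      · have e3 : ((φ g).1.1 : ℝ) * (u0 / B1) + (φ g).1.2 * (u1 / B1) =
            (g 0 0 * u0 + g 0 1 * u1) / B1 := by
          simp only [φ]
          field_simp
        rw [e3, abs_div, abs_of_pos h1, div_le_one h1]
        exact f1
      · have e3 : ((φ g).1.1 : ℝ) * (v0 / B2) + (φ g).1.2 * (v1 / B2) =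
            (g 0 0 * v0 + g 0 1 * v1) / B2 := by
          simp only [φ]
          field_simp
        rw [e3, abs_div, abs_of_pos h2, div_le_one h2]
        exact f3
    · unfold ln nm
      refine max_le ?_ ?_
      · have e3 : ((φ g).2.1 : ℝ) * (u0 / B1) + (φ g).2.2 * (u1 / B1) =
            (g 1 0 * u0 + g 1 1 * u1) / B1 := by
          simp only [φ]
          field_simp
        rw [e3, abs_div, abs_of_pos h1, div_le_one h1]
        exact f2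
      · have e3 : ((φ g).2.1 : ℝ) * (v0 / B2) + (φ g).2.2 * (v1 / B2) =
            (g 1 0 * v0 + g 1 1 * v1) / B2 := by
          simp only [φ]
          field_simp
        rw [e3, abs_div, abs_of_pos h2, div_le_one h2]
        exact f4)
  rw [Finset.card_image_of_injective _ hφ, e'] at key
  refine key.trans (le_of_eq ?_)
  field_simp

theorem rows_count (w0 w1 z0 z1 B1 B2 : ℝ) (hd : 0 < |w0 * z1 - w1 * z0|) (h1 : 0 < B1)
    (h2 : 0 < B2) (F : Finset M2)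
    (hF : ∀ k ∈ F, IsU k ∧ nm (w0 * k 0 0 + w1 * k 1 0) (w0 * k 0 1 + w1 * k 1 1) ≤ B1 ∧
      nm (z0 * k 0 0 + z1 * k 1 0) (z0 * k 0 1 + z1 * k 1 1) ≤ B2) :
    (F.card : ℝ) ≤ 216 * B1 * B2 / |w0 * z1 - w1 * z0| := by
  classical
  have hinj : Function.Injective (fun k : M2 => k.transpose) := Matrix.transpose_injective
  rw [← Finset.card_image_of_injective F hinj]
  refine cols_count w0 w1 z0 z1 B1 B2 hd h1 h2 _ ?_
  intro g hg
  obtain ⟨k, hk, rfl⟩ := Finset.mem_image.1 hg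
  obtain ⟨hu, hb1, hb2⟩ := hF k hk
  refine ⟨?_, ?_, ?_⟩
  · unfold IsU at hu ⊢
    rw [Matrix.det_transpose]
    exact hu
  · simp only [Matrix.transpose_apply]
    rw [mul_comm w0, mul_comm w1, mul_comm w0, mul_comm w1] at hb1
    exact hb1
  · simp only [Matrix.transpose_apply]
    rw [mul_comm z0, mul_comm z1, mul_comm z0, mul_comm z1] at hb2
    exact hb2

theorem rank_one (x00 x01 x10 x11 : ℝ) (h : x00 * x11 = x01 * x10) :
    ∃ u0 u1 w0 w1 : ℝ, x00 = u0 * w0 ∧ x01 = u0 * w1 ∧ x10 = u1 * w0 ∧ x11 = u1 * w1 := by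
  by_cases h0 : x00 = 0
  · by_cases h1 : x01 = 0
    · exact ⟨0, 1, x10, x11, by rw [h0]; ring, by rw [h1]; ring, by ring, by ring⟩
    · refine ⟨1, x11 / x01, x00, x01, by ring, by ring, ?_, by field_simp⟩
      rw [h0, zero_mul] at h
      have : x10 = 0 := (mul_eq_zero.1 h.symm).resolve_left h1
      rw [this, h0]
      ring
  · refine ⟨1, x10 / x00, x00, x01, by ring, by ring, by field_simp, ?_⟩
    field_simp
    linarith

theorem nm_mul_le {a b c d B : ℝ} (h1 : |a * c| ≤ B) (h2 : |a * d| ≤ B) (h3 : |b * c| ≤ B)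
    (h4 : |b * d| ≤ B) : nm a b * nm c d ≤ B := by
  rw [abs_mul] at h1 h2 h3 h4
  unfold nm
  rcases le_total |a| |b| with h | h <;> rcases le_total |c| |d| with h' | h'
  · rw [max_eq_right h, max_eq_right h']
    exact h4
  · rw [max_eq_right h, max_eq_left h']
    exact h3
  · rw [max_eq_left h, max_eq_right h']
    exact h2
  · rw [max_eq_left h, max_eq_left h']
    exact h1

/-- abstract counting of pairs of matrices -/
theorem pair_count (s0 s1 t0 t1 w0 w1 z0 z1 B X : ℝ) (hB : 0 < B) (hX : 1 ≤ X)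
    (hdet : |(s0 * t1 - s1 * t0) * (w0 * z1 - w1 * z0)| = 4) (F : Finset (M2 × M2))
    (hU : ∀ g ∈ F, IsU g.1 ∧ IsU g.2)
    (hs : ∀ g ∈ F, nm (g.1 0 0 * s0 + g.1 0 1 * s1) (g.1 1 0 * s0 + g.1 1 1 * s1) *
      nm (w0 * g.2 0 0 + w1 * g.2 1 0) (w0 * g.2 0 1 + w1 * g.2 1 1) ≤ B)
    (ht : ∀ g ∈ F, nm (g.1 0 0 * t0 + g.1 0 1 * t1) (g.1 1 0 * t0 + g.1 1 1 * t1) *
      nm (z0 * g.2 0 0 + z1 * g.2 1 0) (z0 * g.2 0 1 + z1 * g.2 1 1) ≤ B)
    (hw : ∀ g ∈ F, ∀ g' ∈ F, nm (w0 * g.2 0 0 + w1 * g.2 1 0) (w0 * g.2 0 1 + w1 * g.2 1 1) ≤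
      X * nm (w0 * g'.2 0 0 + w1 * g'.2 1 0) (w0 * g'.2 0 1 + w1 * g'.2 1 1))
    (hz : ∀ g ∈ F, ∀ g' ∈ F, nm (z0 * g.2 0 0 + z1 * g.2 1 0) (z0 * g.2 0 1 + z1 * g.2 1 1) ≤
      X * nm (z0 * g'.2 0 0 + z1 * g'.2 1 0) (z0 * g'.2 0 1 + z1 * g'.2 1 1)) :
    (F.card : ℝ) ≤ 46656 * B ^ 2 * (Real.logb 2 X + 2) ^ 2 := by
  classical
  set δ := s0 * t1 - s1 * t0 with hδ
  set D := w0 * z1 - w1 * z0 with hD
  have hδ0 : 0 < |δ| := by
    rw [abs_pos]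
    rintro h
    rw [h, zero_mul, abs_zero] at hdet
    norm_num at hdet
  have hD0 : 0 < |D| := by
    rw [abs_pos]
    rintro h
    rw [h, mul_zero, abs_zero] at hdet
    norm_num at hdet
  let a : M2 × M2 → ℝ := fun g => nm (w0 * g.2 0 0 + w1 * g.2 1 0) (w0 * g.2 0 1 + w1 * g.2 1 1)
  let b : M2 × M2 → ℝ := fun g => nm (z0 * g.2 0 0 + z1 * g.2 1 0) (z0 * g.2 0 1 + z1 * g.2 1 1)
  have hab : ∀ g ∈ F, 0 < a g ∧ 0 < b g := by
    intro g hg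
    have h1 := det_le (w0 * g.2 0 0 + w1 * g.2 1 0) (w0 * g.2 0 1 + w1 * g.2 1 1)
      (z0 * g.2 0 0 + z1 * g.2 1 0) (z0 * g.2 0 1 + z1 * g.2 1 1)
    have e : (w0 * g.2 0 0 + w1 * g.2 1 0) * (z0 * g.2 0 1 + z1 * g.2 1 1) -
      (w0 * g.2 0 1 + w1 * g.2 1 1) * (z0 * g.2 0 0 + z1 * g.2 1 0) =
      D * ((g.2.det : ℤ) : ℝ) := by
      rw [Matrix.det_fin_two, hD]
      push_cast
      ring
    have e2 : |D * ((g.2.det : ℤ) : ℝ)| = |D| := by
      rw [abs_mul]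
      rcases (hU g hg).2 with h | h <;> rw [h] <;> simp
    rw [e, e2] at h1
    have h2 : 0 ≤ a g := nm_nonneg _ _
    have h3 : 0 ≤ b g := nm_nonneg _ _
    have h4 : 0 < 2 * a g * b g := lt_of_lt_of_le hD0 h1
    constructor
    · by_contra hcon
      push Not at hcon
      have h5 : a g = 0 := le_antisymm hcon h2
      rw [h5] at h4
      simp at h4
    · by_contra hcon
      push Not at hcon
      have h5 : b g = 0 := le_antisymm hcon h3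
      rw [h5] at h4
      simp at h4
  let f : M2 × M2 → ℤ × ℤ := fun g => (Int.log 2 (a g), Int.log 2 (b g))
  have hlog : 0 ≤ Real.logb 2 X := Real.logb_nonneg (by norm_num) hX
  -- the number of dyadic ranges
  have hrange : ∀ c : M2 × M2 → ℝ, (∀ g ∈ F, 0 < c g) → (∀ g ∈ F, ∀ g' ∈ F, c g ≤ X * c g') →
      (((F.image fun g => Int.log 2 (c g)).card : ℕ) : ℝ) ≤ Real.logb 2 X + 2 := by
    intro c hc hcc
    have := card_int (F.image fun g => Int.log 2 (c g)) (Real.logb 2 X + 1) (by linarith) ?_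
    · linarith
    intro x hx y hy
    obtain ⟨g, hg, rfl⟩ := Finset.mem_image.1 hx
    obtain ⟨g', hg', rfl⟩ := Finset.mem_image.1 hy
    have h1 := Int.zpow_log_le_self (R := ℝ) (b := 2) (by norm_num) (hc g hg)
    have h2 := Int.lt_zpow_succ_log_self (R := ℝ) (b := 2) (by norm_num) (c g')
    have h3 := hcc g hg g' hg'
    have h4 : ((2 : ℕ) : ℝ) ^ (Int.log 2 (c g)) ≤ X * ((2 : ℕ) : ℝ) ^ (Int.log 2 (c g') + 1) := by
      refine h1.trans (h3.trans ?_)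
      exact mul_le_mul_of_nonneg_left h2.le (by linarith)
    push_cast at h4
    rw [← Real.rpow_intCast, ← Real.rpow_intCast] at h4
    have h5 := Real.logb_le_logb_of_le (b := 2) (by norm_num) (by positivity) h4
    rw [Real.logb_mul (by linarith) (by positivity), Real.logb_rpow (by norm_num) (by norm_num),
      Real.logb_rpow (by norm_num) (by norm_num)] at h5
    push_cast at h5
    linarith
  have himg : (((F.image f).card : ℕ) : ℝ) ≤ (Real.logb 2 X + 2) ^ 2 := by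
    have h1 : F.image f ⊆ (F.image fun g => Int.log 2 (a g)) ×ˢ
        (F.image fun g => Int.log 2 (b g)) := by
      intro x hx
      obtain ⟨g, hg, rfl⟩ := Finset.mem_image.1 hx
      exact Finset.mem_product.2 ⟨Finset.mem_image_of_mem _ hg, Finset.mem_image_of_mem _ hg⟩
    have h2 := Finset.card_le_card h1
    rw [Finset.card_product] at h2
    have h3 := hrange a (fun g hg => (hab g hg).1) hw
    have h4 := hrange b (fun g hg => (hab g hg).2) hz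
    have h5 : (((F.image f).card : ℕ) : ℝ) ≤ ((F.image fun g => Int.log 2 (a g)).card : ℝ) *
        ((F.image fun g => Int.log 2 (b g)).card : ℝ) := by exact_mod_cast h2
    refine h5.trans ?_
    rw [sq]
    exact mul_le_mul h3 h4 (by positivity) (by linarith)
  have hfib : ∀ ij ∈ F.image f, (((F.filter fun g => f g = ij).card : ℕ) : ℝ) ≤
      46656 * B ^ 2 := by
    rintro ⟨i, j⟩ _
    set G := F.filter fun g => f g = (i, j) with hG
    have hGm : ∀ g ∈ G, g ∈ F ∧ Int.log 2 (a g) = i ∧ Int.log 2 (b g) = j := by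
      intro g hg
      rw [hG, Finset.mem_filter] at hg
      have := hg.2
      simp only [f, Prod.mk.injEq] at this
      exact ⟨hg.1, this⟩
    have h2i : (0 : ℝ) < 2 ^ i := by positivity
    have h2j : (0 : ℝ) < 2 ^ j := by positivity
    have hlow : ∀ g ∈ G, (2 : ℝ) ^ i ≤ a g ∧ (2 : ℝ) ^ j ≤ b g := by
      intro g hg
      obtain ⟨hgF, e1, e2⟩ := hGm g hg
      have h1 := Int.zpow_log_le_self (R := ℝ) (b := 2) (by norm_num) (hab g hgF).1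
      have h2 := Int.zpow_log_le_self (R := ℝ) (b := 2) (by norm_num) (hab g hgF).2
      rw [e1] at h1
      rw [e2] at h2
      push_cast at h1 h2
      exact ⟨h1, h2⟩
    have hup : ∀ g ∈ G, a g ≤ 2 * (2 : ℝ) ^ i ∧ b g ≤ 2 * (2 : ℝ) ^ j := by
      intro g hg
      obtain ⟨hgF, e1, e2⟩ := hGm g hg
      have h1 := Int.lt_zpow_succ_log_self (R := ℝ) (b := 2) (by norm_num) (a g)
      have h2 := Int.lt_zpow_succ_log_self (R := ℝ) (b := 2) (by norm_num) (b g)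
      rw [e1] at h1
      rw [e2] at h2
      push_cast at h1 h2
      rw [zpow_add₀ (by norm_num), zpow_one] at h1 h2
      constructor
      · rw [mul_comm]; exact h1.le
      · rw [mul_comm]; exact h2.le
    have hK := rows_count w0 w1 z0 z1 (2 * (2 : ℝ) ^ i) (2 * (2 : ℝ) ^ j) hD0 (by positivity)
      (by positivity) (G.image Prod.snd) (by
        intro k hk
        obtain ⟨g, hg, rfl⟩ := Finset.mem_image.1 hk
        exact ⟨(hU g (hGm g hg).1).2, (hup g hg).1, (hup g hg).2⟩)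
    have hfib2 : ∀ k ∈ G.image Prod.snd, (((G.filter fun g => g.2 = k).card : ℕ) : ℝ) ≤
        216 * (B / 2 ^ i) * (B / 2 ^ j) / |δ| := by
      intro k _
      have hcard : (G.filter fun g => g.2 = k).card =
          ((G.filter fun g => g.2 = k).image Prod.fst).card := by
        rw [Finset.card_image_of_injOn]
        intro z hz z' hz' h
        rw [Finset.mem_coe, Finset.mem_filter] at hz hz'
        exact Prod.ext h (hz.2.trans hz'.2.symm)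
      rw [hcard]
      refine cols_count s0 s1 t0 t1 (B / 2 ^ i) (B / 2 ^ j) hδ0 (by positivity) (by positivity)
        _ ?_
      intro γ hγ
      obtain ⟨g, hg, rfl⟩ := Finset.mem_image.1 hγ
      rw [Finset.mem_filter] at hg
      have hgF := (hGm g hg.1).1
      refine ⟨(hU g hgF).1, ?_, ?_⟩
      · rw [le_div_iff₀ h2i]
        refine le_trans ?_ (hs g hgF)
        exact mul_le_mul_of_nonneg_left (hlow g hg.1).1 (nm_nonneg _ _)
      · rw [le_div_iff₀ h2j]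
        refine le_trans ?_ (ht g hgF)
        exact mul_le_mul_of_nonneg_left (hlow g hg.1).2 (nm_nonneg _ _)
    have hsum : (G.card : ℝ) ≤ (216 * (2 * (2 : ℝ) ^ i) * (2 * (2 : ℝ) ^ j) / |D|) *
        (216 * (B / 2 ^ i) * (B / 2 ^ j) / |δ|) := by
      rw [Finset.card_eq_sum_card_image Prod.snd G]
      push_cast
      calc ∑ k ∈ G.image Prod.snd, (((G.filter fun g => g.2 = k).card : ℕ) : ℝ)
          ≤ ∑ _k ∈ G.image Prod.snd, (216 * (B / 2 ^ i) * (B / 2 ^ j) / |δ|) :=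
            Finset.sum_le_sum hfib2
        _ = (G.image Prod.snd).card * (216 * (B / 2 ^ i) * (B / 2 ^ j) / |δ|) := by
            rw [Finset.sum_const, nsmul_eq_mul]
        _ ≤ _ := mul_le_mul_of_nonneg_right hK (by positivity)
    refine hsum.trans (le_of_eq ?_)
    have hprod : |D| * |δ| = 4 := by
      rw [← abs_mul, mul_comm]
      exact hdet
    have e : (216 * (2 * (2 : ℝ) ^ i) * (2 * (2 : ℝ) ^ j) / |D|) *
        (216 * (B / 2 ^ i) * (B / 2 ^ j) / |δ|) = 186624 * B ^ 2 / (|D| * |δ|) := by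
      field_simp
      ring
    rw [e, hprod]
    ring
  rw [Finset.card_eq_sum_card_image f F]
  push_cast
  calc ∑ b ∈ F.image f, (((F.filter fun g => f g = b).card : ℕ) : ℝ)
      ≤ ∑ _b ∈ F.image f, (46656 * B ^ 2) := Finset.sum_le_sum hfib
    _ = (F.image f).card * (46656 * B ^ 2) := by rw [Finset.sum_const, nsmul_eq_mul]
    _ ≤ (Real.logb 2 X + 2) ^ 2 * (46656 * B ^ 2) :=
        mul_le_mul_of_nonneg_right himg (by positivity)
    _ = _ := by ring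


theorem perp (c0 c1 w0 w1 : ℝ) (h : c0 * w0 + c1 * w1 = 0) (hw : w0 ≠ 0 ∨ w1 ≠ 0) :
    ∃ a : ℝ, c0 = -(a * w1) ∧ c1 = a * w0 := by
  by_cases h0 : w0 = 0
  · have h1 : w1 ≠ 0 := by
      rcases hw with h | h
      · exact absurd h0 h
      · exact h
    refine ⟨-(c0 / w1), by field_simp, ?_⟩
    rw [h0, mul_zero, zero_add] at h
    rw [h0, mul_zero]
    exact (mul_eq_zero.1 h).resolve_right h1
  · refine ⟨c1 / w0, ?_, by field_simp⟩
    field_simp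
    linarith

theorem nm_swap (x y : ℝ) : nm (-y) x = nm x y := by
  unfold nm
  rw [abs_neg, max_comm]

/-- the number of pairs of unimodular matrices which keep an orthogonal triple in a box -/
theorem mult_count (P Q R : M2) (N : ℕ) (hN : 1 ≤ N) (M : ℝ) (hM : 1 ≤ M)
    (hPQ : bil P Q = 0) (hPR : bil P R = 0) (hQR : bil Q R = 0)
    (hp : P.det ≠ 0) (hq : 0 < Q.det) (hr : R.det < 0) (hMq : M ≤ 8 * (Q.det : ℝ))
    (hMr : M ≤ 8 * -(R.det : ℝ)) (F : Finset (M2 × M2))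
    (hF : ∀ g ∈ F, IsU g.1 ∧ IsU g.2 ∧ (∀ i j, |(g.1 * P * g.2) i j| ≤ 2 * N) ∧
      (∀ i j, |(g.1 * Q * g.2) i j| ≤ 2 * N) ∧ ∀ i j, |(g.1 * R * g.2) i j| ≤ 2 * N) :
    (F.card : ℝ) ≤ 46656 * (144 * N ^ 2 / M) * (Real.logb 2 (48 * N ^ 2) + 2) ^ 2 := by
  have hNR : (1 : ℝ) ≤ N := by exact_mod_cast hN
  have hqR : (0 : ℝ) < Q.det := by exact_mod_cast hq
  have hrR : (0 : ℝ) < -(R.det : ℝ) := by
    have : (R.det : ℝ) < 0 := by exact_mod_cast hr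
    linarith
  obtain ⟨a, ha⟩ : ∃ a, a = Real.sqrt (Q.det : ℝ) := ⟨_, rfl⟩
  obtain ⟨b, hb⟩ : ∃ b, b = Real.sqrt (-(R.det : ℝ)) := ⟨_, rfl⟩
  have ha0 : 0 < a := by rw [ha]; exact Real.sqrt_pos.2 hqR
  have hb0 : 0 < b := by rw [hb]; exact Real.sqrt_pos.2 hrR
  have ha2 : a ^ 2 = Q.det := by rw [ha]; exact Real.sq_sqrt hqR.le
  have hb2 : b ^ 2 = -(R.det : ℝ) := by rw [hb]; exact Real.sq_sqrt hrR.le
  obtain ⟨m, hm⟩ : ∃ m, m = Real.sqrt M := ⟨_, rfl⟩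
  have hm1 : 1 ≤ m := by rw [hm]; exact Real.one_le_sqrt.2 hM
  have hm2 : m ^ 2 = M := by rw [hm]; exact Real.sq_sqrt (by linarith)
  have hma : m ≤ 3 * a := by
    apply abs_le_of_sq_le_sq' _ (by positivity) |>.2
    rw [hm2, mul_pow, ha2]
    linarith
  have hmb : m ≤ 3 * b := by
    apply abs_le_of_sq_le_sq' _ (by positivity) |>.2
    rw [hm2, mul_pow, hb2]
    linarith
  have hm0 : 0 < m := by linarith
  rw [Matrix.det_fin_two] at ha2 hb2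
  push_cast at ha2 hb2
  have hPQ' : (P 0 0 : ℝ) * Q 1 1 + P 1 1 * Q 0 0 - P 0 1 * Q 1 0 - P 1 0 * Q 0 1 = 0 := by
    exact_mod_cast hPQ
  have hPR' : (P 0 0 : ℝ) * R 1 1 + P 1 1 * R 0 0 - P 0 1 * R 1 0 - P 1 0 * R 0 1 = 0 := by
    exact_mod_cast hPR
  have hQR' : (Q 0 0 : ℝ) * R 1 1 + Q 1 1 * R 0 0 - Q 0 1 * R 1 0 - Q 1 0 * R 0 1 = 0 := by
    exact_mod_cast hQR
  -- the two isotropic combinations
  obtain ⟨s0, s1, w0, w1, eU00, eU01, eU10, eU11⟩ := rank_one ((Q 0 0 : ℝ) / a + R 0 0 / b)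
    ((Q 0 1 : ℝ) / a + R 0 1 / b) ((Q 1 0 : ℝ) / a + R 1 0 / b) ((Q 1 1 : ℝ) / a + R 1 1 / b) (by
    field_simp
    linear_combination (-(b ^ 2)) * ha2 + a ^ 2 * hb2 + a * b * hQR')
  obtain ⟨t0, t1, z0, z1, eV00, eV01, eV10, eV11⟩ := rank_one ((Q 0 0 : ℝ) / a - R 0 0 / b)
    ((Q 0 1 : ℝ) / a - R 0 1 / b) ((Q 1 0 : ℝ) / a - R 1 0 / b) ((Q 1 1 : ℝ) / a - R 1 1 / b) (by
    field_simp
    linear_combination (-(b ^ 2)) * ha2 + a ^ 2 * hb2 - a * b * hQR')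
  have hdet : (s0 * t1 - s1 * t0) * (w0 * z1 - w1 * z0) = 4 := by
    have e : (s0 * t1 - s1 * t0) * (w0 * z1 - w1 * z0) =
        (s0 * w0 + t0 * z0) * (s1 * w1 + t1 * z1) - (s0 * w1 + t0 * z1) * (s1 * w0 + t1 * z0) := by
      ring
    rw [e, ← eU00, ← eU01, ← eU10, ← eU11, ← eV00, ← eV01, ← eV10, ← eV11]
    field_simp
    linear_combination (-4 * b ^ 2) * ha2
  have hw : w0 ≠ 0 ∨ w1 ≠ 0 := by
    by_contra hcon
    push Not at hcon
    rw [hcon.1, hcon.2] at hdet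
    norm_num at hdet
  have hz : z0 ≠ 0 ∨ z1 ≠ 0 := by
    by_contra hcon
    push Not at hcon
    rw [hcon.1, hcon.2] at hdet
    norm_num at hdet
  obtain ⟨α, hα0, hα1⟩ := perp ((P 1 1 : ℝ) * s0 - P 0 1 * s1) (-(P 1 0 : ℝ) * s0 + P 0 0 * s1)
    w0 w1 (by
    have e : ((P 1 1 : ℝ) * s0 - P 0 1 * s1) * w0 + (-(P 1 0 : ℝ) * s0 + P 0 0 * s1) * w1 =
      P 1 1 * (s0 * w0) - P 0 1 * (s1 * w0) - P 1 0 * (s0 * w1) + P 0 0 * (s1 * w1) := by ring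
    rw [e, ← eU00, ← eU01, ← eU10, ← eU11]
    linear_combination hPQ' / a + hPR' / b) hw
  obtain ⟨β, hβ0, hβ1⟩ := perp ((P 1 1 : ℝ) * t0 - P 0 1 * t1) (-(P 1 0 : ℝ) * t0 + P 0 0 * t1)
    z0 z1 (by
    have e : ((P 1 1 : ℝ) * t0 - P 0 1 * t1) * z0 + (-(P 1 0 : ℝ) * t0 + P 0 0 * t1) * z1 =
      P 1 1 * (t0 * z0) - P 0 1 * (t1 * z0) - P 1 0 * (t0 * z1) + P 0 0 * (t1 * z1) := by ring
    rw [e, ← eV00, ← eV01, ← eV10, ← eV11]
    linear_combination hPQ' / a - hPR' / b) hz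
  obtain ⟨D, hD⟩ : ∃ D, D = w0 * z1 - w1 * z0 := ⟨_, rfl⟩
  have hαβ : α * β * D ^ 2 = 4 * (P.det : ℝ) := by
    rw [Matrix.det_fin_two]
    push_cast
    have e : α * β * D = ((P 0 0 : ℝ) * P 1 1 - P 0 1 * P 1 0) * (s0 * t1 - s1 * t0) := by
      have e1 : α * β * D = -(α * w1) * (β * z0) - (α * w0) * -(β * z1) := by rw [hD]; ring
      rw [e1, ← hα0, ← hα1, ← hβ0, ← hβ1]
      ring
    have e2 : α * β * D ^ 2 = (α * β * D) * D := by ring
    rw [e2, e, mul_assoc, hD, hdet]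
    ring
  have hαβ4 : 4 ≤ |α| * |β| * D ^ 2 := by
    have h1 : (1 : ℝ) ≤ |(P.det : ℝ)| := by
      have : 1 ≤ |P.det| := Int.one_le_abs hp
      exact_mod_cast this
    have h2 : |α * β * D ^ 2| = 4 * |(P.det : ℝ)| := by
      rw [hαβ, abs_mul]
      norm_num
    rw [abs_mul, abs_mul, abs_of_nonneg (sq_nonneg D)] at h2
    rw [h2]
    linarith
  obtain ⟨B, hB⟩ : ∃ B, B = 12 * N / m := ⟨_, rfl⟩
  have hB0 : 0 < B := by rw [hB]; positivity
  have hNa : 2 * (N : ℝ) / a + 2 * N / b ≤ B := by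
    have h1 : 2 * (N : ℝ) / a ≤ 6 * N / m := by
      rw [div_le_div_iff₀ ha0 hm0]
      have := mul_le_mul_of_nonneg_left hma (by positivity : (0 : ℝ) ≤ 2 * N)
      linarith
    have h2 : 2 * (N : ℝ) / b ≤ 6 * N / m := by
      rw [div_le_div_iff₀ hb0 hm0]
      have := mul_le_mul_of_nonneg_left hmb (by positivity : (0 : ℝ) ≤ 2 * N)
      linarith
    rw [hB]
    have : 12 * (N : ℝ) / m = 6 * N / m + 6 * N / m := by ring
    linarith
  have hadd : ∀ x y : ℤ, |x| ≤ 2 * (N : ℤ) → |y| ≤ 2 * (N : ℤ) →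
      |(x : ℝ) / a + y / b| ≤ B ∧ |(x : ℝ) / a - y / b| ≤ B := by
    intro x y hx hy
    have hx' : |(x : ℝ)| ≤ 2 * N := by exact_mod_cast hx
    have hy' : |(y : ℝ)| ≤ 2 * N := by exact_mod_cast hy
    have h1 : |(x : ℝ) / a| ≤ 2 * N / a := by
      rw [abs_div, abs_of_pos ha0]
      exact div_le_div_of_nonneg_right hx' ha0.le
    have h2 : |(y : ℝ) / b| ≤ 2 * N / b := by
      rw [abs_div, abs_of_pos hb0]
      exact div_le_div_of_nonneg_right hy' hb0.le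
    constructor
    · exact (abs_add_le _ _).trans ((add_le_add h1 h2).trans hNa)
    · exact (abs_sub _ _).trans ((add_le_add h1 h2).trans hNa)
  have hs : ∀ g ∈ F, nm (g.1 0 0 * s0 + g.1 0 1 * s1) (g.1 1 0 * s0 + g.1 1 1 * s1) *
      nm (w0 * g.2 0 0 + w1 * g.2 1 0) (w0 * g.2 0 1 + w1 * g.2 1 1) ≤ B := by
    intro g hg
    obtain ⟨-, -, -, hQ, hR⟩ := hF g hg
    have key : ∀ i j, (g.1 i 0 * s0 + g.1 i 1 * s1) * (w0 * g.2 0 j + w1 * g.2 1 j) =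
        ((g.1 * Q * g.2) i j : ℤ) / a + ((g.1 * R * g.2) i j : ℤ) / b := by
      intro i j
      simp only [Matrix.mul_apply, Fin.sum_univ_two]
      push_cast
      linear_combination (-(g.1 i 0 : ℝ) * g.2 0 j) * eU00 + (-(g.1 i 0 : ℝ) * g.2 1 j) * eU01 +
        (-(g.1 i 1 : ℝ) * g.2 0 j) * eU10 + (-(g.1 i 1 : ℝ) * g.2 1 j) * eU11
    apply nm_mul_le
    · rw [key 0 0]; exact (hadd _ _ (hQ 0 0) (hR 0 0)).1
    · rw [key 0 1]; exact (hadd _ _ (hQ 0 1) (hR 0 1)).1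
    · rw [key 1 0]; exact (hadd _ _ (hQ 1 0) (hR 1 0)).1
    · rw [key 1 1]; exact (hadd _ _ (hQ 1 1) (hR 1 1)).1
  have ht : ∀ g ∈ F, nm (g.1 0 0 * t0 + g.1 0 1 * t1) (g.1 1 0 * t0 + g.1 1 1 * t1) *
      nm (z0 * g.2 0 0 + z1 * g.2 1 0) (z0 * g.2 0 1 + z1 * g.2 1 1) ≤ B := by
    intro g hg
    obtain ⟨-, -, -, hQ, hR⟩ := hF g hg
    have key : ∀ i j, (g.1 i 0 * t0 + g.1 i 1 * t1) * (z0 * g.2 0 j + z1 * g.2 1 j) =
        ((g.1 * Q * g.2) i j : ℤ) / a - ((g.1 * R * g.2) i j : ℤ) / b := by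
      intro i j
      simp only [Matrix.mul_apply, Fin.sum_univ_two]
      push_cast
      linear_combination (-(g.1 i 0 : ℝ) * g.2 0 j) * eV00 + (-(g.1 i 0 : ℝ) * g.2 1 j) * eV01 +
        (-(g.1 i 1 : ℝ) * g.2 0 j) * eV10 + (-(g.1 i 1 : ℝ) * g.2 1 j) * eV11
    apply nm_mul_le
    · rw [key 0 0]; exact (hadd _ _ (hQ 0 0) (hR 0 0)).2
    · rw [key 0 1]; exact (hadd _ _ (hQ 0 1) (hR 0 1)).2
    · rw [key 1 0]; exact (hadd _ _ (hQ 1 0) (hR 1 0)).2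
    · rw [key 1 1]; exact (hadd _ _ (hQ 1 1) (hR 1 1)).2
  -- upper bound for the second factor
  have hcomp : ∀ (x y X0 X1 : ℝ) (G : ℤ) (H : ℤ), |G| ≤ 2 * (N : ℤ) → |H| ≤ 2 * (N : ℤ) →
      |(G : ℝ) * X0 + H * X1| ≤ 4 * N * nm X0 X1 := by
    intro x y X0 X1 G H hG hH
    have hG' : |(G : ℝ)| ≤ 2 * N := by exact_mod_cast hG
    have hH' : |(H : ℝ)| ≤ 2 * N := by exact_mod_cast hH
    have h1 : |(G : ℝ) * X0| ≤ 2 * N * nm X0 X1 := by
      rw [abs_mul]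
      exact mul_le_mul hG' (le_max_left _ _) (abs_nonneg _) (by positivity)
    have h2 : |(H : ℝ) * X1| ≤ 2 * N * nm X0 X1 := by
      rw [abs_mul]
      exact mul_le_mul hH' (le_max_right _ _) (abs_nonneg _) (by positivity)
    have := abs_add_le ((G : ℝ) * X0) (H * X1)
    linarith
  have hadj : ∀ (σ0 σ1 ω0 ω1 κ : ℝ), (P 1 1 : ℝ) * σ0 - P 0 1 * σ1 = -(κ * ω1) →
      -(P 1 0 : ℝ) * σ0 + P 0 0 * σ1 = κ * ω0 → ∀ g ∈ F,
      |κ| * nm (ω0 * g.2 0 0 + ω1 * g.2 1 0) (ω0 * g.2 0 1 + ω1 * g.2 1 1) ≤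
      4 * N * nm (g.1 0 0 * σ0 + g.1 0 1 * σ1) (g.1 1 0 * σ0 + g.1 1 1 * σ1) := by
    intro σ0 σ1 ω0 ω1 κ h0 h1 g hg
    obtain ⟨hu, -, hP, -, -⟩ := hF g hg
    obtain ⟨ε, hε⟩ : ∃ ε : ℝ, ε = ((g.1.det : ℤ) : ℝ) := ⟨_, rfl⟩
    have hε1 : |ε| = 1 := by
      rw [hε]
      rcases hu with h | h <;> rw [h] <;> simp
    have hε2 : ε = g.1 0 0 * g.1 1 1 - g.1 0 1 * g.1 1 0 := by
      rw [hε, Matrix.det_fin_two]
      push_cast
      ring
    have f1 : (((g.1 * P * g.2) 1 1 : ℤ) : ℝ) * (g.1 0 0 * σ0 + g.1 0 1 * σ1) +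
        ((-(g.1 * P * g.2) 0 1 : ℤ) : ℝ) * (g.1 1 0 * σ0 + g.1 1 1 * σ1) =
        ε * κ * -(ω0 * g.2 0 1 + ω1 * g.2 1 1) := by
      rw [hε2]
      simp only [Matrix.mul_apply, Fin.sum_univ_two]
      push_cast
      linear_combination ((g.1 0 0 * g.1 1 1 - g.1 0 1 * g.1 1 0 : ℝ) * g.2 1 1) * h0 -
        ((g.1 0 0 * g.1 1 1 - g.1 0 1 * g.1 1 0 : ℝ) * g.2 0 1) * h1
    have f2 : ((-(g.1 * P * g.2) 1 0 : ℤ) : ℝ) * (g.1 0 0 * σ0 + g.1 0 1 * σ1) +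
        (((g.1 * P * g.2) 0 0 : ℤ) : ℝ) * (g.1 1 0 * σ0 + g.1 1 1 * σ1) =
        ε * κ * (ω0 * g.2 0 0 + ω1 * g.2 1 0) := by
      rw [hε2]
      simp only [Matrix.mul_apply, Fin.sum_univ_two]
      push_cast
      linear_combination (-(g.1 0 0 * g.1 1 1 - g.1 0 1 * g.1 1 0 : ℝ) * g.2 1 0) * h0 +
        ((g.1 0 0 * g.1 1 1 - g.1 0 1 * g.1 1 0 : ℝ) * g.2 0 0) * h1
    have hκ : |ε * κ| = |κ| := by rw [abs_mul, hε1, one_mul]
    rw [← hκ, ← nm_swap, ← nm_smul, ← f1, ← f2]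
    unfold nm
    refine max_le ?_ ?_
    · exact hcomp 0 0 _ _ _ _ (hP 1 1) (by rw [abs_neg]; exact hP 0 1)
    · exact hcomp 0 0 _ _ _ _ (by rw [abs_neg]; exact hP 1 0) (hP 0 0)
  have hupw : ∀ g ∈ F, |α| * nm (w0 * g.2 0 0 + w1 * g.2 1 0) (w0 * g.2 0 1 + w1 * g.2 1 1) ^ 2 ≤
      4 * N * B := by
    intro g hg
    have h1 := hadj s0 s1 w0 w1 α hα0 hα1 g hg
    have h2 := hs g hg
    have h3 := nm_nonneg (w0 * g.2 0 0 + w1 * g.2 1 0) (w0 * g.2 0 1 + w1 * g.2 1 1)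
    calc |α| * nm (w0 * g.2 0 0 + w1 * g.2 1 0) (w0 * g.2 0 1 + w1 * g.2 1 1) ^ 2
        = (|α| * nm (w0 * g.2 0 0 + w1 * g.2 1 0) (w0 * g.2 0 1 + w1 * g.2 1 1)) *
          nm (w0 * g.2 0 0 + w1 * g.2 1 0) (w0 * g.2 0 1 + w1 * g.2 1 1) := by ring
      _ ≤ (4 * N * nm (g.1 0 0 * s0 + g.1 0 1 * s1) (g.1 1 0 * s0 + g.1 1 1 * s1)) *
          nm (w0 * g.2 0 0 + w1 * g.2 1 0) (w0 * g.2 0 1 + w1 * g.2 1 1) :=
          mul_le_mul_of_nonneg_right h1 h3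
      _ = 4 * N * (nm (g.1 0 0 * s0 + g.1 0 1 * s1) (g.1 1 0 * s0 + g.1 1 1 * s1) *
          nm (w0 * g.2 0 0 + w1 * g.2 1 0) (w0 * g.2 0 1 + w1 * g.2 1 1)) := by ring
      _ ≤ 4 * N * B := mul_le_mul_of_nonneg_left h2 (by positivity)
  have hupz : ∀ g ∈ F, |β| * nm (z0 * g.2 0 0 + z1 * g.2 1 0) (z0 * g.2 0 1 + z1 * g.2 1 1) ^ 2 ≤
      4 * N * B := by
    intro g hg
    have h1 := hadj t0 t1 z0 z1 β hβ0 hβ1 g hg
    have h2 := ht g hg
    have h3 := nm_nonneg (z0 * g.2 0 0 + z1 * g.2 1 0) (z0 * g.2 0 1 + z1 * g.2 1 1)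
    calc |β| * nm (z0 * g.2 0 0 + z1 * g.2 1 0) (z0 * g.2 0 1 + z1 * g.2 1 1) ^ 2
        = (|β| * nm (z0 * g.2 0 0 + z1 * g.2 1 0) (z0 * g.2 0 1 + z1 * g.2 1 1)) *
          nm (z0 * g.2 0 0 + z1 * g.2 1 0) (z0 * g.2 0 1 + z1 * g.2 1 1) := by ring
      _ ≤ (4 * N * nm (g.1 0 0 * t0 + g.1 0 1 * t1) (g.1 1 0 * t0 + g.1 1 1 * t1)) *
          nm (z0 * g.2 0 0 + z1 * g.2 1 0) (z0 * g.2 0 1 + z1 * g.2 1 1) :=
          mul_le_mul_of_nonneg_right h1 h3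
      _ = 4 * N * (nm (g.1 0 0 * t0 + g.1 0 1 * t1) (g.1 1 0 * t0 + g.1 1 1 * t1) *
          nm (z0 * g.2 0 0 + z1 * g.2 1 0) (z0 * g.2 0 1 + z1 * g.2 1 1)) := by ring
      _ ≤ 4 * N * B := mul_le_mul_of_nonneg_left h2 (by positivity)
  have hlow : ∀ g ∈ F, D ^ 2 ≤
      4 * nm (w0 * g.2 0 0 + w1 * g.2 1 0) (w0 * g.2 0 1 + w1 * g.2 1 1) ^ 2 *
      nm (z0 * g.2 0 0 + z1 * g.2 1 0) (z0 * g.2 0 1 + z1 * g.2 1 1) ^ 2 := by
    intro g hg
    have h1 := det_le (w0 * g.2 0 0 + w1 * g.2 1 0) (w0 * g.2 0 1 + w1 * g.2 1 1)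
      (z0 * g.2 0 0 + z1 * g.2 1 0) (z0 * g.2 0 1 + z1 * g.2 1 1)
    have e : (w0 * g.2 0 0 + w1 * g.2 1 0) * (z0 * g.2 0 1 + z1 * g.2 1 1) -
      (w0 * g.2 0 1 + w1 * g.2 1 1) * (z0 * g.2 0 0 + z1 * g.2 1 0) =
      D * ((g.2.det : ℤ) : ℝ) := by
      rw [Matrix.det_fin_two, hD]
      push_cast
      ring
    have e2 : |D * ((g.2.det : ℤ) : ℝ)| = |D| := by
      rw [abs_mul]
      rcases (hF g hg).2.1 with h | h <;> rw [h] <;> simp
    rw [e, e2] at h1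
    have h2 := nm_nonneg (w0 * g.2 0 0 + w1 * g.2 1 0) (w0 * g.2 0 1 + w1 * g.2 1 1)
    have h3 := nm_nonneg (z0 * g.2 0 0 + z1 * g.2 1 0) (z0 * g.2 0 1 + z1 * g.2 1 1)
    have h4 := pow_le_pow_left₀ (abs_nonneg D) h1 2
    rw [sq_abs] at h4
    refine h4.trans (le_of_eq ?_)
    ring
  have hXB : 4 * N * B ≤ 48 * (N : ℝ) ^ 2 := by
    have : B ≤ 12 * N := by
      rw [hB, div_le_iff₀ hm0]
      have := mul_le_mul_of_nonneg_left hm1 (by positivity : (0 : ℝ) ≤ 12 * N)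
      linarith
    have := mul_le_mul_of_nonneg_left this (by positivity : (0 : ℝ) ≤ 4 * N)
    linarith
  have hratio : ∀ (x x' y' : ℝ), 0 ≤ x → 0 ≤ x' → ∀ κ μ : ℝ, 4 ≤ |κ| * |μ| * D ^ 2 →
      |κ| * x ^ 2 ≤ 4 * N * B → |μ| * y' ^ 2 ≤ 4 * N * B → D ^ 2 ≤ 4 * x' ^ 2 * y' ^ 2 →
      x ≤ 48 * (N : ℝ) ^ 2 * x' := by
    intro x x' y' hx hx' κ μ h1 h2 h3 h4
    have h5 : 0 ≤ 4 * N * B := by positivity
    have h6 : x ^ 2 ≤ (4 * N * B) ^ 2 * x' ^ 2 := by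
      have e1 : 4 * x ^ 2 ≤ |κ| * |μ| * D ^ 2 * x ^ 2 :=
        mul_le_mul_of_nonneg_right h1 (sq_nonneg x)
      have e2 : |κ| * |μ| * D ^ 2 * x ^ 2 = (|κ| * x ^ 2) * (|μ| * D ^ 2) := by ring
      have e3 : (|κ| * x ^ 2) * (|μ| * D ^ 2) ≤ (4 * N * B) * (|μ| * D ^ 2) :=
        mul_le_mul_of_nonneg_right h2 (by positivity)
      have e4 : |μ| * D ^ 2 ≤ |μ| * (4 * x' ^ 2 * y' ^ 2) :=
        mul_le_mul_of_nonneg_left h4 (abs_nonneg μ)
      have e5 : |μ| * (4 * x' ^ 2 * y' ^ 2) = 4 * x' ^ 2 * (|μ| * y' ^ 2) := by ring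
      have e6 : 4 * x' ^ 2 * (|μ| * y' ^ 2) ≤ 4 * x' ^ 2 * (4 * N * B) :=
        mul_le_mul_of_nonneg_left h3 (by positivity)
      have e7 : (4 * N * B) * (|μ| * D ^ 2) ≤ (4 * N * B) * (4 * x' ^ 2 * (4 * N * B)) :=
        mul_le_mul_of_nonneg_left (by linarith) h5
      nlinarith
    have h7 : x ≤ 4 * N * B * x' := by
      apply abs_le_of_sq_le_sq' _ (by positivity) |>.2
      rw [mul_pow]
      exact h6
    exact h7.trans (mul_le_mul_of_nonneg_right hXB hx')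
  have hmain := pair_count s0 s1 t0 t1 w0 w1 z0 z1 B (48 * (N : ℝ) ^ 2) hB0 (by nlinarith)
    (by rw [hdet]; norm_num) F (fun g hg => ⟨(hF g hg).1, (hF g hg).2.1⟩) hs ht
    (fun g hg g' hg' => hratio _ _ _ (nm_nonneg _ _) (nm_nonneg _ _) α β hαβ4 (hupw g hg)
      (hupz g' hg') (hlow g' hg'))
    (fun g hg g' hg' => hratio _ _ _ (nm_nonneg _ _) (nm_nonneg _ _) β α
      (by rw [mul_comm |β|]; exact hαβ4) (hupz g hg) (hupw g' hg') (by
        have := hlow g' hg'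
        refine this.trans (le_of_eq ?_)
        ring))
  refine hmain.trans (le_of_eq ?_)
  rw [hB, div_pow, mul_pow, hm2]
  norm_num

end Pool.Agent.P8H29.SE
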