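import Mathlib
import Pool.Agent.P8H29.SE.Mult

/-! # Counting lattices of given index that are stable under trace-free matrices -/

set_option autoImplicit false

namespace Pool.Agent.P8H29.SE

/-- the image of a vector -/
def mv (X : M2) (w : ℤ × ℤ) : ℤ × ℤ :=
  (X 0 0 * w.1 + X 0 1 * w.2, X 1 0 * w.1 + X 1 1 * w.2)

/-- the entry of the matrix in the new basis `(w, (-b, a))` -/
def lam (a b : ℤ) (w : ℤ × ℤ) (X : M2) : ℤ := a * (mv X w).1 + b * (mv X w).2

def kap (a b : ℤ) (X : M2) : ℤ := a * (mv X (-b, a)).1 + b * (mv X (-b, a)).2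

theorem det_basis {a b : ℤ} {w : ℤ × ℤ} (h : a * w.1 + b * w.2 = 1) {X : M2}
    (hX : X 0 0 + X 1 1 = 0) :
    X.det = -(lam a b w X) ^ 2 - dt w (mv X w) * kap a b X := by
  rw [Matrix.det_fin_two]
  have e : -(lam a b w X) ^ 2 - dt w (mv X w) * kap a b X =
      (a * w.1 + b * w.2) ^ 2 * (X 0 0 * X 1 1 - X 0 1 * X 1 0) -
      (X 0 0 + X 1 1) * lam a b w X * (a * w.1 + b * w.2) := by
    unfold lam kap dt mv
    ring
  rw [e, h, hX]
  ring

theorem trace_basis {a b : ℤ} {w : ℤ × ℤ} (h : a * w.1 + b * w.2 = 1) {X Z : M2}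
    (hX : X 0 0 + X 1 1 = 0) (hZ : Z 0 0 + Z 1 1 = 0) :
    2 * (lam a b w X) * (lam a b w Z) + dt w (mv X w) * kap a b Z + dt w (mv Z w) * kap a b X =
    X 0 0 * Z 0 0 + X 0 1 * Z 1 0 + X 1 0 * Z 0 1 + X 1 1 * Z 1 1 := by
  have hX' : X 1 1 = -X 0 0 := by linarith
  have hZ' : Z 1 1 = -Z 0 0 := by linarith
  have e : 2 * (lam a b w X) * (lam a b w Z) + dt w (mv X w) * kap a b Z +
      dt w (mv Z w) * kap a b X =
      (a * w.1 + b * w.2) ^ 2 * (2 * X 0 0 * Z 0 0 + X 0 1 * Z 1 0 + X 1 0 * Z 0 1) := by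
    unfold lam kap dt mv
    rw [hX', hZ']
    ring
  rw [e, h, hX', hZ']
  ring

theorem dt_basis {a b : ℤ} {w1 : ℤ × ℤ} (h : a * w1.1 + b * w1.2 = 1) {X : M2}
    (hX : X 0 0 + X 1 1 = 0) (w : ℤ × ℤ) :
    dt w (mv X w) = dt w1 (mv X w1) * (a * w.1 + b * w.2) ^ 2 -
      dt w1 w * (2 * lam a b w1 X * (a * w.1 + b * w.2) + kap a b X * dt w1 w) := by
  have hX' : X 1 1 = -X 0 0 := by linarith
  have e1 : w.1 = (a * w.1 + b * w.2) * w1.1 - dt w1 w * b := by
    unfold dt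
    linear_combination (-w.1) * h
  have e2 : w.2 = (a * w.1 + b * w.2) * w1.2 + dt w1 w * a := by
    unfold dt
    linear_combination (-w.2) * h
  obtain ⟨x, hx⟩ : ∃ x, x = a * w.1 + b * w.2 := ⟨_, rfl⟩
  obtain ⟨y, hy⟩ : ∃ y, y = dt w1 w := ⟨_, rfl⟩
  rw [← hx, ← hy] at e1 e2
  rw [← hx, ← hy]
  have e3 : dt w (mv X w) = X 1 0 * w.1 ^ 2 + (X 1 1 - X 0 0) * w.1 * w.2 - X 0 1 * w.2 ^ 2 := by
    unfold dt mv
    ring
  rw [e3, e1, e2, hX']
  unfold lam kap dt mv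
  rw [hX']
  ring

theorem dvd_gcd_mul {k a b Δ : ℤ} (h1 : k ∣ a * Δ) (h2 : k ∣ b * Δ) :
    k ∣ (Int.gcd a b : ℤ) * Δ := by
  have e : (Int.gcd a b : ℤ) = a * Int.gcdA a b + b * Int.gcdB a b := Int.gcd_eq_gcd_ab a b
  rw [e]
  have : (a * Int.gcdA a b + b * Int.gcdB a b) * Δ =
      a * Δ * Int.gcdA a b + b * Δ * Int.gcdB a b := by ring
  rw [this]
  exact dvd_add (h1.mul_right _) (h2.mul_right _)

/-- the order divides a fixed number -/
theorem index_dvd {n : ℤ} {w : ℤ × ℤ} (hw : IsCoprime w.1 w.2) {X Z : M2}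
    (hX : X 0 0 + X 1 1 = 0) (hZ : Z 0 0 + Z 1 1 = 0)
    (hXZ : X 0 0 * Z 0 0 + X 0 1 * Z 1 0 + X 1 0 * Z 0 1 + X 1 1 * Z 1 1 = 0)
    (h1 : n ∣ dt w (mv X w)) (h2 : n ∣ dt w (mv Z w)) : n ∣ 4 * (X.det * Z.det) := by
  obtain ⟨a, b, hab⟩ := hw
  rw [det_basis hab hX, det_basis hab hZ]
  have h3 := trace_basis hab hX hZ
  rw [hXZ] at h3
  obtain ⟨u, hu⟩ := h1
  obtain ⟨v, hv⟩ := h2
  rw [hu, hv] at h3 ⊢
  obtain ⟨L, hL⟩ : ∃ L, L = lam a b w X := ⟨_, rfl⟩
  obtain ⟨L', hL'⟩ : ∃ L', L' = lam a b w Z := ⟨_, rfl⟩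
  obtain ⟨K, hK⟩ : ∃ K, K = kap a b X := ⟨_, rfl⟩
  obtain ⟨K', hK'⟩ : ∃ K', K' = kap a b Z := ⟨_, rfl⟩
  rw [← hL, ← hL', ← hK, ← hK'] at h3 ⊢
  have e : 2 * L * L' = -(n * (u * K' + v * K)) := by linear_combination h3
  refine ⟨(u * K' + v * K) ^ 2 * n + 4 * u * K * L' ^ 2 + 4 * v * K' * L ^ 2 +
    4 * n * u * v * K * K', ?_⟩
  have e2 : 4 * ((-L ^ 2 - n * u * K) * (-L' ^ 2 - n * v * K')) = (2 * L * L') ^ 2 +
    n * (4 * u * K * L' ^ 2 + 4 * v * K' * L ^ 2 + 4 * n * u * v * K * K') := by ring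
  rw [e2, e]
  ring

/-- **Counting of the stable cyclic sublattices of index `n`.** -/
theorem root_count (n : ℕ) (hn : 0 < n) (Xs : Fin 3 → M2)
    (htr : ∀ j, Xs j 0 0 + Xs j 1 1 = 0) (g : ℕ)
    (hg : ∀ s : ℕ, (∀ j, (s : ℤ) ^ 2 ∣ 4 * (Xs j).det) → s ≤ g)
    (W : Finset (ℤ × ℤ)) (hprim : ∀ w ∈ W, IsCoprime w.1 w.2)
    (hroot : ∀ w ∈ W, ∀ j, (n : ℤ) ∣ dt w (mv (Xs j) w))
    (hsep : ∀ w ∈ W, ∀ w' ∈ W, (n : ℤ) ∣ dt w w' → w = w') :
    W.card ≤ n.divisors.card * g := by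
  classical
  rcases W.eq_empty_or_nonempty with rfl | ⟨w1, hw1⟩
  · simp
  obtain ⟨a, b, hab⟩ := hprim w1 hw1
  let x : ℤ × ℤ → ℤ := fun w => a * w.1 + b * w.2
  let y : ℤ × ℤ → ℤ := fun w => dt w1 w
  let D : ℤ × ℤ → ℕ := fun w => Int.gcd n (y w)
  have hDn : ∀ w ∈ W, D w ∈ n.divisors := by
    intro w _
    rw [Nat.mem_divisors]
    refine ⟨?_, hn.ne'⟩
    have : (D w : ℤ) ∣ n := Int.gcd_dvd_left _ _
    exact_mod_cast this
  have hdt : ∀ w w' : ℤ × ℤ, dt w w' = x w * y w' - x w' * y w := by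
    intro w w'
    simp only [x, y]
    unfold dt
    linear_combination (-(w.1 * w'.2 - w.2 * w'.1)) * hab
  have hfib : ∀ d ∈ n.divisors, (W.filter fun w => D w = d).card ≤ g := by
    intro d hd
    rw [Nat.mem_divisors] at hd
    obtain ⟨e, he⟩ := hd.1
    have hd0 : 0 < d := Nat.pos_of_ne_zero (by rintro rfl; simp at he; omega)
    have he0 : 0 < e := Nat.pos_of_ne_zero (by rintro rfl; simp at he; omega)
    have heZ : (n : ℤ) = d * e := by exact_mod_cast he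
    set Wd := W.filter fun w => D w = d with hWd
    rcases Wd.eq_empty_or_nonempty with h0 | ⟨w0, hw0⟩
    · rw [h0]
      simp
    obtain ⟨lm, hlm⟩ : ∃ lm : Fin 3 → ℤ, ∀ j, lm j = lam a b w1 (Xs j) := ⟨_, fun j => rfl⟩
    obtain ⟨kp, hkp⟩ : ∃ kp : Fin 3 → ℤ, ∀ j, kp j = kap a b (Xs j) := ⟨_, fun j => rfl⟩
    -- the invariant
    have hξ : ∀ w ∈ Wd, ∃ ξ y' : ℤ, 0 ≤ ξ ∧ ξ < e ∧ y w = d * y' ∧ (e : ℤ) ∣ x w - ξ * y' ∧
        ∀ j, (e : ℤ) ∣ 2 * lm j * ξ + kp j * d := by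
      intro w hw
      rw [hWd, Finset.mem_filter] at hw
      have hgy : (d : ℤ) ∣ y w := by
        rw [← hw.2]
        exact Int.gcd_dvd_right _ _
      obtain ⟨y', hy'⟩ := hgy
      have hcop : IsCoprime y' (e : ℤ) := by
        rw [Int.isCoprime_iff_gcd_eq_one]
        have h1 : Int.gcd (n : ℤ) (y w) = d := hw.2
        rw [heZ, hy', Int.gcd_mul_left] at h1
        have h2 : d * Int.gcd e y' = d * 1 := by
          rw [mul_one]
          simpa using h1
        rw [Int.gcd_comm]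
        exact Nat.eq_of_mul_eq_mul_left hd0 h2
      obtain ⟨z, t, hzt⟩ := hcop
      have he0Z : (0 : ℤ) < e := by exact_mod_cast he0
      refine ⟨(x w * z) % e, y', Int.emod_nonneg _ he0Z.ne', Int.emod_lt_of_pos _ he0Z, hy', ?_,
        ?_⟩
      · have h1 : (x w * z) % (e : ℤ) = x w * z - e * (x w * z / e) := by
          have := Int.emod_add_mul_ediv (x w * z) e
          linarith
        rw [h1]
        refine ⟨x w * t + y' * (x w * z / e), ?_⟩
        linear_combination (-(x w)) * hzt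
      · intro j
        have h1 : (x w * z) % (e : ℤ) = x w * z - e * (x w * z / e) := by
          have := Int.emod_add_mul_ediv (x w * z) e
          linarith
        have h2 := hroot w hw.1 j
        rw [dt_basis hab (htr j) w] at h2
        have h3 := hroot w1 hw1 j
        have h4 : (n : ℤ) ∣ y w * (2 * lm j * x w + kp j * y w) := by
          have h5 := dvd_sub (h3.mul_right ((a * w.1 + b * w.2) ^ 2)) h2
          rw [hlm, hkp]
          refine h5.trans (dvd_of_eq ?_)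
          simp only [x, y]
          ring
        rw [hy', heZ] at h4
        have h5 : (e : ℤ) ∣ y' * (2 * lm j * x w + kp j * (d * y')) := by
          have : (d : ℤ) * e ∣ d * (y' * (2 * lm j * x w + kp j * (d * y'))) := by
            refine h4.trans (dvd_of_eq ?_)
            ring
          exact Int.dvd_of_mul_dvd_mul_left (by exact_mod_cast hd0.ne') this
        have hcop' : IsCoprime (e : ℤ) y' := ⟨t, z, by linarith⟩
        have h6 := hcop'.dvd_of_dvd_mul_left h5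
        -- multiply by z
        rw [h1]
        have h7 : 2 * lm j * (x w * z - e * (x w * z / e)) + kp j * d =
            z * (2 * lm j * x w + kp j * (d * y')) + e * (kp j * d * t -
            2 * lm j * (x w * z / e)) := by
          linear_combination (-(kp j * d)) * hzt
        rw [h7]
        exact dvd_add (h6.mul_left z) (Dvd.intro _ rfl)
    choose! ξ y' hξ0 hξe hy' hξx hξl using hξ
    -- the number of the possible invariants
    set s : ℕ := Int.gcd e (Int.gcd (2 * lm 0) (Int.gcd (2 * lm 1) (2 * lm 2))) with hs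
    have hse : (s : ℤ) ∣ e := Int.gcd_dvd_left _ _
    have hs' : (s : ℤ) ∣ (Int.gcd (2 * lm 0) (Int.gcd (2 * lm 1) (2 * lm 2)) : ℤ) :=
      Int.gcd_dvd_right _ _
    have hs0 : (s : ℤ) ∣ 2 * lm 0 := hs'.trans (Int.gcd_dvd_left _ _)
    have hs'' : (s : ℤ) ∣ (Int.gcd (2 * lm 1) (2 * lm 2) : ℤ) := hs'.trans (Int.gcd_dvd_right _ _)
    have hs1 : (s : ℤ) ∣ 2 * lm 1 := hs''.trans (Int.gcd_dvd_left _ _)
    have hs2 : (s : ℤ) ∣ 2 * lm 2 := hs''.trans (Int.gcd_dvd_right _ _)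
    have hsl : ∀ j, (s : ℤ) ∣ 2 * lm j := by
      intro j
      fin_cases j
      · exact hs0
      · exact hs1
      · exact hs2
    have hsg : s ≤ g := by
      apply hg
      intro j
      have h1 : (s : ℤ) ∣ kp j * d := by
        have h2 := hse.trans (hξl w0 hw0 j)
        have h3 : (s : ℤ) ∣ 2 * lm j * ξ w0 := (hsl j).mul_right _
        have h4 := dvd_sub h2 h3
        refine h4.trans (dvd_of_eq ?_)
        ring
      rw [det_basis hab (htr j)]
      obtain ⟨u, hu⟩ := hroot w1 hw1 j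
      rw [hu, ← hlm, ← hkp, heZ]
      obtain ⟨p, hp⟩ := hsl j
      obtain ⟨q, hq⟩ := hse
      obtain ⟨r, hr⟩ := h1
      refine ⟨-(p ^ 2) - 4 * q * r * u, ?_⟩
      have e1 : 4 * (-(lm j) ^ 2 - d * e * u * kp j) = -(2 * lm j) ^ 2 -
        4 * e * u * (kp j * d) := by ring
      rw [e1, hp, hq, hr]
      ring
    refine le_trans ?_ hsg
    obtain ⟨f, hf⟩ := hse
    have hs0' : (0 : ℤ) < s := by
      rcases Nat.eq_zero_or_pos s with h | h
      · rw [h] at hf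
        simp at hf
        omega
      · exact_mod_cast h
    have hf0 : 0 < f := by
      have : (0 : ℤ) < s * f := by rw [← hf]; exact_mod_cast he0
      exact (mul_pos_iff_of_pos_left hs0').1 this
    have hcong : ∀ w ∈ Wd, ∀ w' ∈ Wd, f ∣ ξ w - ξ w' := by
      intro w hw w' hw'
      have h1 : ∀ j, (e : ℤ) ∣ 2 * lm j * (ξ w - ξ w') := by
        intro j
        have := dvd_sub (hξl w hw j) (hξl w' hw' j)
        refine this.trans (dvd_of_eq ?_)
        ring
      have h2 : (e : ℤ) ∣ (s : ℤ) * (ξ w - ξ w') :=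
        dvd_gcd_mul (Dvd.intro _ rfl) (dvd_gcd_mul (h1 0) (dvd_gcd_mul (h1 1) (h1 2)))
      rw [hf] at h2
      exact Int.dvd_of_mul_dvd_mul_left hs0'.ne' h2
    have hinj : Set.InjOn (fun w => (ξ w / f).toNat) (Wd : Set (ℤ × ℤ)) := by
      intro w hw w' hw' h
      rw [Finset.mem_coe] at hw hw'
      have h1 : 0 ≤ ξ w / f := Int.ediv_nonneg (hξ0 w hw) hf0.le
      have h2 : 0 ≤ ξ w' / f := Int.ediv_nonneg (hξ0 w' hw') hf0.le
      have h3 : ξ w / f = ξ w' / f := by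
        have h4 : ((ξ w / f).toNat : ℤ) = ((ξ w' / f).toNat : ℤ) := by
          exact_mod_cast h
        rwa [Int.toNat_of_nonneg h1, Int.toNat_of_nonneg h2] at h4
      have h4 : ξ w % f = ξ w' % f := (Int.modEq_iff_dvd (n := f)).2 (hcong w' hw' w hw)
      have h5 : ξ w = ξ w' := by
        rw [← Int.emod_add_mul_ediv (ξ w) f, ← Int.emod_add_mul_ediv (ξ w') f, h3, h4]
      rw [hWd, Finset.mem_filter] at hw hw'
      apply hsep w hw.1 w' hw'.1
      have hwm : w ∈ Wd := by rw [hWd, Finset.mem_filter]; exact hw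
      have hwm' : w' ∈ Wd := by rw [hWd, Finset.mem_filter]; exact hw'
      rw [hdt, hy' w hwm, hy' w' hwm', heZ]
      have h6 := hξx w hwm
      have h7 := hξx w' hwm'
      rw [h5] at h6
      have h8 := dvd_sub (h6.mul_right (y' w')) (h7.mul_right (y' w))
      have h9 : (d : ℤ) * e ∣ d * ((x w - ξ w' * y' w) * y' w' - (x w' - ξ w' * y' w') * y' w) :=
        mul_dvd_mul_left _ h8
      refine h9.trans (dvd_of_eq ?_)
      ring
    have hmaps : ∀ w ∈ Wd, (ξ w / f).toNat ∈ Finset.range s := by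
      intro w hw
      rw [Finset.mem_range]
      have h1 : ξ w / f < s := by
        apply Int.ediv_lt_of_lt_mul hf0
        rw [← hf]
        exact hξe w hw
      have h2 : 0 ≤ ξ w / f := Int.ediv_nonneg (hξ0 w hw) hf0.le
      have h3 : ((ξ w / f).toNat : ℤ) < s := by
        rw [Int.toNat_of_nonneg h2]
        exact h1
      exact_mod_cast h3
    have := Finset.card_le_card_of_injOn (fun w => (ξ w / f).toNat) hmaps hinj
    rwa [Finset.card_range] at this
  calc W.card = ∑ d ∈ n.divisors, (W.filter fun w => D w = d).card :=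
        Finset.card_eq_sum_card_fiberwise hDn
    _ ≤ ∑ _d ∈ n.divisors, g := Finset.sum_le_sum hfib
    _ = n.divisors.card * g := by rw [Finset.sum_const, smul_eq_mul]

end Pool.Agent.P8H29.SE
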