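import Mathlib
import Pool.Agent.P8H29.SE.Root

/-! # Orthogonal triples of integral matrices with given determinants: intertwining matrices -/

set_option autoImplicit false

namespace Pool.Agent.P8H29.SE

open Matrix

/-- the average over the group generated by two anticommuting matrices -/
def Kf (X0 Z0 X Z : M2) (A B : ℤ) (e : M2) : M2 :=
  (A * B) • e - B • (X0 * e * X) - A • (Z0 * e * Z) + X0 * Z0 * e * (Z * X)

theorem kf_left (X0 Z0 X Z e : M2) (A B : ℤ) (h0 : X0 1 1 = -X0 0 0) (h : X 1 1 = -X 0 0) :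
    X0 * Kf X0 Z0 X Z A B e - Kf X0 Z0 X Z A B e * X =
      (A - X0.det) • (Z0 * e * Z * X - B • (e * X)) +
      (A - X.det) • (B • (X0 * e) - X0 * Z0 * e * Z) := by
  unfold Kf
  rw [Matrix.det_fin_two, Matrix.det_fin_two]
  ext i j
  fin_cases i <;> fin_cases j <;>
  · simp only [Matrix.mul_apply, Fin.sum_univ_two, Matrix.sub_apply, Matrix.add_apply,
      Matrix.smul_apply, smul_eq_mul, Fin.zero_eta, Fin.mk_one, Fin.isValue]
    rw [h0, h]
    ring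

theorem kf_right (X0 Z0 X Z e : M2) (A B : ℤ) (h0 : X0 1 1 = -X0 0 0) (h : X 1 1 = -X 0 0)
    (k0 : Z0 1 1 = -Z0 0 0) (k : Z 1 1 = -Z 0 0) :
    Z0 * Kf X0 Z0 X Z A B e - Kf X0 Z0 X Z A B e * Z =
      (A * (B - Z.det)) • (Z0 * e) + (A * (Z0.det - B)) • (e * Z) +
      (B - Z.det) • (X0 * Z0 * e * X) + (Z0.det - B) • (X0 * e * Z * X) +
      (2 * X0 0 0 * Z0 0 0 + X0 0 1 * Z0 1 0 + X0 1 0 * Z0 0 1) •
        (Z0 * e * Z * X - B • (e * X)) +
      (2 * X 0 0 * Z 0 0 + X 0 1 * Z 1 0 + X 1 0 * Z 0 1) •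
        (B • (X0 * e) - X0 * Z0 * e * Z) := by
  unfold Kf
  rw [Matrix.det_fin_two, Matrix.det_fin_two]
  ext i j
  fin_cases i <;> fin_cases j <;>
  · simp only [Matrix.mul_apply, Fin.sum_univ_two, Matrix.sub_apply, Matrix.add_apply,
      Matrix.smul_apply, smul_eq_mul, Fin.zero_eta, Fin.mk_one, Fin.isValue]
    rw [h0, h, k0, k]
    ring


/-- `h` carries the pair `(X, Z)` to the pair `(X0, Z0)` -/
def Tw (X0 Z0 X Z h : M2) : Prop := X0 * h = h * X ∧ Z0 * h = h * Z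

/-- two trace-free orthogonal matrices of given nonzero determinants -/
structure Pr (X Z : M2) (A B : ℤ) : Prop where
  tX : X 1 1 = -X 0 0
  tZ : Z 1 1 = -Z 0 0
  dX : X.det = A
  dZ : Z.det = B
  orth : 2 * X 0 0 * Z 0 0 + X 0 1 * Z 1 0 + X 1 0 * Z 0 1 = 0

theorem tw_kf {X0 Z0 X Z : M2} {A B : ℤ} (h0 : Pr X0 Z0 A B) (h : Pr X Z A B) (e : M2) :
    Tw X0 Z0 X Z (Kf X0 Z0 X Z A B e) := by
  constructor
  · have := kf_left X0 Z0 X Z e A B h0.tX h.tX
    rw [h0.dX, h.dX, sub_self, zero_smul, zero_smul, add_zero] at this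
    exact sub_eq_zero.1 this
  · have := kf_right X0 Z0 X Z e A B h0.tX h.tX h0.tZ h.tZ
    rw [h0.dZ, h.dZ, h0.orth, h.orth, sub_self] at this
    simp only [mul_zero, zero_smul, add_zero] at this
    exact sub_eq_zero.1 this

theorem exists_tw {X0 Z0 X Z : M2} {A B : ℤ} (h0 : Pr X0 Z0 A B) (h : Pr X Z A B)
    (hA : A ≠ 0) (hB : B ≠ 0) : ∃ e, e ≠ 0 ∧ Tw X0 Z0 X Z e := by
  by_contra hcon
  push Not at hcon
  have key : ∀ e, Kf X0 Z0 X Z A B e = 0 := by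
    intro e
    by_contra hne
    exact hcon _ hne (tw_kf h0 h e)
  have e1 := congrFun (congrFun (key !![1, 0; 0, 0]) 0) 0
  have e2 := congrFun (congrFun (key !![0, 1; 0, 0]) 0) 1
  have e3 := congrFun (congrFun (key !![0, 0; 1, 0]) 1) 0
  have e4 := congrFun (congrFun (key !![0, 0; 0, 1]) 1) 1
  unfold Kf at e1 e2 e3 e4
  simp only [Matrix.mul_apply, Fin.sum_univ_two, Matrix.sub_apply, Matrix.add_apply,
    Matrix.smul_apply, smul_eq_mul, Matrix.zero_apply, Matrix.of_apply, Matrix.cons_val_zero,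
    Matrix.cons_val_one, Matrix.cons_val', Matrix.cons_val_fin_one, mul_zero, zero_mul, add_zero,
    zero_add, mul_one] at e1 e2 e3 e4
  have hsum : 4 * (A * B) = 0 := by
    have f1 := h0.tX
    have f2 := h0.tZ
    have f3 := h.tX
    have f4 := h.tZ
    have f5 := h0.orth
    have f6 := h.orth
    rw [f1, f2, f3, f4] at e4
    rw [f1, f2] at e3
    rw [f3, f4] at e2
    linear_combination e1 + e2 + e3 + e4 -
      (2 * X0 0 0 * Z0 0 0 + X0 0 1 * Z0 1 0 + X0 1 0 * Z0 0 1) * f6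
  have : A * B = 0 := by linarith
  rcases mul_eq_zero.1 this with h | h
  · exact hA h
  · exact hB h

theorem mv_mul (X Y : M2) (w : ℤ × ℤ) : mv (X * Y) w = mv X (mv Y w) := by
  unfold mv
  simp only [Matrix.mul_apply, Fin.sum_univ_two, Prod.mk.injEq]
  constructor <;> ring

theorem dt_mv (h : M2) (v w : ℤ × ℤ) : dt (mv h v) (mv h w) = h.det * dt v w := by
  rw [Matrix.det_fin_two]
  unfold dt mv
  ring

theorem ker_dt {h : M2} (hh : h ≠ 0) {v w : ℤ × ℤ} (hv : mv h v = (0, 0)) (hw : mv h w = (0, 0)) :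
    dt v w = 0 := by
  unfold mv at hv hw
  rw [Prod.mk.injEq] at hv hw
  by_contra hne
  apply hh
  have h00 : h 0 0 = 0 := by
    have : h 0 0 * dt v w = 0 := by
      unfold dt
      linear_combination w.2 * hv.1 - v.2 * hw.1
    exact (mul_eq_zero.1 this).resolve_right hne
  have h01 : h 0 1 = 0 := by
    have : h 0 1 * dt v w = 0 := by
      unfold dt
      linear_combination (-w.1) * hv.1 + v.1 * hw.1
    exact (mul_eq_zero.1 this).resolve_right hne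
  have h10 : h 1 0 = 0 := by
    have : h 1 0 * dt v w = 0 := by
      unfold dt
      linear_combination w.2 * hv.2 - v.2 * hw.2
    exact (mul_eq_zero.1 this).resolve_right hne
  have h11 : h 1 1 = 0 := by
    have : h 1 1 * dt v w = 0 := by
      unfold dt
      linear_combination (-w.1) * hv.2 + v.1 * hw.2
    exact (mul_eq_zero.1 this).resolve_right hne
  ext i j
  fin_cases i <;> fin_cases j <;> simp [h00, h01, h10, h11]

theorem exists_prim (v : ℤ × ℤ) (hv : v ≠ (0, 0)) : ∃ (c : ℤ) (u : ℤ × ℤ), c ≠ 0 ∧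
    v = (c * u.1, c * u.2) ∧ IsCoprime u.1 u.2 := by
  have hg : 0 < Int.gcd v.1 v.2 := by
    rw [Int.gcd_pos_iff]
    by_contra hcon
    push Not at hcon
    exact hv (Prod.ext hcon.1 hcon.2)
  obtain ⟨a, ha⟩ : (Int.gcd v.1 v.2 : ℤ) ∣ v.1 := Int.gcd_dvd_left _ _
  obtain ⟨b, hb⟩ : (Int.gcd v.1 v.2 : ℤ) ∣ v.2 := Int.gcd_dvd_right _ _
  refine ⟨Int.gcd v.1 v.2, (a, b), by exact_mod_cast hg.ne', Prod.ext ha hb, ?_⟩
  have h1 := Int.gcd_eq_gcd_ab v.1 v.2
  refine ⟨Int.gcdA v.1 v.2, Int.gcdB v.1 v.2, ?_⟩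
  have h2 : (Int.gcd v.1 v.2 : ℤ) ≠ 0 := by exact_mod_cast hg.ne'
  apply mul_left_cancel₀ h2
  have h3 : (Int.gcd v.1 v.2 : ℤ) * (Int.gcdA v.1 v.2 * a + Int.gcdB v.1 v.2 * b) =
    ((Int.gcd v.1 v.2 : ℤ) * a) * Int.gcdA v.1 v.2 +
      ((Int.gcd v.1 v.2 : ℤ) * b) * Int.gcdB v.1 v.2 := by ring
  rw [h3, ← ha, ← hb, ← h1, mul_one]

theorem mv_smul (h : M2) (c : ℤ) (u : ℤ × ℤ) :
    mv h (c * u.1, c * u.2) = (c * (mv h u).1, c * (mv h u).2) := by
  unfold mv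
  simp only [Prod.mk.injEq]
  constructor <;> ring

theorem tw_det {X0 Z0 X Z : M2} {A B : ℤ} (h : Pr X Z A B)
    (hA : A ≠ 0) (hB : B ≠ 0) {e : M2} (he : e ≠ 0) (ht : Tw X0 Z0 X Z e) : e.det ≠ 0 := by
  intro hd
  obtain ⟨v, hv0, hv⟩ : ∃ v : ℤ × ℤ, v ≠ (0, 0) ∧ mv e v = (0, 0) := by
    rw [Matrix.det_fin_two] at hd
    by_cases h1 : e 0 0 = 0 ∧ e 0 1 = 0
    · refine ⟨(-e 1 1, e 1 0), ?_, ?_⟩
      · intro h2
        rw [Prod.mk.injEq] at h2
        apply he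
        ext i j
        fin_cases i <;> fin_cases j
        · exact h1.1
        · exact h1.2
        · exact h2.2
        · exact neg_eq_zero.1 h2.1
      · unfold mv
        simp only [Prod.mk.injEq]
        constructor
        · linear_combination (-1) * hd
        · ring
    · refine ⟨(-e 0 1, e 0 0), ?_, ?_⟩
      · intro h2
        rw [Prod.mk.injEq] at h2
        exact h1 ⟨h2.2, neg_eq_zero.1 h2.1⟩
      · unfold mv
        simp only [Prod.mk.injEq]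
        constructor
        · ring
        · linear_combination hd
  obtain ⟨c, u, hc, rfl, hu⟩ := exists_prim v hv0
  have hu0 : mv e u = (0, 0) := by
    rw [mv_smul, Prod.mk.injEq] at hv
    exact Prod.ext ((mul_eq_zero.1 hv.1).resolve_left hc) ((mul_eq_zero.1 hv.2).resolve_left hc)
  have hz : ∀ Y : M2, mv Y (0, 0) = (0, 0) := by
    intro Y
    unfold mv
    simp
  have hX : dt u (mv X u) = 0 := by
    apply ker_dt he hu0
    rw [← mv_mul, ← ht.1, mv_mul, hu0, hz]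
  have hZ : dt u (mv Z u) = 0 := by
    apply ker_dt he hu0
    rw [← mv_mul, ← ht.2, mv_mul, hu0, hz]
  have := index_dvd (n := 0) hu (X := X) (Z := Z) (by rw [h.tX]; ring) (by rw [h.tZ]; ring)
    (by rw [h.tX, h.tZ]; linear_combination h.orth) (by rw [hX]) (by rw [hZ])
  rw [zero_dvd_iff, h.dX, h.dZ] at this
  rcases mul_eq_zero.1 this with h1 | h1
  · norm_num at h1
  · rcases mul_eq_zero.1 h1 with h2 | h2
    · exact hA h2
    · exact hB h2

/-- a primitive intertwining matrix -/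
theorem exists_prim_tw {X0 Z0 X Z : M2} {A B : ℤ} (h0 : Pr X0 Z0 A B) (h : Pr X Z A B)
    (hA : A ≠ 0) (hB : B ≠ 0) : ∃ e : M2, e.det ≠ 0 ∧ Tw X0 Z0 X Z e ∧
      ∀ ℓ : ℕ, ℓ.Prime → ¬ ∀ i j, (ℓ : ℤ) ∣ e i j := by
  classical
  have hex : ∃ n : ℕ, ∃ e : M2, e ≠ 0 ∧ Tw X0 Z0 X Z e ∧ e.det.natAbs = n := by
    obtain ⟨e, he, ht⟩ := exists_tw h0 h hA hB
    exact ⟨_, e, he, ht, rfl⟩
  obtain ⟨e, he, ht, hn⟩ := Nat.find_spec hex
  refine ⟨e, tw_det h hA hB he ht, ht, ?_⟩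
  intro ℓ hℓ hdiv
  choose f hf using hdiv
  have hef : e = (ℓ : ℤ) • (Matrix.of f : M2) := by
    ext i j
    rw [Matrix.smul_apply, Matrix.of_apply, smul_eq_mul, hf]
  have hℓ0 : (ℓ : ℤ) ≠ 0 := by exact_mod_cast hℓ.ne_zero
  have hf0 : (Matrix.of f : M2) ≠ 0 := by
    intro h1
    rw [h1, smul_zero] at hef
    exact he hef
  have htf : Tw X0 Z0 X Z (Matrix.of f) := by
    constructor
    · have := ht.1
      rw [hef, Matrix.mul_smul, Matrix.smul_mul] at this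
      exact smul_right_injective _ hℓ0 this
    · have := ht.2
      rw [hef, Matrix.mul_smul, Matrix.smul_mul] at this
      exact smul_right_injective _ hℓ0 this
  have hmin := Nat.find_min' hex ⟨Matrix.of f, hf0, htf, rfl⟩
  rw [← hn] at hmin
  have hdet : e.det = (ℓ : ℤ) ^ 2 * (Matrix.of f : M2).det := by
    rw [hef, Matrix.det_smul, Fintype.card_fin]
  rw [hdet, Int.natAbs_mul, Int.natAbs_pow, Int.natAbs_natCast] at hmin
  have hpos : 0 < (Matrix.of f : M2).det.natAbs :=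
    Int.natAbs_pos.2 (tw_det h hA hB hf0 htf)
  have h2 := hℓ.two_le
  have h3 : 2 * 2 ≤ ℓ ^ 2 := by
    rw [pow_two]
    exact Nat.mul_le_mul h2 h2
  have h4 := Nat.mul_le_mul_right (Matrix.of f : M2).det.natAbs h3
  omega

/-- a primitive vector in the image of a primitive matrix -/
theorem exists_vec {e : M2} (he : e.det ≠ 0) (hp : ∀ ℓ : ℕ, ℓ.Prime → ¬ ∀ i j, (ℓ : ℤ) ∣ e i j) :
    ∃ y : ℤ × ℤ, IsCoprime (mv e y).1 (mv e y).2 := by
  classical
  set S : Finset ℕ := e.det.natAbs.primeFactors.filter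
    fun ℓ : ℕ => ¬ ((ℓ : ℤ) ∣ e 0 0 ∧ (ℓ : ℤ) ∣ e 1 0) with hS
  set t : ℕ := ∏ ℓ ∈ S, ℓ with ht
  refine ⟨(1, t), ?_⟩
  rw [Int.isCoprime_iff_gcd_eq_one]
  by_contra hg
  obtain ⟨ℓ, hℓ, hdiv⟩ := Nat.exists_prime_and_dvd hg
  have h1 : (ℓ : ℤ) ∣ (mv e (1, (t : ℤ))).1 :=
    (Int.natCast_dvd_natCast.2 hdiv).trans (Int.gcd_dvd_left _ _)
  have h2 : (ℓ : ℤ) ∣ (mv e (1, (t : ℤ))).2 :=
    (Int.natCast_dvd_natCast.2 hdiv).trans (Int.gcd_dvd_right _ _)
  unfold mv at h1 h2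
  simp only [mul_one] at h1 h2
  have h3 : (ℓ : ℤ) ∣ e.det := by
    rw [Matrix.det_fin_two]
    have := dvd_sub (h1.mul_left (e 1 1)) (h2.mul_left (e 0 1))
    refine this.trans (dvd_of_eq ?_)
    ring
  have h4 : ℓ ∈ e.det.natAbs.primeFactors := by
    rw [Nat.mem_primeFactors]
    exact ⟨hℓ, Int.natCast_dvd.1 h3, Int.natAbs_ne_zero.2 he⟩
  have hpr : Prime (ℓ : ℤ) := Nat.prime_iff_prime_int.1 hℓ
  by_cases h5 : (ℓ : ℤ) ∣ e 0 0 ∧ (ℓ : ℤ) ∣ e 1 0
  · have h6 : ¬ (ℓ : ℤ) ∣ t := by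
      intro h7
      rw [Int.natCast_dvd_natCast, ht, Prime.dvd_finsetProd_iff (Nat.prime_iff.1 hℓ)] at h7
      obtain ⟨q, hq, hqd⟩ := h7
      rw [hS, Finset.mem_filter, Nat.mem_primeFactors] at hq
      have : ℓ = q := (Nat.prime_dvd_prime_iff_eq hℓ hq.1.1).1 hqd
      rw [← this] at hq
      exact hq.2 h5
    have h7 : (ℓ : ℤ) ∣ e 0 1 * t := (dvd_add_right h5.1).1 h1
    have h8 : (ℓ : ℤ) ∣ e 1 1 * t := (dvd_add_right h5.2).1 h2
    apply hp ℓ hℓ
    intro i j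
    fin_cases i <;> fin_cases j
    · exact h5.1
    · exact (hpr.dvd_or_dvd h7).resolve_right h6
    · exact h5.2
    · exact (hpr.dvd_or_dvd h8).resolve_right h6
  · have h6 : (ℓ : ℤ) ∣ t := by
      rw [Int.natCast_dvd_natCast, ht]
      apply Finset.dvd_prod_of_mem
      rw [hS, Finset.mem_filter]
      exact ⟨h4, h5⟩
    apply h5
    exact ⟨(dvd_add_left (h6.mul_left _)).1 h1, (dvd_add_left (h6.mul_left _)).1 h2⟩

end Pool.Agent.P8H29.SE
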