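import Mathlib
import Pool.Agent.P8H29.SE.Inter

/-! # Lattices of the same index that share a primitive vector; a covering bound -/

set_option autoImplicit false

namespace Pool.Agent.P8H29.SE

open Matrix

theorem mv_add (h : M2) (u v : ℤ × ℤ) : mv h (u.1 + v.1, u.2 + v.2) =
    ((mv h u).1 + (mv h v).1, (mv h u).2 + (mv h v).2) := by
  unfold mv
  simp only [Prod.mk.injEq]
  constructor <;> ring

theorem mv_adj (h : M2) (u : ℤ × ℤ) : mv h (mv h.adjugate u) = (h.det * u.1, h.det * u.2) := by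
  rw [Matrix.adjugate_fin_two, Matrix.det_fin_two]
  unfold mv
  simp only [Matrix.of_apply, Matrix.cons_val_zero, Matrix.cons_val_one, Matrix.cons_val',
    Matrix.cons_val_fin_one, Prod.mk.injEq]
  constructor <;> ring

/-- a lattice with a primitive vector `w` consists of all `v` with `index ∣ dt w v` -/
theorem mem_lat {h : M2} {w y : ℤ × ℤ} (hw : IsCoprime w.1 w.2) (hy : w = mv h y)
    (v : ℤ × ℤ) (hv : h.det ∣ dt w v) : ∃ u, v = mv h u := by
  obtain ⟨a, b, hab⟩ := hw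
  obtain ⟨t, ht⟩ := hv
  have e1 : v.1 = (a * v.1 + b * v.2) * w.1 - dt w v * b := by
    unfold dt
    linear_combination (-v.1) * hab
  have e2 : v.2 = (a * v.1 + b * v.2) * w.2 + dt w v * a := by
    unfold dt
    linear_combination (-v.2) * hab
  refine ⟨((a * v.1 + b * v.2) * y.1 + t * (mv h.adjugate (-b, a)).1,
    (a * v.1 + b * v.2) * y.2 + t * (mv h.adjugate (-b, a)).2), ?_⟩
  have e3 := mv_add h ((a * v.1 + b * v.2) * y.1, (a * v.1 + b * v.2) * y.2)
    (t * (mv h.adjugate (-b, a)).1, t * (mv h.adjugate (-b, a)).2)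
  simp only at e3
  rw [e3, mv_smul, mv_smul, mv_adj, ← hy]
  apply Prod.ext
  · simp only
    rw [ht] at e1
    linear_combination e1
  · simp only
    rw [ht] at e2
    linear_combination e2

theorem dt_trans {n : ℤ} {w1 w2 : ℤ × ℤ} (hw : IsCoprime w2.1 w2.2) (h : n ∣ dt w1 w2)
    (v : ℤ × ℤ) (hv : n ∣ dt w2 v) : n ∣ dt w1 v := by
  obtain ⟨a, b, hab⟩ := hw
  have e : dt w1 v = (a * w1.1 + b * w1.2) * dt w2 v +
      dt w1 w2 * (a * v.1 + b * v.2) := by
    unfold dt
    linear_combination (-(w1.1 * v.2 - w1.2 * v.1)) * hab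
  rw [e]
  exact dvd_add (hv.mul_left _) (h.mul_right _)

/-- **two matrices of the same index whose lattices share a primitive class** -/
theorem uni {h1 h2 : M2} (hd : h1.det.natAbs = h2.det.natAbs) (h0 : h1.det ≠ 0)
    {y1 y2 : ℤ × ℤ} (hc1 : IsCoprime (mv h1 y1).1 (mv h1 y1).2)
    (hc2 : IsCoprime (mv h2 y2).1 (mv h2 y2).2) (hdiv : h1.det ∣ dt (mv h1 y1) (mv h2 y2)) :
    ∃ k : M2, IsU k ∧ h2 = h1 * k := by
  have hdd : h1.det ∣ h2.det := Int.natAbs_dvd_natAbs.1 (by rw [hd])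
  have key : ∀ v : ℤ × ℤ, ∃ u, mv h2 v = mv h1 u := by
    intro v
    apply mem_lat hc1 rfl
    apply dt_trans hc2 hdiv
    rw [dt_mv]
    exact hdd.mul_right _
  obtain ⟨u, hu⟩ := key (1, 0)
  obtain ⟨v, hv⟩ := key (0, 1)
  have hk : h2 = h1 * !![u.1, v.1; u.2, v.2] := by
    unfold mv at hu hv
    simp only [mul_one, mul_zero, add_zero, zero_add, Prod.mk.injEq] at hu hv
    ext i j
    rw [Matrix.mul_apply, Fin.sum_univ_two]
    fin_cases i <;> fin_cases j
    · exact hu.1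
    · exact hv.1
    · exact hu.2
    · exact hv.2
  refine ⟨_, ?_, hk⟩
  have h3 : h2.det = h1.det * (!![u.1, v.1; u.2, v.2] : M2).det := by
    conv_lhs => rw [hk, Matrix.det_mul]
  have h4 : h1.det.natAbs * (!![u.1, v.1; u.2, v.2] : M2).det.natAbs = h1.det.natAbs * 1 := by
    rw [← Int.natAbs_mul, ← h3, hd, mul_one]
  have h5 := Nat.eq_of_mul_eq_mul_left (Int.natAbs_pos.2 h0) h4
  unfold IsU
  omega

/-- a covering bound -/
theorem cov {α : Type*} (S : Finset α) (r : α → α → Prop) [DecidableRel r]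
    (hr : ∀ x, r x x) (hs : ∀ x y, r x y → r y x) (A B : ℝ) (hB0 : 0 ≤ B)
    (hA : ∀ W ⊆ S, (∀ x ∈ W, ∀ y ∈ W, r x y → x = y) → (W.card : ℝ) ≤ A)
    (hB : ∀ x ∈ S, ((S.filter (r x)).card : ℝ) ≤ B) : (S.card : ℝ) ≤ A * B := by
  classical
  obtain ⟨T, hT⟩ : ∃ T : Finset (Finset α), ∀ W, W ∈ T ↔ W ⊆ S ∧
      ∀ x ∈ W, ∀ y ∈ W, r x y → x = y :=
    ⟨S.powerset.filter fun W => ∀ x ∈ W, ∀ y ∈ W, r x y → x = y, fun W => by
      rw [Finset.mem_filter, Finset.mem_powerset]⟩
  have hne : T.Nonempty := ⟨∅, by rw [hT]; simp⟩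
  obtain ⟨W, hW, hmax⟩ := Finset.exists_max_image _ Finset.card hne
  rw [hT] at hW
  have hcover : S ⊆ W.biUnion fun x => S.filter (r x) := by
    intro y hy
    rw [Finset.mem_biUnion]
    by_contra hcon
    push Not at hcon
    have hcon' : ∀ x ∈ W, ¬ r x y := by
      intro x hx hxy
      exact hcon x hx (Finset.mem_filter.2 ⟨hy, hxy⟩)
    have hyW : y ∉ W := fun h => hcon' y h (hr y)
    have h1 : insert y W ∈ T := by
      rw [hT]
      refine ⟨Finset.insert_subset hy hW.1, ?_⟩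
      intro x hx z hz hxz
      rw [Finset.mem_insert] at hx hz
      rcases hx with rfl | hx <;> rcases hz with rfl | hz
      · rfl
      · exact absurd (hs _ _ hxz) (hcon' z hz)
      · exact absurd hxz (hcon' x hx)
      · exact hW.2 x hx z hz hxz
    have h2 := hmax _ h1
    rw [Finset.card_insert_of_notMem hyW] at h2
    omega
  have h1 : (S.card : ℝ) ≤ ∑ x ∈ W, ((S.filter (r x)).card : ℝ) := by
    have h2 := (Finset.card_le_card hcover).trans Finset.card_biUnion_le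
    exact_mod_cast h2
  have h2 : ∑ x ∈ W, ((S.filter (r x)).card : ℝ) ≤ ∑ _x ∈ W, B :=
    Finset.sum_le_sum fun x hx => hB x (hW.1 hx)
  rw [Finset.sum_const, nsmul_eq_mul] at h2
  have h3 := mul_le_mul_of_nonneg_right (hA W hW.1 hW.2) hB0
  linarith

end Pool.Agent.P8H29.SE
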