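import Mathlib
import Pool.Agent.P8H29.SE.Uni

/-! # Orthogonal triples of matrices: left and right classes -/

set_option autoImplicit false

namespace Pool.Agent.P8H29.SE

open Matrix

/-- triples of integral matrices -/
abbrev T3 := M2 × M2 × M2

/-- pairwise orthogonal, of given determinants -/
structure Tr (p q r : ℤ) (t : T3) : Prop where
  bPQ : bil t.1 t.2.1 = 0
  bPR : bil t.1 t.2.2 = 0
  bQR : bil t.2.1 t.2.2 = 0
  dP : t.1.det = p
  dQ : t.2.1.det = q
  dR : t.2.2.det = r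

def tX (t : T3) : M2 := t.1.adjugate * t.2.1
def tZ (t : T3) : M2 := t.1.adjugate * t.2.2
def tY (t : T3) : M2 := t.2.1.adjugate * t.2.2

theorem adj_add (A B : M2) : A.adjugate * B + B.adjugate * A = bil A B • (1 : M2) := by
  rw [Matrix.adjugate_fin_two, Matrix.adjugate_fin_two]
  unfold bil
  ext i j
  rw [Matrix.add_apply, Matrix.smul_apply, Matrix.mul_apply, Matrix.mul_apply,
    Fin.sum_univ_two, Fin.sum_univ_two]
  fin_cases i <;> fin_cases j <;> simp <;> ring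

theorem adj_swap {A B : M2} (h : bil A B = 0) : A.adjugate * B = -(B.adjugate * A) := by
  have := adj_add A B
  rw [h, zero_smul] at this
  exact eq_neg_of_add_eq_zero_left this

theorem adj_tr (A B : M2) : (A.adjugate * B) 0 0 + (A.adjugate * B) 1 1 = bil A B := by
  rw [Matrix.adjugate_fin_two]
  unfold bil
  rw [Matrix.mul_apply, Matrix.mul_apply, Fin.sum_univ_two, Fin.sum_univ_two]
  simp
  ring

theorem adj_det (A B : M2) : (A.adjugate * B).det = A.det * B.det := by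
  rw [Matrix.det_mul, Matrix.det_adjugate]
  simp

theorem tXZ {p q r : ℤ} {t : T3} (h : Tr p q r t) : tX t * tZ t = -(p • tY t) := by
  unfold tX tZ tY
  rw [adj_swap h.bPQ, Matrix.neg_mul, Matrix.mul_assoc, ← Matrix.mul_assoc t.1,
    Matrix.mul_adjugate, h.dP, Matrix.smul_mul, Matrix.one_mul, Matrix.mul_smul]

theorem pr_of_tr {p q r : ℤ} {t : T3} (h : Tr p q r t) :
    Pr (tX t) (tZ t) (p * q) (p * r) where
  tX := by
    have := adj_tr t.1 t.2.1
    rw [h.bPQ] at this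
    unfold tX
    linarith
  tZ := by
    have := adj_tr t.1 t.2.2
    rw [h.bPR] at this
    unfold tZ
    linarith
  dX := by
    unfold tX
    rw [adj_det, h.dP, h.dQ]
  dZ := by
    unfold tZ
    rw [adj_det, h.dP, h.dR]
  orth := by
    have h1 := tXZ h
    have h2 := congrFun (congrFun h1 0) 0
    have h3 := congrFun (congrFun h1 1) 1
    rw [Matrix.mul_apply, Fin.sum_univ_two, Matrix.neg_apply, Matrix.smul_apply,
      smul_eq_mul] at h2 h3
    have h4 := adj_tr t.2.1 t.2.2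
    rw [h.bQR] at h4
    have h5 : tX t 1 1 = -tX t 0 0 := by
      have := adj_tr t.1 t.2.1
      rw [h.bPQ] at this
      unfold tX
      linarith
    have h6 : tZ t 1 1 = -tZ t 0 0 := by
      have := adj_tr t.1 t.2.2
      rw [h.bPR] at this
      unfold tZ
      linarith
    rw [h5, h6] at h3
    unfold tY at h2 h3
    linear_combination h2 + h3 + (-p) * h4

theorem isU_inv {k : M2} (hk : IsU k) : ∃ k' : M2, IsU k' ∧ k * k' = 1 ∧ k' * k = 1 := by
  rcases hk with h | h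
  · refine ⟨k.adjugate, ?_, ?_, ?_⟩
    · left
      rw [Matrix.det_adjugate, h]
      simp
    · rw [Matrix.mul_adjugate, h, one_smul]
    · rw [Matrix.adjugate_mul, h, one_smul]
  · refine ⟨-k.adjugate, ?_, ?_, ?_⟩
    · right
      rw [Matrix.det_neg, Matrix.det_adjugate, h]
      simp
    · rw [Matrix.mul_neg, Matrix.mul_adjugate, h]
      simp
    · rw [Matrix.neg_mul, Matrix.adjugate_mul, h]
      simp

theorem isU_mul {k l : M2} (hk : IsU k) (hl : IsU l) : IsU (k * l) := by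
  unfold IsU at *
  rw [Matrix.det_mul]
  rcases hk with h | h <;> rcases hl with h' | h' <;> rw [h, h'] <;> norm_num

/-- the relation of two triples under the two-sided action -/
def Rel (t t' : T3) : Prop := ∃ γ κ : M2, IsU γ ∧ IsU κ ∧ t'.1 = γ * t.1 * κ ∧
  t'.2.1 = γ * t.2.1 * κ ∧ t'.2.2 = γ * t.2.2 * κ

theorem Rel.refl (t : T3) : Rel t t :=
  ⟨1, 1, Or.inl Matrix.det_one, Or.inl Matrix.det_one, by simp, by simp, by simp⟩

theorem Rel.symm {t t' : T3} (h : Rel t t') : Rel t' t := by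
  obtain ⟨γ, κ, hγ, hκ, h1, h2, h3⟩ := h
  obtain ⟨γ', hγ', e1, e2⟩ := isU_inv hγ
  obtain ⟨κ', hκ', e3, e4⟩ := isU_inv hκ
  have key : ∀ M : M2, M = γ' * (γ * M * κ) * κ' := by
    intro M
    rw [← Matrix.mul_assoc, ← Matrix.mul_assoc, e2, Matrix.one_mul, Matrix.mul_assoc, e3,
      Matrix.mul_one]
  refine ⟨γ', κ', hγ', hκ', ?_, ?_, ?_⟩
  · rw [h1]; exact key _
  · rw [h2]; exact key _
  · rw [h3]; exact key _

/-- `A / 4` carries the first triple to the second -/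
def Lk (t1 t2 : T3) (A : M2) : Prop := ∃ k : M2, IsU k ∧ A * t1.1 = (4 : ℤ) • (t2.1 * k) ∧
  A * t1.2.1 = (4 : ℤ) • (t2.2.1 * k) ∧ A * t1.2.2 = (4 : ℤ) • (t2.2.2 * k) ∧
  A.det.natAbs = 16

theorem lk_of_tw {p q r : ℤ} (hp : p ≠ 0) (hsum : p + q + r = 4) {t1 t2 : T3}
    (h1 : Tr p q r t1) (h2 : Tr p q r t2) {k : M2} (hk : IsU k)
    (hX : tX t1 * k = k * tX t2) (hZ : tZ t1 * k = k * tZ t2) : ∃ A, Lk t1 t2 A := by
  obtain ⟨k', hk', e1, e2⟩ := isU_inv hk
  have inv : ∀ {U V : M2}, U * k = k * V → k' * U = V * k' := by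
    intro U V h
    calc k' * U = k' * U * (k * k') := by rw [e1, Matrix.mul_one]
      _ = k' * (U * k) * k' := by simp only [Matrix.mul_assoc]
      _ = (k' * k) * V * k' := by rw [h]; simp only [Matrix.mul_assoc]
      _ = V * k' := by rw [e2, Matrix.one_mul]
  have cX := inv hX
  have cZ := inv hZ
  have hY : tY t1 * k = k * tY t2 := by
    have h3 : tX t1 * tZ t1 * k = k * (tX t2 * tZ t2) := by
      rw [Matrix.mul_assoc, hZ, ← Matrix.mul_assoc, hX, Matrix.mul_assoc]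
    rw [tXZ h1, tXZ h2, Matrix.neg_mul, Matrix.mul_neg, Matrix.smul_mul, Matrix.mul_smul] at h3
    exact smul_right_injective _ hp (neg_injective h3)
  have cY := inv hY
  obtain ⟨P1, Q1, R1⟩ := t1
  obtain ⟨P2, Q2, R2⟩ := t2
  have hpP1 : P1.adjugate * P1 = p • (1 : M2) := by rw [Matrix.adjugate_mul, ← h1.dP]
  have hqQ1 : Q1.adjugate * Q1 = q • (1 : M2) := by rw [Matrix.adjugate_mul, ← h1.dQ]
  have hrR1 : R1.adjugate * R1 = r • (1 : M2) := by rw [Matrix.adjugate_mul, ← h1.dR]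
  have hpP2 : P2 * P2.adjugate = p • (1 : M2) := by rw [Matrix.mul_adjugate, ← h2.dP]
  have hqQ2 : Q2 * Q2.adjugate = q • (1 : M2) := by rw [Matrix.mul_adjugate, ← h2.dQ]
  have hrR2 : R2 * R2.adjugate = r • (1 : M2) := by rw [Matrix.mul_adjugate, ← h2.dR]
  have sPQ1 : Q1.adjugate * P1 = -(P1.adjugate * Q1) := by
    rw [adj_swap h1.bPQ, neg_neg]
  have sPR1 : R1.adjugate * P1 = -(P1.adjugate * R1) := by
    rw [adj_swap h1.bPR, neg_neg]
  have sQR1 : R1.adjugate * Q1 = -(Q1.adjugate * R1) := by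
    rw [adj_swap h1.bQR, neg_neg]
  have sPQ2 : P2.adjugate * Q2 = -(Q2.adjugate * P2) := adj_swap h2.bPQ
  have sPR2 : P2.adjugate * R2 = -(R2.adjugate * P2) := adj_swap h2.bPR
  have sQR2 : Q2.adjugate * R2 = -(R2.adjugate * Q2) := adj_swap h2.bQR
  simp only [tX, tY, tZ] at cX cY cZ
  have hA1 : (P2 * k' * P1.adjugate + Q2 * k' * Q1.adjugate + R2 * k' * R1.adjugate) * P1 =
      (4 : ℤ) • (P2 * k') := by
    have f1 : Q2 * (k' * (P1.adjugate * Q1)) = -(q • (P2 * k')) := by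
      rw [cX, sPQ2, Matrix.neg_mul, Matrix.mul_neg, ← Matrix.mul_assoc, ← Matrix.mul_assoc, hqQ2,
        Matrix.smul_mul, Matrix.one_mul, Matrix.smul_mul]
    have f2 : R2 * (k' * (P1.adjugate * R1)) = -(r • (P2 * k')) := by
      rw [cZ, sPR2, Matrix.neg_mul, Matrix.mul_neg, ← Matrix.mul_assoc, ← Matrix.mul_assoc, hrR2,
        Matrix.smul_mul, Matrix.one_mul, Matrix.smul_mul]
    rw [Matrix.add_mul, Matrix.add_mul, Matrix.mul_assoc (P2 * k'), hpP1,
      Matrix.mul_assoc (Q2 * k'), sPQ1, Matrix.mul_assoc (R2 * k'), sPR1, Matrix.mul_neg,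
      Matrix.mul_neg, Matrix.mul_assoc Q2, f1, Matrix.mul_assoc R2, f2, Matrix.mul_smul,
      Matrix.mul_one, neg_neg, neg_neg, ← add_smul, ← add_smul, hsum]
  have hA2 : (P2 * k' * P1.adjugate + Q2 * k' * Q1.adjugate + R2 * k' * R1.adjugate) * Q1 =
      (4 : ℤ) • (Q2 * k') := by
    have f1 : P2 * (k' * (P1.adjugate * Q1)) = p • (Q2 * k') := by
      rw [cX, ← Matrix.mul_assoc, ← Matrix.mul_assoc, hpP2,
        Matrix.smul_mul, Matrix.one_mul, Matrix.smul_mul]
    have f2 : R2 * (k' * (Q1.adjugate * R1)) = -(r • (Q2 * k')) := by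
      rw [cY, sQR2, Matrix.neg_mul, Matrix.mul_neg, ← Matrix.mul_assoc, ← Matrix.mul_assoc, hrR2,
        Matrix.smul_mul, Matrix.one_mul, Matrix.smul_mul]
    rw [Matrix.add_mul, Matrix.add_mul, Matrix.mul_assoc (Q2 * k'), hqQ1,
      Matrix.mul_assoc (P2 * k'), Matrix.mul_assoc (R2 * k'), sQR1, Matrix.mul_neg,
      Matrix.mul_assoc P2, f1, Matrix.mul_assoc R2, f2, Matrix.mul_smul,
      Matrix.mul_one, neg_neg, ← add_smul, ← add_smul, hsum]
  have hA3 : (P2 * k' * P1.adjugate + Q2 * k' * Q1.adjugate + R2 * k' * R1.adjugate) * R1 =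
      (4 : ℤ) • (R2 * k') := by
    have f1 : P2 * (k' * (P1.adjugate * R1)) = p • (R2 * k') := by
      rw [cZ, ← Matrix.mul_assoc, ← Matrix.mul_assoc, hpP2,
        Matrix.smul_mul, Matrix.one_mul, Matrix.smul_mul]
    have f2 : Q2 * (k' * (Q1.adjugate * R1)) = q • (R2 * k') := by
      rw [cY, ← Matrix.mul_assoc, ← Matrix.mul_assoc, hqQ2,
        Matrix.smul_mul, Matrix.one_mul, Matrix.smul_mul]
    rw [Matrix.add_mul, Matrix.add_mul, Matrix.mul_assoc (R2 * k'), hrR1,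
      Matrix.mul_assoc (P2 * k'), Matrix.mul_assoc (Q2 * k'),
      Matrix.mul_assoc P2, f1, Matrix.mul_assoc Q2, f2, Matrix.mul_smul,
      Matrix.mul_one, ← add_smul, ← add_smul, hsum]
  refine ⟨_, k', hk', hA1, hA2, hA3, ?_⟩
  have hd := congrArg Matrix.det hA1
  rw [Matrix.det_mul, Matrix.det_smul, Matrix.det_mul, Fintype.card_fin] at hd
  have d1 : P1.det = p := h1.dP
  have d2 : P2.det = p := h2.dP
  rw [d1, d2] at hd
  rcases hk' with h | h
  · rw [h] at hd
    have := mul_right_cancel₀ hp (hd.trans (show (4 : ℤ) ^ 2 * (p * 1) = 16 * p by ring))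
    rw [this]
    rfl
  · rw [h] at hd
    have := mul_right_cancel₀ hp (hd.trans (show (4 : ℤ) ^ 2 * (p * -1) = (-16) * p by ring))
    rw [this]
    rfl

theorem fin16 {t1 t2 t3 : T3} {A2 A3 : M2} (h2 : Lk t1 t2 A2) (h3 : Lk t1 t3 A3)
    (hc : ∀ i j, (16 : ℤ) ∣ A3 i j - A2 i j) : Rel t2 t3 := by
  obtain ⟨k2, hk2, a2, b2, c2, d2⟩ := h2
  obtain ⟨k3, hk3, a3, b3, c3, d3⟩ := h3
  obtain ⟨k3', hk3', e1, e2⟩ := isU_inv hk3
  choose D hD using hc
  have hA : A3 = A2 + (16 : ℤ) • (Matrix.of D : M2) := by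
    ext i j
    rw [Matrix.add_apply, Matrix.smul_apply, Matrix.of_apply, smul_eq_mul, ← hD]
    ring
  obtain ⟨s, hs, hs2⟩ : ∃ s : ℤ, A2.det = 16 * s ∧ s * s = 1 := by
    have : A2.det = 16 ∨ A2.det = -16 := by omega
    rcases this with h | h
    · exact ⟨1, by rw [h]; norm_num, by norm_num⟩
    · exact ⟨-1, by rw [h]; norm_num, by norm_num⟩
  obtain ⟨L, hL⟩ : ∃ L : M2, L = 1 + s • ((Matrix.of D : M2) * A2.adjugate) := ⟨_, rfl⟩
  have hLA : L * A2 = A3 := by
    rw [hL, hA, Matrix.add_mul, Matrix.one_mul, Matrix.smul_mul, Matrix.mul_assoc,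
      Matrix.adjugate_mul, hs, Matrix.mul_smul, Matrix.mul_one, smul_smul]
    congr 2
    linear_combination 16 * hs2
  have hLd : L.det.natAbs = 1 := by
    have h := congrArg (fun M : M2 => M.det.natAbs) hLA
    simp only [Matrix.det_mul, Int.natAbs_mul, d2, d3] at h
    omega
  have hLU : IsU L := by
    unfold IsU
    omega
  have key : ∀ {U V W : M2}, A2 * U = (4 : ℤ) • (V * k2) → A3 * U = (4 : ℤ) • (W * k3) →
      W = L * V * (k2 * k3') := by
    intro U V W h4 h5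
    rw [← hLA, Matrix.mul_assoc, h4, Matrix.mul_smul] at h5
    have h6 := smul_right_injective _ (show (4 : ℤ) ≠ 0 by norm_num) h5
    calc W = W * k3 * k3' := by rw [Matrix.mul_assoc, e1, Matrix.mul_one]
      _ = L * V * (k2 * k3') := by rw [← h6]; simp only [Matrix.mul_assoc]
  exact ⟨L, k2 * k3', hLU, isU_mul hk2 hk3', key a2 a3, key b2 b3, key c2 c3⟩

end Pool.Agent.P8H29.SE
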