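import Mathlib
import Pool.Agent.P8H29.SE.Tri

/-! # The number of classes of orthogonal triples -/

set_option autoImplicit false

namespace Pool.Agent.P8H29.SE

open Matrix

theorem det_dvd_dt {X0 X h : M2} (hx : X0 * h = h * X) (y : ℤ × ℤ) :
    h.det ∣ dt (mv h y) (mv X0 (mv h y)) := by
  rw [← mv_mul, hx, mv_mul, dt_mv]
  exact Dvd.intro _ rfl

theorem mul_cancel {h U V : M2} (hh : h.det ≠ 0) (e : h * U = h * V) : U = V := by
  have h1 : h.adjugate * (h * U) = h.adjugate * (h * V) := by rw [e]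
  rw [← Matrix.mul_assoc, ← Matrix.mul_assoc, Matrix.adjugate_mul, Matrix.smul_mul,
    Matrix.smul_mul, Matrix.one_mul, Matrix.one_mul] at h1
  exact smul_right_injective _ hh h1

theorem tw_Y {p q r : ℤ} (hp : p ≠ 0) {t1 t2 : T3} (h1 : Tr p q r t1) (h2 : Tr p q r t2) {h : M2}
    (ht : Tw (tX t1) (tZ t1) (tX t2) (tZ t2) h) : tY t1 * h = h * tY t2 := by
  have h3 : tX t1 * tZ t1 * h = h * (tX t2 * tZ t2) := by
    rw [Matrix.mul_assoc, ht.2, ← Matrix.mul_assoc, ht.1, Matrix.mul_assoc]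
  rw [tXZ h1, tXZ h2, Matrix.neg_mul, Matrix.mul_neg, Matrix.smul_mul, Matrix.mul_smul] at h3
  exact smul_right_injective _ hp (neg_injective h3)

theorem ball_le {p q r : ℤ} (hp : p ≠ 0) (hsum : p + q + r = 4)
    (t0 t1 : T3) (hT1 : Tr p q r t1) (h1 : M2) (y1 : ℤ × ℤ)
    (hd1 : h1.det ≠ 0) (htw1 : Tw (tX t0) (tZ t0) (tX t1) (tZ t1) h1)
    (hc1 : IsCoprime (mv h1 y1).1 (mv h1 y1).2)
    (S : Finset T3) (hT : ∀ t ∈ S, Tr p q r t) (hsep : ∀ t ∈ S, ∀ t' ∈ S, Rel t t' → t = t')
    (hS : ∀ t ∈ S, ∃ (h : M2) (y : ℤ × ℤ), Tw (tX t0) (tZ t0) (tX t) (tZ t) h ∧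
      IsCoprime (mv h y).1 (mv h y).2 ∧ h1.det.natAbs = h.det.natAbs ∧
      h1.det ∣ dt (mv h1 y1) (mv h y)) : S.card ≤ 65536 := by
  classical
  have key : ∀ t ∈ S, ∃ A, Lk t1 t A := by
    intro t ht
    obtain ⟨h, y, htw, hc, hdd, hdiv⟩ := hS t ht
    obtain ⟨k, hk, hkk⟩ := uni hdd hd1 hc1 hc hdiv
    apply lk_of_tw hp hsum hT1 (hT t ht) hk
    · apply mul_cancel hd1
      calc h1 * (tX t1 * k) = (h1 * tX t1) * k := (Matrix.mul_assoc _ _ _).symm
        _ = tX t0 * (h1 * k) := by rw [← htw1.1, Matrix.mul_assoc]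
        _ = h * tX t := by rw [← hkk, htw.1]
        _ = h1 * (k * tX t) := by rw [hkk, Matrix.mul_assoc]
    · apply mul_cancel hd1
      calc h1 * (tZ t1 * k) = (h1 * tZ t1) * k := (Matrix.mul_assoc _ _ _).symm
        _ = tZ t0 * (h1 * k) := by rw [← htw1.2, Matrix.mul_assoc]
        _ = h * tZ t := by rw [← hkk, htw.2]
        _ = h1 * (k * tZ t) := by rw [hkk, Matrix.mul_assoc]
  choose! A hA using key
  have hinj : Set.InjOn (fun t => fun (i j : Fin 2) => ((A t i j : ℤ) : ZMod 16))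
      (S : Set T3) := by
    intro t ht t' ht' h
    rw [Finset.mem_coe] at ht ht'
    apply hsep t ht t' ht'
    apply fin16 (hA t ht) (hA t' ht')
    intro i j
    have h1 := congrFun (congrFun h i) j
    simp only at h1
    exact (ZMod.intCast_eq_intCast_iff_dvd_sub _ _ 16).1 h1
  have hcard := Finset.card_le_card_of_injOn (t := Finset.univ) _
    (fun _ _ => Finset.mem_coe.2 (Finset.mem_univ _)) hinj
  have hu : (Finset.univ : Finset (Fin 2 → Fin 2 → ZMod 16)).card = 65536 := by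
    rw [Finset.card_univ, Fintype.card_fun, Fintype.card_fun, ZMod.card, Fintype.card_fin]
    norm_num
  rwa [hu] at hcard

theorem cls {p q r : ℤ} (hp : p ≠ 0) (hq : q ≠ 0) (hr : r ≠ 0) (hsum : p + q + r = 4) (g : ℕ)
    (hg : ∀ s : ℕ, (s : ℤ) ^ 2 ∣ 4 * (p * q) → (s : ℤ) ^ 2 ∣ 4 * (p * r) →
      (s : ℤ) ^ 2 ∣ 4 * (q * r) → s ≤ g)
    (T : Finset T3) (hT : ∀ t ∈ T, Tr p q r t) (hsep : ∀ t ∈ T, ∀ t' ∈ T, Rel t t' → t = t')
    (D : ℕ) (hD : D = (4 * (p * q * (p * r))).natAbs.divisors.card) :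
    (T.card : ℝ) ≤ D * (D * g * 65536) := by
  classical
  rcases T.eq_empty_or_nonempty with rfl | ⟨t0, ht0⟩
  · rw [Finset.card_empty]
    push_cast
    positivity
  have hTr0 := hT t0 ht0
  have hpq : p * q ≠ 0 := mul_ne_zero hp hq
  have hpr : p * r ≠ 0 := mul_ne_zero hp hr
  have hex : ∀ t ∈ T, ∃ (h : M2) (y : ℤ × ℤ), h.det ≠ 0 ∧
      Tw (tX t0) (tZ t0) (tX t) (tZ t) h ∧ IsCoprime (mv h y).1 (mv h y).2 := by
    intro t ht
    obtain ⟨h, h1, h2, h3⟩ := exists_prim_tw (pr_of_tr hTr0) (pr_of_tr (hT t ht)) hpq hpr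
    obtain ⟨y, hy⟩ := exists_vec h1 h3
    exact ⟨h, y, h1, h2, hy⟩
  choose! h y hdet htw hcop using hex
  obtain ⟨Nn, hNn⟩ : ∃ Nn, Nn = (4 * (p * q * (p * r))).natAbs := ⟨_, rfl⟩
  have hNn0 : Nn ≠ 0 := by
    rw [hNn, Int.natAbs_ne_zero]
    exact mul_ne_zero (by norm_num) (mul_ne_zero hpq hpr)
  have hmem : ∀ t ∈ T, (h t).det.natAbs ∈ Nn.divisors := by
    intro t ht
    rw [Nat.mem_divisors]
    refine ⟨?_, hNn0⟩
    rw [hNn, Int.natAbs_dvd_natAbs]
    have hP0 := pr_of_tr hTr0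
    have h1 := index_dvd (hcop t ht) (X := tX t0) (Z := tZ t0)
      (by rw [hP0.tX]; ring) (by rw [hP0.tZ]; ring)
      (by rw [hP0.tX, hP0.tZ]; linear_combination hP0.orth)
      (det_dvd_dt (htw t ht).1 (y t)) (det_dvd_dt (htw t ht).2 (y t))
    rwa [hP0.dX, hP0.dZ] at h1
  have hcard : T.card = ∑ m ∈ Nn.divisors, (T.filter fun t => (h t).det.natAbs = m).card :=
    Finset.card_eq_sum_card_fiberwise hmem
  have hfib : ∀ m ∈ Nn.divisors,
      ((T.filter fun t => (h t).det.natAbs = m).card : ℝ) ≤ D * g * 65536 := by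
    intro m hm
    have hmd := hm
    rw [Nat.mem_divisors] at hm
    have hm0 : 0 < m := Nat.pos_of_ne_zero (by rintro rfl; exact hm.2 (zero_dvd_iff.1 hm.1))
    set S := T.filter fun t => (h t).det.natAbs = m with hS
    have hmS : ∀ t, t ∈ S ↔ t ∈ T ∧ (h t).det.natAbs = m := by
      intro t
      rw [hS, Finset.mem_filter]
    apply cov S (fun t t' => (m : ℤ) ∣ dt (mv (h t) (y t)) (mv (h t') (y t')))
      (fun t => ?_) (fun t t' htt => ?_) (D * g) 65536 (by norm_num)
    · intro W hW hsepW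
      have hWT : ∀ t ∈ W, t ∈ T ∧ (h t).det.natAbs = m := fun t ht => (hmS t).1 (hW ht)
      have hinj : Set.InjOn (fun t => mv (h t) (y t)) (W : Set T3) := by
        intro t ht t' ht' he
        apply hsepW t ht t' ht'
        simp only at he
        rw [he]
        refine (dvd_zero _).trans (dvd_of_eq ?_)
        unfold dt
        ring
      rw [← Finset.card_image_of_injOn hinj]
      have hdv : ∀ t ∈ W, ∀ X0 X : M2, X0 * h t = h t * X →
          (m : ℤ) ∣ dt (mv (h t) (y t)) (mv X0 (mv (h t) (y t))) := by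
        intro t ht X0 X hx
        have h1 := det_dvd_dt hx (y t)
        have h2 : (m : ℤ) ∣ (h t).det := by
          rw [← (hWT t ht).2]
          exact Int.natAbs_dvd.2 dvd_rfl
        exact h2.trans h1
      have hroot := root_count m hm0 ![tX t0, tZ t0, tY t0]
        (by
          intro j
          fin_cases j
          · simpa [tX] using (adj_tr t0.1 t0.2.1).trans hTr0.bPQ
          · simpa [tZ] using (adj_tr t0.1 t0.2.2).trans hTr0.bPR
          · simpa [tY] using (adj_tr t0.2.1 t0.2.2).trans hTr0.bQR) g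
        (by
          intro s hs
          apply hg s
          · have h1 : (s : ℤ) ^ 2 ∣ 4 * (tX t0).det := hs 0
            rwa [(pr_of_tr hTr0).dX] at h1
          · have h1 : (s : ℤ) ^ 2 ∣ 4 * (tZ t0).det := hs 1
            rwa [(pr_of_tr hTr0).dZ] at h1
          · have h1 : (s : ℤ) ^ 2 ∣ 4 * (tY t0).det := hs 2
            rwa [tY, adj_det, hTr0.dQ, hTr0.dR] at h1)
        (W.image fun t => mv (h t) (y t))
        (by
          intro w hw
          rw [Finset.mem_image] at hw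
          obtain ⟨t, ht, rfl⟩ := hw
          exact hcop t (hWT t ht).1)
        (by
          intro w hw j
          rw [Finset.mem_image] at hw
          obtain ⟨t, ht, rfl⟩ := hw
          fin_cases j
          · exact hdv t ht _ _ (htw t (hWT t ht).1).1
          · exact hdv t ht _ _ (htw t (hWT t ht).1).2
          · exact hdv t ht _ _ (tw_Y hp hTr0 (hT t (hWT t ht).1) (htw t (hWT t ht).1)))
        (by
          intro w hw w' hw' hd
          rw [Finset.mem_image] at hw hw'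
          obtain ⟨t, ht, rfl⟩ := hw
          obtain ⟨t', ht', rfl⟩ := hw'
          rw [hsepW t ht t' ht' hd])
      have hDm : m.divisors.card ≤ D := by
        rw [hD, ← hNn]
        exact Finset.card_le_card (Nat.divisors_subset_of_dvd hm.2 hm.1)
      have h2 := hroot.trans (Nat.mul_le_mul_right g hDm)
      exact_mod_cast h2
    · intro t1 ht1
      have ht1' := (hmS t1).1 ht1
      have h65 : (S.filter fun t' => (m : ℤ) ∣ dt (mv (h t1) (y t1)) (mv (h t') (y t'))).card ≤
          65536 := by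
        apply ball_le hp hsum t0 t1 (hT t1 ht1'.1) (h t1) (y t1) (hdet t1 ht1'.1)
          (htw t1 ht1'.1) (hcop t1 ht1'.1)
        · intro t ht
          rw [Finset.mem_filter, hmS] at ht
          exact hT t ht.1.1
        · intro t ht t' ht' hr
          rw [Finset.mem_filter, hmS] at ht ht'
          exact hsep t ht.1.1 t' ht'.1.1 hr
        · intro t ht
          rw [Finset.mem_filter, hmS] at ht
          refine ⟨h t, y t, htw t ht.1.1, hcop t ht.1.1, ht1'.2.trans ht.1.2.symm, ?_⟩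
          have h1 := ht.2
          rw [← ht1'.2, Int.natAbs_dvd] at h1
          exact h1
      exact_mod_cast h65
    · refine (dvd_zero _).trans (dvd_of_eq ?_)
      unfold dt
      ring
    · rw [dt_swap] at htt
      exact (dvd_neg).1 htt
  have hDc : D = Nn.divisors.card := by rw [hD, hNn]
  calc (T.card : ℝ) = ∑ m ∈ Nn.divisors,
        ((T.filter fun t => (h t).det.natAbs = m).card : ℝ) := by
          rw [hcard]
          push_cast
          rfl
    _ ≤ ∑ _m ∈ Nn.divisors, (D * g * 65536 : ℝ) := Finset.sum_le_sum hfib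
    _ = D * (D * g * 65536) := by rw [Finset.sum_const, nsmul_eq_mul, hDc]

end Pool.Agent.P8H29.SE
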