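import Mathlib
import Pool.Agent.P8H29.SE.Cls

/-! # The number of orthogonal triples in a box -/

set_option autoImplicit false

namespace Pool.Agent.P8H29.SE

open Matrix

/-- no two orthogonal trace-free matrices of positive determinant -/
theorem no_def {X Z : M2} {A B : ℤ} (h : Pr X Z A B) (hA : 0 < A) (hB : 0 < B) : False := by
  have h1 := h.dX
  have h2 := h.dZ
  have h3 := h.orth
  rw [Matrix.det_fin_two, h.tX] at h1
  rw [Matrix.det_fin_two, h.tZ] at h2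
  obtain ⟨x, hx⟩ : ∃ x, x = X 0 0 := ⟨_, rfl⟩
  obtain ⟨b, hb⟩ : ∃ b, b = X 0 1 := ⟨_, rfl⟩
  obtain ⟨c, hc⟩ : ∃ c, c = X 1 0 := ⟨_, rfl⟩
  obtain ⟨x', hx'⟩ : ∃ x, x = Z 0 0 := ⟨_, rfl⟩
  obtain ⟨b', hb'⟩ : ∃ b, b = Z 0 1 := ⟨_, rfl⟩
  obtain ⟨c', hc'⟩ : ∃ c, c = Z 1 0 := ⟨_, rfl⟩
  rw [← hx, ← hb, ← hc] at h1
  rw [← hx', ← hb', ← hc'] at h2
  rw [← hx, ← hb, ← hc, ← hx', ← hb', ← hc'] at h3
  have e1 : b * c = -(x ^ 2 + A) := by linear_combination (-1) * h1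
  have e2 : b' * c' = -(x' ^ 2 + B) := by linear_combination (-1) * h2
  have e3 : b * c' + c * b' = -(2 * x * x') := by linear_combination h3
  have e4 : (b * c' - c * b') ^ 2 + 4 * (b * c) * (b' * c') = (b * c' + c * b') ^ 2 := by ring
  rw [e1, e2, e3] at e4
  have e5 : (b * c' - c * b') ^ 2 + 4 * (B * x ^ 2) + 4 * (A * x' ^ 2) + 4 * (A * B) = 0 := by
    linear_combination e4
  have f1 : 0 < A * B := mul_pos hA hB
  have f2 : 0 ≤ B * x ^ 2 := by positivity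
  have f3 : 0 ≤ A * x' ^ 2 := by positivity
  have f4 : 0 ≤ (b * c' - c * b') ^ 2 := by positivity
  linarith

theorem not_all_pos {p q r : ℤ} {t : T3} (h : Tr p q r t) (hp : 0 < p) (hq : 0 < q)
    (hr : 0 < r) : False :=
  no_def (pr_of_tr h) (mul_pos hp hq) (mul_pos hp hr)

theorem bil_comm (A B : M2) : bil A B = bil B A := by
  unfold bil
  ring

theorem signs (p q r M : ℤ) (hp : p ≠ 0) (hq : q ≠ 0) (hr : r ≠ 0) (hsum : p + q + r = 4)
    (hM1 : 1 ≤ M) (hMc : M = p ∨ M = -p ∨ M = q ∨ M = -q ∨ M = r ∨ M = -r)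
    (a1 : p ≤ M) (a2 : -p ≤ M) (b1 : q ≤ M) (b2 : -q ≤ M) (c1 : r ≤ M) (c2 : -r ≤ M)
    (hn : ¬ (0 < p ∧ 0 < q ∧ 0 < r)) :
    (0 < q ∧ r < 0 ∧ M ≤ 8 * q ∧ M ≤ 8 * -r) ∨
      (0 < r ∧ q < 0 ∧ M ≤ 8 * r ∧ M ≤ 8 * -q) ∨
      (0 < p ∧ r < 0 ∧ M ≤ 8 * p ∧ M ≤ 8 * -r) ∨
      (0 < r ∧ p < 0 ∧ M ≤ 8 * r ∧ M ≤ 8 * -p) ∨
      (0 < p ∧ q < 0 ∧ M ≤ 8 * p ∧ M ≤ 8 * -q) ∨
      (0 < q ∧ p < 0 ∧ M ≤ 8 * q ∧ M ≤ 8 * -p) := by
  -- the smallest negative and the largest positive entry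
  have neg : ∃ x, x < 0 ∧ M ≤ 8 * -x ∧ (x = p ∨ x = q ∨ x = r) := by
    rcases lt_or_gt_of_ne hp with h1 | h1
    · rcases lt_or_gt_of_ne hq with h2 | h2
      · rcases lt_or_gt_of_ne hr with h3 | h3
        · omega
        · rcases le_total p q with h4 | h4
          · exact ⟨p, by omega, by omega, by simp⟩
          · exact ⟨q, by omega, by omega, by simp⟩
      · rcases lt_or_gt_of_ne hr with h3 | h3
        · rcases le_total p r with h4 | h4
          · exact ⟨p, by omega, by omega, by simp⟩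
          · exact ⟨r, by omega, by omega, by simp⟩
        · exact ⟨p, by omega, by omega, by simp⟩
    · rcases lt_or_gt_of_ne hq with h2 | h2
      · rcases lt_or_gt_of_ne hr with h3 | h3
        · rcases le_total q r with h4 | h4
          · exact ⟨q, by omega, by omega, by simp⟩
          · exact ⟨r, by omega, by omega, by simp⟩
        · exact ⟨q, by omega, by omega, by simp⟩
      · rcases lt_or_gt_of_ne hr with h3 | h3
        · exact ⟨r, by omega, by omega, by simp⟩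
        · exact absurd ⟨h1, h2, h3⟩ hn
  have pos : ∃ x, 0 < x ∧ M ≤ 8 * x ∧ (x = p ∨ x = q ∨ x = r) := by
    rcases lt_or_gt_of_ne hp with h1 | h1
    · rcases lt_or_gt_of_ne hq with h2 | h2
      · exact ⟨r, by omega, by omega, by simp⟩
      · rcases lt_or_gt_of_ne hr with h3 | h3
        · exact ⟨q, by omega, by omega, by simp⟩
        · rcases le_total q r with h4 | h4
          · exact ⟨r, by omega, by omega, by simp⟩
          · exact ⟨q, by omega, by omega, by simp⟩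
    · rcases lt_or_gt_of_ne hq with h2 | h2
      · rcases lt_or_gt_of_ne hr with h3 | h3
        · exact ⟨p, by omega, by omega, by simp⟩
        · rcases le_total p r with h4 | h4
          · exact ⟨r, by omega, by omega, by simp⟩
          · exact ⟨p, by omega, by omega, by simp⟩
      · rcases lt_or_gt_of_ne hr with h3 | h3
        · rcases le_total p q with h4 | h4
          · exact ⟨q, by omega, by omega, by simp⟩
          · exact ⟨p, by omega, by omega, by simp⟩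
        · exact absurd ⟨h1, h2, h3⟩ hn
  obtain ⟨x, hx0, hx1, hx⟩ := neg
  obtain ⟨y, hy0, hy1, hy⟩ := pos
  clear hMc hn a1 a2 b1 b2 c1 c2
  rcases hx with rfl | rfl | rfl <;> rcases hy with rfl | rfl | rfl <;>
    first
    | (exfalso; omega)
    | (simp only [hx0, hx1, hy0, hy1, and_self, true_or, or_true])

theorem mult_any {p q r : ℤ} (hp : p ≠ 0) (hq : q ≠ 0) (hr : r ≠ 0) (hsum : p + q + r = 4)
    {t : T3} (ht : Tr p q r t) (N : ℕ) (hN : 1 ≤ N) (F : Finset (M2 × M2))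
    (hF : ∀ g ∈ F, IsU g.1 ∧ IsU g.2 ∧ (∀ i j, |(g.1 * t.1 * g.2) i j| ≤ 2 * N) ∧
      (∀ i j, |(g.1 * t.2.1 * g.2) i j| ≤ 2 * N) ∧ ∀ i j, |(g.1 * t.2.2 * g.2) i j| ≤ 2 * N) :
    (F.card : ℝ) ≤ 46656 * (144 * N ^ 2 / ((max |p| (max |q| |r|) : ℤ) : ℝ)) *
      (Real.logb 2 (48 * N ^ 2) + 2) ^ 2 := by
  obtain ⟨M, hM⟩ : ∃ M : ℤ, M = max |p| (max |q| |r|) := ⟨_, rfl⟩
  rw [← hM]
  have m1 : |p| ≤ M := by rw [hM]; exact le_max_left _ _
  have m2 : |q| ≤ M := by rw [hM]; exact (le_max_left _ _).trans (le_max_right _ _)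
  have m3 : |r| ≤ M := by rw [hM]; exact (le_max_right _ _).trans (le_max_right _ _)
  have hM1 : 1 ≤ M := by
    have := abs_pos.2 hp
    omega
  have hMR : (1 : ℝ) ≤ (M : ℝ) := by exact_mod_cast hM1
  have hnp := fun (a : 0 < p) (b : 0 < q) (c : 0 < r) => not_all_pos ht a b c
  have hMc : M = p ∨ M = -p ∨ M = q ∨ M = -q ∨ M = r ∨ M = -r := by
    rw [hM]
    rcases max_choice |p| (max |q| |r|) with h | h
    · rw [h]
      rcases abs_choice p with h1 | h1 <;> rw [h1] <;> simp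
    · rcases max_choice |q| |r| with h' | h'
      · rw [h, h']
        rcases abs_choice q with h1 | h1 <;> rw [h1] <;> simp
      · rw [h, h']
        rcases abs_choice r with h1 | h1 <;> rw [h1] <;> simp
  have hc := signs p q r M hp hq hr hsum hM1 hMc
    ((le_abs_self p).trans m1) ((neg_le_abs p).trans m1)
    ((le_abs_self q).trans m2) ((neg_le_abs q).trans m2)
    ((le_abs_self r).trans m3) ((neg_le_abs r).trans m3) (fun h => hnp h.1 h.2.1 h.2.2)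
  have cast8 : ∀ {a : ℤ}, M ≤ 8 * a → (M : ℝ) ≤ 8 * (a : ℝ) := by
    intro a ha
    exact_mod_cast ha
  have cast8' : ∀ {a : ℤ}, M ≤ 8 * -a → (M : ℝ) ≤ 8 * -(a : ℝ) := by
    intro a ha
    exact_mod_cast ha
  obtain ⟨P, Q, R⟩ := t
  obtain ⟨b1, b2, b3, d1, d2, d3⟩ := ht
  simp only at b1 b2 b3 d1 d2 d3 hF
  subst d1 d2 d3
  rcases hc with ⟨h1, h2, h3, h4⟩ | ⟨h1, h2, h3, h4⟩ | ⟨h1, h2, h3, h4⟩ | ⟨h1, h2, h3, h4⟩ |
    ⟨h1, h2, h3, h4⟩ | ⟨h1, h2, h3, h4⟩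
  · exact mult_count P Q R N hN M hMR b1 b2 b3 hp h1 h2 (cast8 h3) (cast8' h4) F hF
  · exact mult_count P R Q N hN M hMR b2 b1 (by rw [bil_comm]; exact b3) hp h1 h2 (cast8 h3)
      (cast8' h4) F (fun g hg => ⟨(hF g hg).1, (hF g hg).2.1, (hF g hg).2.2.1,
        (hF g hg).2.2.2.2, (hF g hg).2.2.2.1⟩)
  · exact mult_count Q P R N hN M hMR (by rw [bil_comm]; exact b1) b3 b2 hq h1 h2 (cast8 h3)
      (cast8' h4) F (fun g hg => ⟨(hF g hg).1, (hF g hg).2.1, (hF g hg).2.2.2.1,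
        (hF g hg).2.2.1, (hF g hg).2.2.2.2⟩)
  · exact mult_count Q R P N hN M hMR b3 (by rw [bil_comm]; exact b1)
      (by rw [bil_comm]; exact b2) hq h1 h2 (cast8 h3)
      (cast8' h4) F (fun g hg => ⟨(hF g hg).1, (hF g hg).2.1, (hF g hg).2.2.2.1,
        (hF g hg).2.2.2.2, (hF g hg).2.2.1⟩)
  · exact mult_count R P Q N hN M hMR (by rw [bil_comm]; exact b2) (by rw [bil_comm]; exact b3)
      b1 hr h1 h2 (cast8 h3)
      (cast8' h4) F (fun g hg => ⟨(hF g hg).1, (hF g hg).2.1, (hF g hg).2.2.2.2,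
        (hF g hg).2.2.1, (hF g hg).2.2.2.1⟩)
  · exact mult_count R Q P N hN M hMR (by rw [bil_comm]; exact b3) (by rw [bil_comm]; exact b2)
      (by rw [bil_comm]; exact b1) hr h1 h2 (cast8 h3)
      (cast8' h4) F (fun g hg => ⟨(hF g hg).1, (hF g hg).2.1, (hF g hg).2.2.2.2,
        (hF g hg).2.2.2.1, (hF g hg).2.2.1⟩)

/-- **the number of triples with given determinants in a box** -/
theorem box_count {p q r : ℤ} (hp : p ≠ 0) (hq : q ≠ 0) (hr : r ≠ 0) (hsum : p + q + r = 4)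
    (g : ℕ) (hg : ∀ s : ℕ, (s : ℤ) ^ 2 ∣ 4 * (p * q) → (s : ℤ) ^ 2 ∣ 4 * (p * r) →
      (s : ℤ) ^ 2 ∣ 4 * (q * r) → s ≤ g) (N : ℕ) (hN : 1 ≤ N)
    (S : Finset T3) (hS : ∀ t ∈ S, Tr p q r t)
    (hb : ∀ t ∈ S, ∀ i j, |t.1 i j| ≤ 2 * N ∧ |t.2.1 i j| ≤ 2 * N ∧ |t.2.2 i j| ≤ 2 * N)
    (D : ℕ) (hD : D = (4 * (p * q * (p * r))).natAbs.divisors.card) :
    (S.card : ℝ) ≤ D * (D * g * 65536) *
      (46656 * (144 * N ^ 2 / ((max |p| (max |q| |r|) : ℤ) : ℝ)) *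
      (Real.logb 2 (48 * N ^ 2) + 2) ^ 2) := by
  classical
  have hM0 : (0 : ℝ) ≤ ((max |p| (max |q| |r|) : ℤ) : ℝ) := by
    have : (0 : ℤ) ≤ max |p| (max |q| |r|) := (abs_nonneg p).trans (le_max_left _ _)
    exact_mod_cast this
  apply cov S Rel Rel.refl (fun _ _ h => h.symm) _ _ (by positivity)
  · intro W hW hsep
    exact cls hp hq hr hsum g hg W (fun t ht => hS t (hW ht)) hsep D hD
  · intro t ht
    have hex : ∀ t' ∈ S.filter (Rel t), ∃ γ : M2 × M2, IsU γ.1 ∧ IsU γ.2 ∧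
        t'.1 = γ.1 * t.1 * γ.2 ∧ t'.2.1 = γ.1 * t.2.1 * γ.2 ∧ t'.2.2 = γ.1 * t.2.2 * γ.2 := by
      intro t' ht'
      rw [Finset.mem_filter] at ht'
      obtain ⟨γ, κ, h⟩ := ht'.2
      exact ⟨(γ, κ), h⟩
    choose! f hf using hex
    have hinj : Set.InjOn f (S.filter (Rel t) : Set T3) := by
      intro u hu v hv huv
      rw [Finset.mem_coe] at hu hv
      have h1 := hf u hu
      have h2 := hf v hv
      rw [huv] at h1
      exact Prod.ext (h1.2.2.1.trans h2.2.2.1.symm)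
        (Prod.ext (h1.2.2.2.1.trans h2.2.2.2.1.symm) (h1.2.2.2.2.trans h2.2.2.2.2.symm))
    rw [← Finset.card_image_of_injOn hinj]
    apply mult_any hp hq hr hsum (hS t ht) N hN
    intro γ hγ
    rw [Finset.mem_image] at hγ
    obtain ⟨t', ht', rfl⟩ := hγ
    have h1 := hf t' ht'
    have h2 : t' ∈ S := (Finset.mem_filter.1 ht').1
    refine ⟨h1.1, h1.2.1, ?_, ?_, ?_⟩
    · intro i j
      rw [← h1.2.2.1]
      exact (hb t' h2 i j).1
    · intro i j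
      rw [← h1.2.2.2.1]
      exact (hb t' h2 i j).2.1
    · intro i j
      rw [← h1.2.2.2.2]
      exact (hb t' h2 i j).2.2

end Pool.Agent.P8H29.SE
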