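import Mathlib
import Pool.Agent.Helper924.MW.Lower

set_option autoImplicit false

namespace Pool.Agent.P8H29.SE

namespace Deg

abbrev M2 := Matrix (Fin 2) (Fin 2) ℤ

/-! ### divisor bound -/

theorem div_eps (δ : ℝ) (hδ : 0 < δ) : ∃ C : ℝ, 1 ≤ C ∧ ∀ n : ℕ, n ≠ 0 →
    (n.divisors.card : ℝ) ≤ C * (n : ℝ) ^ δ := by
  obtain ⟨K, hK⟩ := exists_nat_gt (1 / δ)
  have hK0 : (0 : ℝ) < K := lt_trans (by positivity) hK
  have hK1 : 0 < K := by exact_mod_cast hK0
  set A : ℕ := (K ^ K * 2) ^ (2 ^ K) with hA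
  have hA1 : 1 ≤ A := Nat.one_le_pow _ _ (by positivity)
  refine ⟨(A : ℝ), by exact_mod_cast hA1, fun n hn => ?_⟩
  have h := Helper924.MW.Lower.card_divisors_pow_le K hK1 n hn
  have hn1 : (1 : ℝ) ≤ n := by exact_mod_cast Nat.one_le_iff_ne_zero.mpr hn
  have hd : ((n.divisors.card : ℝ)) ^ K ≤ (A : ℝ) * n := by exact_mod_cast h
  have hd0 : (0 : ℝ) ≤ n.divisors.card := by positivity
  have h1 : ((n.divisors.card : ℝ)) ≤ ((A : ℝ) * n) ^ ((1 : ℝ) / K) := by
    calc ((n.divisors.card : ℝ)) = (((n.divisors.card : ℝ)) ^ K) ^ ((1 : ℝ) / K) := by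
          rw [← Real.rpow_natCast, ← Real.rpow_mul hd0, mul_one_div_cancel hK0.ne', Real.rpow_one]
      _ ≤ _ := Real.rpow_le_rpow (by positivity) hd (by positivity)
  have hAr : (1 : ℝ) ≤ A := by exact_mod_cast hA1
  have hKd : (1 : ℝ) / K ≤ δ := by
    rw [div_le_iff₀ hK0]
    rw [div_lt_iff₀ hδ] at hK
    nlinarith
  have hK11 : (1 : ℝ) / K ≤ 1 := by
    rw [div_le_iff₀ hK0, one_mul]
    exact_mod_cast hK1
  calc ((n.divisors.card : ℝ)) ≤ ((A : ℝ) * n) ^ ((1 : ℝ) / K) := h1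
    _ = (A : ℝ) ^ ((1 : ℝ) / K) * (n : ℝ) ^ ((1 : ℝ) / K) :=
        Real.mul_rpow (by positivity) (by positivity)
    _ ≤ (A : ℝ) * (n : ℝ) ^ δ := by
        refine mul_le_mul ?_ ?_ (by positivity) (by positivity)
        · calc (A : ℝ) ^ ((1 : ℝ) / K) ≤ (A : ℝ) ^ (1 : ℝ) :=
                Real.rpow_le_rpow_of_exponent_le hAr hK11
            _ = A := Real.rpow_one _
        · exact Real.rpow_le_rpow_of_exponent_le hn1 hKd

theorem div_unif (δ : ℝ) (hδ : 0 < δ) : ∃ C : ℝ, 1 ≤ C ∧ ∀ N : ℕ, 1 ≤ N →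
    ∀ n : ℕ, n ≠ 0 → n ≤ 16 * N ^ 2 → (n.divisors.card : ℝ) ≤ C * (N : ℝ) ^ δ := by
  obtain ⟨C, hC1, hC⟩ := div_eps (δ / 2) (by positivity)
  refine ⟨C * (16 : ℝ) ^ (δ / 2), ?_, ?_⟩
  · have : (1 : ℝ) ≤ (16 : ℝ) ^ (δ / 2) := Real.one_le_rpow (by norm_num) (by positivity)
    nlinarith
  · intro N hN n hn hle
    have hN0 : (0 : ℝ) ≤ N := by positivity
    have h1 : (n : ℝ) ≤ 16 * (N : ℝ) ^ 2 := by exact_mod_cast hle
    have h2 : (n : ℝ) ^ (δ / 2) ≤ (16 : ℝ) ^ (δ / 2) * (N : ℝ) ^ δ := by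
      calc (n : ℝ) ^ (δ / 2) ≤ (16 * (N : ℝ) ^ 2) ^ (δ / 2) :=
            Real.rpow_le_rpow (by positivity) h1 (by positivity)
        _ = (16 : ℝ) ^ (δ / 2) * ((N : ℝ) ^ 2) ^ (δ / 2) :=
            Real.mul_rpow (by norm_num) (by positivity)
        _ = _ := by
            congr 1
            rw [← Real.rpow_natCast, ← Real.rpow_mul hN0]
            congr 1
            push_cast
            ring
    calc (n.divisors.card : ℝ) ≤ C * (n : ℝ) ^ (δ / 2) := hC n hn
      _ ≤ C * ((16 : ℝ) ^ (δ / 2) * (N : ℝ) ^ δ) := by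
          refine mul_le_mul_of_nonneg_left h2 (by linarith)
      _ = _ := by ring

/-! ### counting pairs with given product -/

theorem card_prod (m : ℤ) (hm : m ≠ 0) (T : Finset (ℤ × ℤ)) (hT : ∀ p ∈ T, p.1 * p.2 = m) :
    T.card ≤ 2 * m.natAbs.divisors.card := by
  have h1 : T.card ≤ (m.natAbs.divisors ×ˢ (Finset.univ : Finset Bool)).card := by
    refine Finset.card_le_card_of_injOn (fun p => (p.1.natAbs, decide (0 ≤ p.1))) ?_ ?_
    · intro p hp
      have hpm := hT p hp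
      simp only [Finset.coe_product, Set.mem_prod, Finset.mem_coe, Nat.mem_divisors,
        Finset.mem_univ, and_true]
      refine ⟨?_, by simpa using hm⟩
      rw [← hpm, Int.natAbs_mul]
      exact Dvd.intro _ rfl
    · intro p hp q hq hpq
      simp only [Prod.mk.injEq, decide_eq_decide] at hpq
      obtain ⟨h1, h2⟩ := hpq
      have hp1 : p.1 = q.1 := by
        by_cases h : 0 ≤ p.1
        · have := h2.mp h
          omega
        · have : ¬ 0 ≤ q.1 := fun h' => h (h2.mpr h')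
          omega
      have hpm := hT p hp
      have hqm := hT q hq
      have hp0 : p.1 ≠ 0 := by
        intro h0
        rw [h0, zero_mul] at hpm
        exact hm hpm.symm
      have : p.1 * p.2 = p.1 * q.2 := by rw [hpm, hp1, hqm]
      exact Prod.ext hp1 (mul_left_cancel₀ hp0 this)
  rw [Finset.card_product] at h1
  simp only [Finset.card_univ, Fintype.card_bool] at h1
  omega

theorem card_Icc_sym (M : ℕ) : (Finset.Icc (-(M : ℤ)) (M : ℤ)).card = 2 * M + 1 := by
  rw [Int.card_Icc]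
  omega

theorem card_prod_zero (M : ℕ) (T : Finset (ℤ × ℤ)) (hT : ∀ p ∈ T, p.1 * p.2 = 0)
    (hb : ∀ p ∈ T, |p.1| ≤ M ∧ |p.2| ≤ M) : T.card ≤ 2 * (2 * M + 1) := by
  have hsub : T ⊆ (Finset.Icc (-(M : ℤ)) (M : ℤ)).image (fun x => ((0 : ℤ), x)) ∪
      (Finset.Icc (-(M : ℤ)) (M : ℤ)).image (fun x => (x, (0 : ℤ))) := by
    intro p hp
    have h := hT p hp
    have hbp := hb p hp
    rcases mul_eq_zero.mp h with h0 | h0
    · refine Finset.mem_union_left _ (Finset.mem_image.mpr ⟨p.2, ?_, ?_⟩)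
      · rw [Finset.mem_Icc]; exact abs_le.mp hbp.2
      · exact Prod.ext h0.symm rfl
    · refine Finset.mem_union_right _ (Finset.mem_image.mpr ⟨p.1, ?_, ?_⟩)
      · rw [Finset.mem_Icc]; exact abs_le.mp hbp.1
      · exact Prod.ext rfl h0.symm
  calc T.card ≤ _ := Finset.card_le_card hsub
    _ ≤ _ := Finset.card_union_le _ _
    _ ≤ (2 * M + 1) + (2 * M + 1) := by
        refine add_le_add ?_ ?_
        · exact Finset.card_image_le.trans (card_Icc_sym M).le
        · exact Finset.card_image_le.trans (card_Icc_sym M).le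
    _ = _ := by ring

/-- a uniform bound for the number of pairs with product `m` -/
theorem card_prod' (D : ℕ) (m : ℤ) (hm : m ≠ 0)
    (hD : m.natAbs.divisors.card ≤ D) (T : Finset (ℤ × ℤ)) (hT : ∀ p ∈ T, p.1 * p.2 = m) :
    T.card ≤ 2 * D := (card_prod m hm T hT).trans (by omega)

/-- matrices with entries at most `M` and determinant `k` -/
theorem card_det (M D : ℕ) (k : ℤ) (hk : k = 0 ∨ k = 1)
    (hD : ∀ n : ℕ, n ≠ 0 → n ≤ M ^ 2 + 1 → n.divisors.card ≤ D)
    (S : Finset M2) (hS : ∀ A ∈ S, A.det = k ∧ ∀ i j, |A i j| ≤ M) :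
    S.card ≤ (2 * D + 4) * (2 * M + 1) ^ 2 := by
  classical
  set I := Finset.Icc (-(M : ℤ)) (M : ℤ) with hI
  set f : M2 → ℤ × ℤ := fun A => (A 0 0, A 1 1) with hf
  set g : M2 → ℤ × ℤ := fun A => (A 0 1, A 1 0) with hg
  have hginj : ∀ u : ℤ × ℤ, Set.InjOn g {A | f A = u} := by
    intro u A hA B hB hAB
    simp only [hf, hg, Set.mem_ofPred_eq, Prod.mk.injEq] at hA hB hAB
    have h1 : A 0 0 = B 0 0 := (congrArg Prod.fst (hA.trans hB.symm))
    have h2 : A 1 1 = B 1 1 := (congrArg Prod.snd (hA.trans hB.symm))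
    ext i j
    fin_cases i <;> fin_cases j
    · exact h1
    · exact hAB.1
    · exact hAB.2
    · exact h2
  have hmem : ∀ A ∈ S, f A ∈ I ×ˢ I := by
    intro A hA
    have := (hS A hA).2
    simp only [hf, hI, Finset.mem_product, Finset.mem_Icc]
    exact ⟨abs_le.mp (this 0 0), abs_le.mp (this 1 1)⟩
  have hprod : ∀ A ∈ S, (g A).1 * (g A).2 = (f A).1 * (f A).2 - k := by
    intro A hA
    have := (hS A hA).1
    rw [Matrix.det_fin_two] at this
    simp only [hf, hg]
    linarith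
  -- fibres
  have hfib1 : ∀ u ∈ I ×ˢ I, u.1 * u.2 - k ≠ 0 → (S.filter (fun A => f A = u)).card ≤ 2 * D := by
    intro u hu hne
    have hc : (S.filter (fun A => f A = u)).card = ((S.filter (fun A => f A = u)).image g).card := by
      rw [Finset.card_image_of_injOn]
      intro A hA B hB h
      exact hginj u (Finset.mem_filter.mp hA).2 (Finset.mem_filter.mp hB).2 h
    rw [hc]
    refine card_prod' D (u.1 * u.2 - k) hne ?_ _ ?_
    · refine hD _ (by simpa using hne) ?_
      simp only [hI, Finset.mem_product, Finset.mem_Icc] at hu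
      have h1 : |u.1| ≤ M := abs_le.mpr hu.1
      have h2 : |u.2| ≤ M := abs_le.mpr hu.2
      have h3 : |u.1 * u.2 - k| ≤ (M : ℤ) ^ 2 + 1 := by
        calc |u.1 * u.2 - k| ≤ |u.1 * u.2| + |k| := abs_sub _ _
          _ ≤ (M : ℤ) ^ 2 + 1 := by
              refine add_le_add ?_ ?_
              · rw [abs_mul, sq]
                exact mul_le_mul h1 h2 (abs_nonneg _) (by positivity)
              · rcases hk with h | h <;> simp [h]
      have h4 : ((u.1 * u.2 - k).natAbs : ℤ) ≤ ((M ^ 2 + 1 : ℕ) : ℤ) := by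
        rw [Int.natCast_natAbs]
        push_cast
        exact h3
      exact_mod_cast h4
    · intro p hp
      obtain ⟨A, hA, rfl⟩ := Finset.mem_image.mp hp
      obtain ⟨hAS, hAu⟩ := Finset.mem_filter.mp hA
      rw [hprod A hAS, hAu]
  have hfib2 : ∀ u ∈ I ×ˢ I, u.1 * u.2 - k = 0 →
      (S.filter (fun A => f A = u)).card ≤ 2 * (2 * M + 1) := by
    intro u hu hz
    have hc : (S.filter (fun A => f A = u)).card = ((S.filter (fun A => f A = u)).image g).card := by
      rw [Finset.card_image_of_injOn]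
      intro A hA B hB h
      exact hginj u (Finset.mem_filter.mp hA).2 (Finset.mem_filter.mp hB).2 h
    rw [hc]
    refine card_prod_zero M _ ?_ ?_
    · intro p hp
      obtain ⟨A, hA, rfl⟩ := Finset.mem_image.mp hp
      obtain ⟨hAS, hAu⟩ := Finset.mem_filter.mp hA
      rw [hprod A hAS, hAu, hz]
    · intro p hp
      obtain ⟨A, hA, rfl⟩ := Finset.mem_image.mp hp
      obtain ⟨hAS, hAu⟩ := Finset.mem_filter.mp hA
      exact ⟨(hS A hAS).2 0 1, (hS A hAS).2 1 0⟩
  -- number of exceptional pairs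
  have hexc : ((I ×ˢ I).filter (fun u => u.1 * u.2 - k = 0)).card ≤ 2 * (2 * M + 1) := by
    rcases hk with h | h
    · refine card_prod_zero M _ ?_ ?_
      · intro p hp
        have := (Finset.mem_filter.mp hp).2
        rw [h] at this
        linarith
      · intro p hp
        have hu := (Finset.mem_filter.mp hp).1
        simp only [hI, Finset.mem_product, Finset.mem_Icc] at hu
        exact ⟨abs_le.mpr hu.1, abs_le.mpr hu.2⟩
    · refine (card_prod 1 one_ne_zero _ ?_).trans ?_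
      · intro p hp
        have := (Finset.mem_filter.mp hp).2
        rw [h] at this
        linarith
      · simp only [Int.natAbs_one, Nat.divisors_one, Finset.card_singleton]
        omega
  have hIc : (I ×ˢ I).card = (2 * M + 1) ^ 2 := by
    rw [Finset.card_product, hI, card_Icc_sym, sq]
  have hcard : S.card = ∑ u ∈ I ×ˢ I, (S.filter (fun A => f A = u)).card :=
    Finset.card_eq_sum_card_fiberwise hmem
  rw [hcard]
  calc ∑ u ∈ I ×ˢ I, (S.filter (fun A => f A = u)).card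
      ≤ ∑ u ∈ I ×ˢ I, (2 * D + if u.1 * u.2 - k = 0 then 2 * (2 * M + 1) else 0) := by
        refine Finset.sum_le_sum fun u hu => ?_
        by_cases hz : u.1 * u.2 - k = 0
        · simp only [hz, if_true]
          exact (hfib2 u hu hz).trans (by omega)
        · simp only [hz, if_false, add_zero]
          exact hfib1 u hu hz
    _ = (2 * M + 1) ^ 2 * (2 * D) +
        ((I ×ˢ I).filter (fun u => u.1 * u.2 - k = 0)).card * (2 * (2 * M + 1)) := by
        rw [Finset.sum_add_distrib, Finset.sum_const, hIc, ← Finset.sum_filter, Finset.sum_const]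
        simp only [smul_eq_mul]
    _ ≤ (2 * M + 1) ^ 2 * (2 * D) + (2 * (2 * M + 1)) * (2 * (2 * M + 1)) := by
        gcongr
    _ = _ := by ring

/-! ### the fibres over a singular nonzero difference -/

theorem card_inj (N D : ℕ) (m : ℤ) (hm : m ≠ 0) (hD : m.natAbs.divisors.card ≤ D)
    (S : Finset M2) (f : M2 → ℤ) (g : M2 → ℤ × ℤ) (hf : ∀ A ∈ S, |f A| ≤ N)
    (hg : ∀ A ∈ S, (g A).1 * (g A).2 = m)
    (hinj : ∀ A ∈ S, ∀ B ∈ S, f A = f B → g A = g B → A = B) :
    S.card ≤ (2 * N + 1) * (2 * D) := by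
  classical
  have h1 : S.card ≤ ((Finset.Icc (-(N : ℤ)) N) ×ˢ (S.image g)).card := by
    refine Finset.card_le_card_of_injOn (fun A => (f A, g A)) ?_ ?_
    · intro A hA
      simp only [Finset.coe_product, Set.mem_prod, Finset.mem_coe, Finset.mem_Icc]
      exact ⟨abs_le.mp (hf A hA), Finset.mem_image_of_mem g hA⟩
    · intro A hA B hB h
      simp only [Prod.mk.injEq] at h
      exact hinj A hA B hB h.1 h.2
  rw [Finset.card_product, card_Icc_sym] at h1
  refine h1.trans (Nat.mul_le_mul_left _ ?_)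
  refine card_prod' D m hm hD _ ?_
  intro p hp
  obtain ⟨A, hA, rfl⟩ := Finset.mem_image.mp hp
  exact hg A hA

theorem card_diff (N D : ℕ)
    (hD : ∀ n : ℕ, n ≠ 0 → n ≤ 16 * N ^ 2 → n.divisors.card ≤ D)
    (w : M2) (hw : w.det = 0) (hw0 : w ≠ 0) (hwb : ∀ i j, |w i j| ≤ 2 * (N : ℤ))
    (S : Finset M2) (hS : ∀ A ∈ S, A.det = 1 ∧ (A - w).det = 1 ∧ ∀ i j, |A i j| ≤ N) :
    S.card ≤ (2 * N + 1) * (2 * D) := by
  rw [Matrix.det_fin_two] at hw
  have hlin : ∀ A ∈ S, A 0 0 * w 1 1 + A 1 1 * w 0 0 - A 0 1 * w 1 0 - A 1 0 * w 0 1 = 0 := by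
    intro A hA
    obtain ⟨h1, h2, -⟩ := hS A hA
    rw [Matrix.det_fin_two] at h1 h2
    simp only [Matrix.sub_apply] at h2
    linear_combination h1 - h2 + hw
  have hdet : ∀ A ∈ S, A 0 0 * A 1 1 - A 0 1 * A 1 0 = 1 := by
    intro A hA
    have h1 := (hS A hA).1
    rwa [Matrix.det_fin_two] at h1
  have hsqb : ∀ i j, w i j ≠ 0 → ((w i j) ^ 2).natAbs.divisors.card ≤ D := by
    intro i j h0
    refine hD _ ?_ ?_
    · simpa using h0
    · have h1 := hwb i j
      have h2 : (w i j) ^ 2 ≤ 16 * (N : ℤ) ^ 2 := by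
        have := abs_le.mp h1
        nlinarith
      have h3 : (((w i j) ^ 2).natAbs : ℤ) ≤ ((16 * N ^ 2 : ℕ) : ℤ) := by
        rw [Int.natCast_natAbs, abs_of_nonneg (sq_nonneg _)]
        push_cast
        exact h2
      exact_mod_cast h3
  by_cases h4 : w 1 1 = 0
  · by_cases h1 : w 0 0 = 0
    · by_cases h2 : w 0 1 = 0
      · by_cases h3 : w 1 0 = 0
        · exfalso
          apply hw0
          ext i j
          fin_cases i <;> fin_cases j
          · exact h1
          · exact h2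
          · exact h3
          · exact h4
        · -- pivot `w 1 0`
          refine card_inj N D ((w 1 0) ^ 2) (pow_ne_zero 2 h3) (hsqb 1 0 h3) S (fun A => A 1 0)
            (fun A => (w 1 0 * A 0 0 - w 0 0 * A 1 0, w 1 0 * A 1 1 - w 1 1 * A 1 0)) ?_ ?_ ?_
          · intro A hA
            exact (hS A hA).2.2 1 0
          · intro A hA
            have e1 := hdet A hA
            have e2 := hlin A hA
            linear_combination (w 1 0) ^ 2 * e1 + (A 1 0) ^ 2 * hw - w 1 0 * A 1 0 * e2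
          · intro A hA B hB hf hg
            simp only [Prod.mk.injEq] at hf hg
            have a1 := hlin A hA
            have b1 := hlin B hB
            have q1 : A 0 0 = B 0 0 := by
              apply mul_left_cancel₀ h3
              rw [hf] at hg
              linarith [hg.1]
            have q2 : A 1 1 = B 1 1 := by
              apply mul_left_cancel₀ h3
              rw [hf] at hg
              linarith [hg.2]
            have q3 : A 0 1 = B 0 1 := by
              apply mul_left_cancel₀ h3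
              rw [hf, q1, q2] at a1
              linarith
            ext i j
            fin_cases i <;> fin_cases j
            · exact q1
            · exact q3
            · exact hf
            · exact q2
      · -- pivot `w 0 1`
        refine card_inj N D ((w 0 1) ^ 2) (pow_ne_zero 2 h2) (hsqb 0 1 h2) S (fun A => A 0 1)
          (fun A => (w 0 1 * A 0 0 - w 0 0 * A 0 1, w 0 1 * A 1 1 - w 1 1 * A 0 1)) ?_ ?_ ?_
        · intro A hA
          exact (hS A hA).2.2 0 1
        · intro A hA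
          have e1 := hdet A hA
          have e2 := hlin A hA
          linear_combination (w 0 1) ^ 2 * e1 + (A 0 1) ^ 2 * hw - w 0 1 * A 0 1 * e2
        · intro A hA B hB hf hg
          simp only [Prod.mk.injEq] at hf hg
          have a1 := hlin A hA
          have b1 := hlin B hB
          have q1 : A 0 0 = B 0 0 := by
            apply mul_left_cancel₀ h2
            rw [hf] at hg
            linarith [hg.1]
          have q2 : A 1 1 = B 1 1 := by
            apply mul_left_cancel₀ h2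
            rw [hf] at hg
            linarith [hg.2]
          have q3 : A 1 0 = B 1 0 := by
            apply mul_left_cancel₀ h2
            rw [hf, q1, q2] at a1
            linarith
          ext i j
          fin_cases i <;> fin_cases j
          · exact q1
          · exact hf
          · exact q3
          · exact q2
    · -- pivot `w 0 0`
      refine card_inj N D (-(w 0 0) ^ 2) (neg_ne_zero.mpr (pow_ne_zero 2 h1))
        (by rw [Int.natAbs_neg]; exact hsqb 0 0 h1) S (fun A => A 0 0)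
        (fun A => (w 0 0 * A 0 1 - w 0 1 * A 0 0, w 0 0 * A 1 0 - w 1 0 * A 0 0)) ?_ ?_ ?_
      · intro A hA
        exact (hS A hA).2.2 0 0
      · intro A hA
        have e1 := hdet A hA
        have e2 := hlin A hA
        linear_combination (-(w 0 0) ^ 2) * e1 - (A 0 0) ^ 2 * hw + w 0 0 * A 0 0 * e2
      · intro A hA B hB hf hg
        simp only [Prod.mk.injEq] at hf hg
        have a1 := hlin A hA
        have b1 := hlin B hB
        have q1 : A 0 1 = B 0 1 := by
          apply mul_left_cancel₀ h1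
          rw [hf] at hg
          linarith [hg.1]
        have q2 : A 1 0 = B 1 0 := by
          apply mul_left_cancel₀ h1
          rw [hf] at hg
          linarith [hg.2]
        have q3 : A 1 1 = B 1 1 := by
          apply mul_left_cancel₀ h1
          rw [hf, q1, q2] at a1
          linarith
        ext i j
        fin_cases i <;> fin_cases j
        · exact hf
        · exact q1
        · exact q2
        · exact q3
  · -- pivot `w 1 1`
    refine card_inj N D (-(w 1 1) ^ 2) (neg_ne_zero.mpr (pow_ne_zero 2 h4))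
      (by rw [Int.natAbs_neg]; exact hsqb 1 1 h4) S (fun A => A 1 1)
      (fun A => (w 1 1 * A 0 1 - w 0 1 * A 1 1, w 1 1 * A 1 0 - w 1 0 * A 1 1)) ?_ ?_ ?_
    · intro A hA
      exact (hS A hA).2.2 1 1
    · intro A hA
      have e1 := hdet A hA
      have e2 := hlin A hA
      linear_combination (-(w 1 1) ^ 2) * e1 - (A 1 1) ^ 2 * hw + w 1 1 * A 1 1 * e2
    · intro A hA B hB hf hg
      simp only [Prod.mk.injEq] at hf hg
      have a1 := hlin A hA
      have b1 := hlin B hB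
      have q1 : A 0 1 = B 0 1 := by
        apply mul_left_cancel₀ h4
        rw [hf] at hg
        linarith [hg.1]
      have q2 : A 1 0 = B 1 0 := by
        apply mul_left_cancel₀ h4
        rw [hf] at hg
        linarith [hg.2]
      have q3 : A 0 0 = B 0 0 := by
        apply mul_left_cancel₀ h4
        rw [hf, q1, q2] at a1
        linarith
      ext i j
      fin_cases i <;> fin_cases j
      · exact q3
      · exact q1
      · exact q2
      · exact hf

/-! ### quadruples -/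

theorem card_quad (N D : ℕ) (hN : 1 ≤ N)
    (hD : ∀ n : ℕ, n ≠ 0 → n ≤ 16 * N ^ 2 → n.divisors.card ≤ D)
    (F : Finset (M2 × M2 × M2 × M2))
    (hF : ∀ x ∈ F, x.1.det = 1 ∧ x.2.1.det = 1 ∧ x.2.2.1.det = 1 ∧ x.2.2.2.det = 1 ∧
        (∀ i j, |x.1 i j| ≤ N ∧ |x.2.1 i j| ≤ N ∧ |x.2.2.1 i j| ≤ N ∧ |x.2.2.2 i j| ≤ N) ∧
        x.1 + x.2.1 = x.2.2.1 + x.2.2.2 ∧ (x.1 - x.2.2.1).det = 0) :
    F.card ≤ ((2 * D + 4) * (2 * N + 1) ^ 2) ^ 2 +
      ((2 * D + 4) * (2 * (2 * N) + 1) ^ 2) * ((2 * N + 1) * (2 * D)) ^ 2 := by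
  classical
  have hN2 : 1 ≤ N ^ 2 := Nat.one_le_pow _ _ hN
  set phi : M2 × M2 × M2 × M2 → M2 := fun x => x.1 - x.2.2.1 with hphi
  -- fibre over zero
  have hz : (F.filter (fun x => phi x = 0)).card ≤ ((2 * D + 4) * (2 * N + 1) ^ 2) ^ 2 := by
    set G := F.filter (fun x => phi x = 0) with hG
    have h1 : G.card ≤ ((G.image (fun x => x.1)) ×ˢ (G.image (fun x => x.2.1))).card := by
      refine Finset.card_le_card_of_injOn (fun x => (x.1, x.2.1)) ?_ ?_
      · intro x hx
        simp only [Finset.coe_product, Set.mem_prod, Finset.mem_coe]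
        exact ⟨Finset.mem_image_of_mem _ hx, Finset.mem_image_of_mem _ hx⟩
      · intro x hx y hy h
        simp only [Prod.mk.injEq] at h
        obtain ⟨hxF, hx0⟩ := Finset.mem_filter.mp hx
        obtain ⟨hyF, hy0⟩ := Finset.mem_filter.mp hy
        obtain ⟨-, -, -, -, -, ex, -⟩ := hF x hxF
        obtain ⟨-, -, -, -, -, ey, -⟩ := hF y hyF
        have x3 : x.2.2.1 = x.1 := (sub_eq_zero.mp hx0).symm
        have y3 : y.2.2.1 = y.1 := (sub_eq_zero.mp hy0).symm
        have x4 : x.2.2.2 = x.2.1 := by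
          rw [x3] at ex
          exact (add_left_cancel ex).symm
        have y4 : y.2.2.2 = y.2.1 := by
          rw [y3] at ey
          exact (add_left_cancel ey).symm
        refine Prod.ext h.1 (Prod.ext h.2 (Prod.ext ?_ ?_))
        · rw [x3, y3]; exact h.1
        · rw [x4, y4]; exact h.2
    have hle : ∀ n : ℕ, n ≠ 0 → n ≤ N ^ 2 + 1 → n.divisors.card ≤ D := by
      intro n hn hn'
      exact hD n hn (by omega)
    have h2 : (G.image (fun x => x.1)).card ≤ (2 * D + 4) * (2 * N + 1) ^ 2 := by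
      refine card_det N D 1 (Or.inr rfl) hle _ ?_
      intro A hA
      obtain ⟨x, hx, rfl⟩ := Finset.mem_image.mp hA
      obtain ⟨d1, -, -, -, b, -, -⟩ := hF x (Finset.mem_filter.mp hx).1
      exact ⟨d1, fun i j => (b i j).1⟩
    have h3 : (G.image (fun x => x.2.1)).card ≤ (2 * D + 4) * (2 * N + 1) ^ 2 := by
      refine card_det N D 1 (Or.inr rfl) hle _ ?_
      intro A hA
      obtain ⟨x, hx, rfl⟩ := Finset.mem_image.mp hA
      obtain ⟨-, d2, -, -, b, -, -⟩ := hF x (Finset.mem_filter.mp hx).1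
      exact ⟨d2, fun i j => (b i j).2.1⟩
    rw [Finset.card_product] at h1
    rw [sq]
    exact h1.trans (Nat.mul_le_mul h2 h3)
  -- fibres over nonzero
  have hnz : ∀ w ∈ (F.filter (fun x => phi x ≠ 0)).image phi,
      ((F.filter (fun x => phi x ≠ 0)).filter (fun x => phi x = w)).card ≤
        ((2 * N + 1) * (2 * D)) ^ 2 := by
    intro w hw
    obtain ⟨x0, hx0, hx0w⟩ := Finset.mem_image.mp hw
    obtain ⟨hx0F, hx0n⟩ := Finset.mem_filter.mp hx0
    have hw0 : w ≠ 0 := hx0w ▸ hx0n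
    obtain ⟨-, -, -, -, b0, -, hdet0⟩ := hF x0 hx0F
    have hwd : w.det = 0 := by rw [← hx0w]; exact hdet0
    have hwb : ∀ i j, |w i j| ≤ 2 * (N : ℤ) := by
      intro i j
      rw [← hx0w]
      simp only [hphi, Matrix.sub_apply]
      calc |x0.1 i j - x0.2.2.1 i j| ≤ |x0.1 i j| + |x0.2.2.1 i j| := abs_sub _ _
        _ ≤ N + N := add_le_add (b0 i j).1 (b0 i j).2.2.1
        _ = _ := by ring
    set G := (F.filter (fun x => phi x ≠ 0)).filter (fun x => phi x = w) with hG
    have hGF : ∀ x ∈ G, x ∈ F ∧ phi x = w := by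
      intro x hx
      obtain ⟨h1, h2⟩ := Finset.mem_filter.mp hx
      exact ⟨(Finset.mem_filter.mp h1).1, h2⟩
    have h1 : G.card ≤ ((G.image (fun x => x.1)) ×ˢ (G.image (fun x => x.2.2.2))).card := by
      refine Finset.card_le_card_of_injOn (fun x => (x.1, x.2.2.2)) ?_ ?_
      · intro x hx
        simp only [Finset.coe_product, Set.mem_prod, Finset.mem_coe]
        exact ⟨Finset.mem_image_of_mem _ hx, Finset.mem_image_of_mem _ hx⟩
      · intro x hx y hy h
        simp only [Prod.mk.injEq] at h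
        obtain ⟨hxF, hxw⟩ := hGF x hx
        obtain ⟨hyF, hyw⟩ := hGF y hy
        obtain ⟨-, -, -, -, -, ex, -⟩ := hF x hxF
        obtain ⟨-, -, -, -, -, ey, -⟩ := hF y hyF
        have x3 : x.2.2.1 = x.1 - w := by rw [← hxw, hphi]; simp
        have y3 : y.2.2.1 = y.1 - w := by rw [← hyw, hphi]; simp
        have x2 : x.2.1 = x.2.2.1 + x.2.2.2 - x.1 := by rw [← ex]; simp
        have y2 : y.2.1 = y.2.2.1 + y.2.2.2 - y.1 := by rw [← ey]; simp
        refine Prod.ext h.1 (Prod.ext ?_ (Prod.ext ?_ h.2))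
        · rw [x2, y2, x3, y3, h.1, h.2]
        · rw [x3, y3, h.1]
    have h2 : (G.image (fun x => x.1)).card ≤ (2 * N + 1) * (2 * D) := by
      refine card_diff N D hD w hwd hw0 hwb _ ?_
      intro A hA
      obtain ⟨x, hx, rfl⟩ := Finset.mem_image.mp hA
      obtain ⟨hxF, hxw⟩ := hGF x hx
      obtain ⟨d1, -, d3, -, b, -, -⟩ := hF x hxF
      refine ⟨d1, ?_, fun i j => (b i j).1⟩
      have : x.1 - w = x.2.2.1 := by rw [← hxw, hphi]; simp
      rw [this]
      exact d3
    have h3 : (G.image (fun x => x.2.2.2)).card ≤ (2 * N + 1) * (2 * D) := by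
      refine card_diff N D hD w hwd hw0 hwb _ ?_
      intro A hA
      obtain ⟨x, hx, rfl⟩ := Finset.mem_image.mp hA
      obtain ⟨hxF, hxw⟩ := hGF x hx
      obtain ⟨-, d2, -, d4, b, ex, -⟩ := hF x hxF
      refine ⟨d4, ?_, fun i j => (b i j).2.2.2⟩
      have : x.2.2.2 - w = x.2.1 := by
        rw [← hxw, hphi]
        have : x.2.2.2 = x.1 + x.2.1 - x.2.2.1 := by rw [ex]; simp
        rw [this]
        simp only
        abel
      rw [this]
      exact d2
    rw [Finset.card_product] at h1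
    rw [sq]
    exact h1.trans (Nat.mul_le_mul h2 h3)
  have himg : ((F.filter (fun x => phi x ≠ 0)).image phi).card ≤
      (2 * D + 4) * (2 * (2 * N) + 1) ^ 2 := by
    refine card_det (2 * N) D 0 (Or.inl rfl) ?_ _ ?_
    · intro n hn hn'
      refine hD n hn (hn'.trans ?_)
      nlinarith
    · intro w hw
      obtain ⟨x, hx, rfl⟩ := Finset.mem_image.mp hw
      obtain ⟨-, -, -, -, b, -, hd⟩ := hF x (Finset.mem_filter.mp hx).1
      refine ⟨hd, fun i j => ?_⟩
      simp only [hphi, Matrix.sub_apply]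
      calc |x.1 i j - x.2.2.1 i j| ≤ |x.1 i j| + |x.2.2.1 i j| := abs_sub _ _
        _ ≤ N + N := add_le_add (b i j).1 (b i j).2.2.1
        _ = _ := by push_cast; ring
  have hsplit : F.card = (F.filter (fun x => phi x = 0)).card +
      (F.filter (fun x => phi x ≠ 0)).card :=
    (Finset.card_filter_add_card_filter_not _).symm
  have hsum : (F.filter (fun x => phi x ≠ 0)).card ≤
      ((2 * D + 4) * (2 * (2 * N) + 1) ^ 2) * ((2 * N + 1) * (2 * D)) ^ 2 := by
    rw [Finset.card_eq_sum_card_image phi]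
    calc _ ≤ ∑ _w ∈ (F.filter (fun x => phi x ≠ 0)).image phi, ((2 * N + 1) * (2 * D)) ^ 2 :=
          Finset.sum_le_sum hnz
      _ = ((F.filter (fun x => phi x ≠ 0)).image phi).card * ((2 * N + 1) * (2 * D)) ^ 2 := by
          rw [Finset.sum_const, smul_eq_mul]
      _ ≤ _ := Nat.mul_le_mul_right _ himg
  rw [hsplit]
  exact add_le_add hz hsum

theorem card_all (N D : ℕ) (hN : 1 ≤ N)
    (hD : ∀ n : ℕ, n ≠ 0 → n ≤ 16 * N ^ 2 → n.divisors.card ≤ D)
    (F : Finset (M2 × M2 × M2 × M2))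
    (hF : ∀ x ∈ F, x.1.det = 1 ∧ x.2.1.det = 1 ∧ x.2.2.1.det = 1 ∧ x.2.2.2.det = 1 ∧
        (∀ i j, |x.1 i j| ≤ N ∧ |x.2.1 i j| ≤ N ∧ |x.2.2.1 i j| ≤ N ∧ |x.2.2.2 i j| ≤ N) ∧
        x.1 + x.2.1 = x.2.2.1 + x.2.2.2 ∧
        ((x.1 + x.2.1).det = 0 ∨ (x.1 - x.2.2.1).det = 0 ∨ (x.1 - x.2.2.2).det = 0)) :
    F.card ≤ 3 * (((2 * D + 4) * (2 * N + 1) ^ 2) ^ 2 +
      ((2 * D + 4) * (2 * (2 * N) + 1) ^ 2) * ((2 * N + 1) * (2 * D)) ^ 2) := by
  classical
  set Q := ((2 * D + 4) * (2 * N + 1) ^ 2) ^ 2 +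
      ((2 * D + 4) * (2 * (2 * N) + 1) ^ 2) * ((2 * N + 1) * (2 * D)) ^ 2 with hQ
  have hneg : ∀ A : M2, (-A).det = A.det := by
    intro A
    rw [Matrix.det_fin_two, Matrix.det_fin_two]
    simp only [Matrix.neg_apply]
    ring
  have c1 : (F.filter (fun x => (x.1 + x.2.1).det = 0)).card ≤ Q := by
    set G := F.filter (fun x => (x.1 + x.2.1).det = 0) with hG
    set T : M2 × M2 × M2 × M2 → M2 × M2 × M2 × M2 :=
      fun x => (x.1, -x.2.2.2, -x.2.1, x.2.2.1) with hT
    have hinj : Function.Injective T := by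
      intro x y h
      simp only [hT, Prod.mk.injEq, neg_inj] at h
      obtain ⟨h1, h4, h2, h3⟩ := h
      exact Prod.ext h1 (Prod.ext h2 (Prod.ext h3 h4))
    rw [← Finset.card_image_of_injective G hinj]
    refine card_quad N D hN hD _ ?_
    intro y hy
    obtain ⟨x, hx, rfl⟩ := Finset.mem_image.mp hy
    obtain ⟨hxF, hx0⟩ := Finset.mem_filter.mp hx
    obtain ⟨d1, d2, d3, d4, b, e, -⟩ := hF x hxF
    simp only [hT]
    refine ⟨d1, by rw [hneg]; exact d4, by rw [hneg]; exact d2, d3, ?_, ?_, ?_⟩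
    · intro i j
      simp only [Matrix.neg_apply, abs_neg]
      exact ⟨(b i j).1, (b i j).2.2.2, (b i j).2.1, (b i j).2.2.1⟩
    · have : x.2.2.1 = x.1 + x.2.1 - x.2.2.2 := by rw [e]; simp
      rw [this]
      abel
    · rw [sub_neg_eq_add]
      exact hx0
  have c2 : (F.filter (fun x => (x.1 - x.2.2.1).det = 0)).card ≤ Q := by
    refine card_quad N D hN hD _ ?_
    intro x hx
    obtain ⟨hxF, hx0⟩ := Finset.mem_filter.mp hx
    obtain ⟨d1, d2, d3, d4, b, e, -⟩ := hF x hxF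
    exact ⟨d1, d2, d3, d4, b, e, hx0⟩
  have c3 : (F.filter (fun x => (x.1 - x.2.2.2).det = 0)).card ≤ Q := by
    set G := F.filter (fun x => (x.1 - x.2.2.2).det = 0) with hG
    set T : M2 × M2 × M2 × M2 → M2 × M2 × M2 × M2 :=
      fun x => (x.1, x.2.1, x.2.2.2, x.2.2.1) with hT
    have hinj : Function.Injective T := by
      intro x y h
      simp only [hT, Prod.mk.injEq] at h
      obtain ⟨h1, h2, h4, h3⟩ := h
      exact Prod.ext h1 (Prod.ext h2 (Prod.ext h3 h4))
    rw [← Finset.card_image_of_injective G hinj]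
    refine card_quad N D hN hD _ ?_
    intro y hy
    obtain ⟨x, hx, rfl⟩ := Finset.mem_image.mp hy
    obtain ⟨hxF, hx0⟩ := Finset.mem_filter.mp hx
    obtain ⟨d1, d2, d3, d4, b, e, -⟩ := hF x hxF
    simp only [hT]
    refine ⟨d1, d2, d4, d3, ?_, ?_, hx0⟩
    · intro i j
      exact ⟨(b i j).1, (b i j).2.1, (b i j).2.2.2, (b i j).2.2.1⟩
    · rw [e, add_comm]
  have hsub : F ⊆ F.filter (fun x => (x.1 + x.2.1).det = 0) ∪
      (F.filter (fun x => (x.1 - x.2.2.1).det = 0) ∪
        F.filter (fun x => (x.1 - x.2.2.2).det = 0)) := by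
    intro x hx
    obtain ⟨-, -, -, -, -, -, h⟩ := hF x hx
    simp only [Finset.mem_union, Finset.mem_filter]
    tauto
  calc F.card ≤ _ := Finset.card_le_card hsub
    _ ≤ _ := Finset.card_union_le _ _
    _ ≤ Q + (Q + Q) := add_le_add c1 ((Finset.card_union_le _ _).trans (add_le_add c2 c3))
    _ = 3 * Q := by ring

theorem arith (N D : ℕ) (hN : 1 ≤ N) (hD : 1 ≤ D) :
    3 * (((2 * D + 4) * (2 * N + 1) ^ 2) ^ 2 +
      ((2 * D + 4) * (2 * (2 * N) + 1) ^ 2) * ((2 * N + 1) * (2 * D)) ^ 2) ≤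
      24948 * (D ^ 3 * N ^ 4) := by
  have h1 : 2 * D + 4 ≤ 6 * D := by omega
  have h2 : 2 * N + 1 ≤ 3 * N := by omega
  have h3 : 2 * (2 * N) + 1 ≤ 5 * N := by omega
  have h4 : D ^ 2 ≤ D ^ 3 := Nat.pow_le_pow_right hD (by norm_num)
  calc 3 * (((2 * D + 4) * (2 * N + 1) ^ 2) ^ 2 +
      ((2 * D + 4) * (2 * (2 * N) + 1) ^ 2) * ((2 * N + 1) * (2 * D)) ^ 2)
      ≤ 3 * (((6 * D) * (3 * N) ^ 2) ^ 2 +
      ((6 * D) * (5 * N) ^ 2) * ((3 * N) * (2 * D)) ^ 2) := by gcongr
    _ = 8748 * (D ^ 2 * N ^ 4) + 16200 * (D ^ 3 * N ^ 4) := by ring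
    _ ≤ 8748 * (D ^ 3 * N ^ 4) + 16200 * (D ^ 3 * N ^ 4) := by gcongr
    _ = _ := by ring

end Deg

open Deg in
/-- the number of degenerate energy quadruples -/
theorem degen_bound (ε : ℝ) (hε : 0 < ε) : ∃ C : ℝ, 0 < C ∧ ∀ N : ℕ, 1 ≤ N →
    ∀ F : Finset (Matrix (Fin 2) (Fin 2) ℤ × Matrix (Fin 2) (Fin 2) ℤ ×
        Matrix (Fin 2) (Fin 2) ℤ × Matrix (Fin 2) (Fin 2) ℤ),
      (∀ x ∈ F, x.1.det = 1 ∧ x.2.1.det = 1 ∧ x.2.2.1.det = 1 ∧ x.2.2.2.det = 1 ∧
        (∀ i j, |x.1 i j| ≤ N ∧ |x.2.1 i j| ≤ N ∧ |x.2.2.1 i j| ≤ N ∧ |x.2.2.2 i j| ≤ N) ∧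
        x.1 + x.2.1 = x.2.2.1 + x.2.2.2 ∧
        ((x.1 + x.2.1).det = 0 ∨ (x.1 - x.2.2.1).det = 0 ∨ (x.1 - x.2.2.2).det = 0)) →
      (F.card : ℝ) ≤ C * (N : ℝ) ^ (4 + ε) := by
  obtain ⟨C, hC1, hC⟩ := div_unif (ε / 3) (by positivity)
  refine ⟨24948 * C ^ 3, by positivity, fun N hN F hF => ?_⟩
  have hNr : (1 : ℝ) ≤ N := by exact_mod_cast hN
  have hN0 : (0 : ℝ) < N := by linarith
  have hpow : (1 : ℝ) ≤ (N : ℝ) ^ (ε / 3) := Real.one_le_rpow hNr (by positivity)
  have hX : (1 : ℝ) ≤ C * (N : ℝ) ^ (ε / 3) := by nlinarith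
  set D : ℕ := ⌊C * (N : ℝ) ^ (ε / 3)⌋₊ with hDdef
  have hD1 : 1 ≤ D := Nat.le_floor (by exact_mod_cast hX)
  have hDle : (D : ℝ) ≤ C * (N : ℝ) ^ (ε / 3) := Nat.floor_le (by linarith)
  have hD : ∀ n : ℕ, n ≠ 0 → n ≤ 16 * N ^ 2 → n.divisors.card ≤ D := by
    intro n hn hn'
    exact Nat.le_floor (hC N hN n hn hn')
  have h1 := (card_all N D hN hD F hF).trans (arith N D hN hD1)
  have h2 : (F.card : ℝ) ≤ 24948 * ((D : ℝ) ^ 3 * (N : ℝ) ^ 4) := by exact_mod_cast h1
  have h3 : (D : ℝ) ^ 3 ≤ C ^ 3 * (N : ℝ) ^ ε := by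
    calc (D : ℝ) ^ 3 ≤ (C * (N : ℝ) ^ (ε / 3)) ^ 3 := by gcongr
      _ = C ^ 3 * ((N : ℝ) ^ (ε / 3)) ^ 3 := by ring
      _ = _ := by
          congr 1
          rw [← Real.rpow_natCast, ← Real.rpow_mul hN0.le]
          congr 1
          push_cast
          ring
  calc (F.card : ℝ) ≤ 24948 * ((D : ℝ) ^ 3 * (N : ℝ) ^ 4) := h2
    _ ≤ 24948 * ((C ^ 3 * (N : ℝ) ^ ε) * (N : ℝ) ^ 4) := by gcongr
    _ = 24948 * C ^ 3 * (N : ℝ) ^ (4 + ε) := by
        rw [Real.rpow_add hN0]
        have : (N : ℝ) ^ (4 : ℝ) = (N : ℝ) ^ (4 : ℕ) := by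
          rw [← Real.rpow_natCast]
          norm_num
        rw [this]
        ring

end Pool.Agent.P8H29.SE
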