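import Pool.Agent.P8H29.SE.Deg

set_option autoImplicit false

namespace Pool.Agent.P8H29.SE

/-- the square root of the greatest common divisor of `4pq`, `4pr`, `4qr` -/
def gg (p q r : ℤ) : ℕ :=
  Nat.sqrt (Nat.gcd (4 * (p * q)).natAbs (Nat.gcd (4 * (p * r)).natAbs (4 * (q * r)).natAbs))

namespace SumB

/-- the greatest common divisor of `pq`, `pr`, `qr` -/
def gn (p q r : ℤ) : ℕ := Nat.gcd (p * q).natAbs (Nat.gcd (p * r).natAbs (q * r).natAbs)

theorem gg_eq (p q r : ℤ) : gg p q r = Nat.sqrt (4 * gn p q r) := by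
  unfold gg gn
  rw [Int.natAbs_mul 4 (p * q), Int.natAbs_mul 4 (p * r), Int.natAbs_mul 4 (q * r)]
  have h4 : (4 : ℤ).natAbs = 4 := rfl
  rw [h4, Nat.gcd_mul_left, Nat.gcd_mul_left]

theorem gn_swap (p q r : ℤ) : gn p q r = gn p r q := by
  unfold gn
  rw [mul_comm r q, Nat.gcd_left_comm]

theorem gn_cyc (p q r : ℤ) : gn p q r = gn q r p := by
  unfold gn
  rw [mul_comm q p, mul_comm r p, Nat.gcd_comm (q * r).natAbs, Nat.gcd_assoc]

theorem gg_swap (p q r : ℤ) : gg p q r = gg p r q := by rw [gg_eq, gg_eq, gn_swap]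

theorem gg_cyc (p q r : ℤ) : gg p q r = gg q r p := by rw [gg_eq, gg_eq, gn_cyc]

theorem gn_dvd1 (p q r : ℤ) : (gn p q r : ℤ) ∣ p * q := by
  rw [Int.natCast_dvd]
  exact Nat.gcd_dvd_left _ _

theorem gn_dvd2 (p q r : ℤ) : (gn p q r : ℤ) ∣ p * r := by
  rw [Int.natCast_dvd]
  exact (Nat.gcd_dvd_right _ _).trans (Nat.gcd_dvd_left _ _)

theorem gn_dvd3 (p q r : ℤ) : (gn p q r : ℤ) ∣ q * r := by
  rw [Int.natCast_dvd]
  exact (Nat.gcd_dvd_right _ _).trans (Nat.gcd_dvd_right _ _)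

/-- a trivial bound -/
theorem gg_le (p q r : ℤ) (hp : p ≠ 0) (hq : q ≠ 0) (R : ℕ) (h1 : |p| ≤ R) (h2 : |q| ≤ R) :
    gg p q r ≤ 2 * R := by
  rw [gg_eq]
  have h3 : gn p q r ≤ R * R := by
    have h4 : gn p q r ≤ (p * q).natAbs :=
      Nat.le_of_dvd (Int.natAbs_pos.mpr (mul_ne_zero hp hq)) (Nat.gcd_dvd_left _ _)
    rw [Int.abs_eq_natAbs] at h1 h2
    have h5 : (p * q).natAbs ≤ R * R := by
      rw [Int.natAbs_mul]
      exact Nat.mul_le_mul (by exact_mod_cast h1) (by exact_mod_cast h2)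
    exact h4.trans h5
  calc Nat.sqrt (4 * gn p q r) ≤ Nat.sqrt ((2 * R) * (2 * R)) := by
        apply Nat.sqrt_le_sqrt
        nlinarith
    _ = 2 * R := Nat.sqrt_eq _

/-- integers in an interval which are congruent modulo `L` -/
theorem count_le (L : ℕ) (hL : 1 ≤ L) (R : ℕ) (A : Finset ℤ) (hA : ∀ p ∈ A, |p| ≤ R)
    (hc : ∀ p ∈ A, ∀ p' ∈ A, (L : ℤ) ∣ p - p') : A.card ≤ 2 * R / L + 1 := by
  rcases A.eq_empty_or_nonempty with h | h
  · rw [h]
    simp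
  · set p0 := A.min' h with hp0
    have hp0A : p0 ∈ A := Finset.min'_mem A h
    have hmin : ∀ p ∈ A, p0 ≤ p := fun p hp => Finset.min'_le A p hp
    have hLz : (0 : ℤ) < L := by exact_mod_cast hL
    rw [← Finset.card_range (2 * R / L + 1)]
    refine Finset.card_le_card_of_injOn (fun p => ((p - p0) / L).toNat) ?_ ?_
    · intro p hp
      have h1 := abs_le.mp (hA p hp)
      have h2 := abs_le.mp (hA p0 hp0A)
      have h3 : (p - p0) / L ≤ ((2 * R / L : ℕ) : ℤ) := by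
        push_cast
        exact Int.ediv_le_ediv hLz (by linarith)
      rw [Finset.mem_coe, Finset.mem_range]
      exact Nat.lt_succ_of_le (Int.toNat_le.mpr h3)
    · intro p hp q hq hpq
      simp only at hpq
      obtain ⟨k, hk⟩ := hc p hp p0 hp0A
      obtain ⟨l, hl⟩ := hc q hq p0 hp0A
      have hk0 : 0 ≤ k := by
        have := hmin p hp
        by_contra hneg
        push Not at hneg
        nlinarith
      have hl0 : 0 ≤ l := by
        have := hmin q hq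
        by_contra hneg
        push Not at hneg
        nlinarith
      rw [hk, hl, Int.mul_ediv_cancel_left _ hLz.ne', Int.mul_ediv_cancel_left _ hLz.ne'] at hpq
      have hkl : k = l := by omega
      rw [hkl] at hk
      linarith

/-- the contribution of a pair of divisors -/
theorem pair_bound (e f : ℕ) (he : 1 ≤ e) (hf : 1 ≤ f) (R : ℕ) (hR : 1 ≤ R)
    (hef : e * f ≤ 9 * R ^ 2) (A : Finset ℤ)
    (hA : ∀ p ∈ A, |p| ≤ R ∧ (e : ℤ) ∣ p ∧ (f : ℤ) ∣ p - 4) :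
    (A.card : ℝ) * (2 * Real.sqrt ((e * f : ℕ) : ℝ)) ≤ 22 * R := by
  have hRr : (1 : ℝ) ≤ R := by exact_mod_cast hR
  rcases A.eq_empty_or_nonempty with h | ⟨p0, hp0⟩
  · rw [h]
    simp
  · obtain ⟨-, h1, h2⟩ := hA p0 hp0
    have hg : Nat.gcd e f ∣ 4 := by
      have h3 : ((Nat.gcd e f : ℕ) : ℤ) ∣ p0 :=
        (Int.natCast_dvd_natCast.mpr (Nat.gcd_dvd_left e f)).trans h1
      have h4 : ((Nat.gcd e f : ℕ) : ℤ) ∣ p0 - 4 :=
        (Int.natCast_dvd_natCast.mpr (Nat.gcd_dvd_right e f)).trans h2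
      have h5 : ((Nat.gcd e f : ℕ) : ℤ) ∣ 4 := by
        have := dvd_sub h3 h4
        simpa using this
      exact_mod_cast h5
    have hg4 : Nat.gcd e f ≤ 4 := Nat.le_of_dvd (by norm_num) hg
    set L := Nat.lcm e f with hL
    have hL1 : 1 ≤ L := Nat.lcm_pos he hf
    have hefL : e * f ≤ 4 * L := by
      rw [← Nat.gcd_mul_lcm e f]
      exact Nat.mul_le_mul_right _ hg4
    have hcard : A.card ≤ 2 * R / L + 1 := by
      refine count_le L hL1 R A (fun p hp => (hA p hp).1) ?_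
      intro p hp p' hp'
      obtain ⟨-, a1, a2⟩ := hA p hp
      obtain ⟨-, b1, b2⟩ := hA p' hp'
      have c1 : (e : ℤ) ∣ p - p' := dvd_sub a1 b1
      have c2 : (f : ℤ) ∣ p - p' := by
        have := dvd_sub a2 b2
        have h6 : p - 4 - (p' - 4) = p - p' := by ring
        rwa [h6] at this
      rw [Int.natCast_dvd] at c1 c2 ⊢
      exact Nat.lcm_dvd c1 c2
    have hcr : (A.card : ℝ) ≤ 2 * R / L + 1 := by
      have h7 : (A.card : ℝ) ≤ ((2 * R / L + 1 : ℕ) : ℝ) := by exact_mod_cast hcard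
      refine h7.trans ?_
      push_cast
      have h8 : (((2 * R / L : ℕ)) : ℝ) ≤ ((2 * R : ℕ) : ℝ) / L := Nat.cast_div_le
      push_cast at h8
      linarith
    set s := Real.sqrt ((e * f : ℕ) : ℝ) with hs
    have hsq : s ^ 2 = ((e * f : ℕ) : ℝ) := Real.sq_sqrt (by positivity)
    have hef1 : (1 : ℝ) ≤ ((e * f : ℕ) : ℝ) := by
      exact_mod_cast Nat.mul_le_mul he hf
    have hs1 : 1 ≤ s := by
      rw [hs]
      exact Real.one_le_sqrt.mpr hef1
    have hs3 : s ≤ 3 * R := by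
      rw [hs]
      apply Real.sqrt_le_iff.mpr
      refine ⟨by positivity, ?_⟩
      have : ((e * f : ℕ) : ℝ) ≤ ((9 * R ^ 2 : ℕ) : ℝ) := by exact_mod_cast hef
      push_cast at this ⊢
      nlinarith
    have hLr : s ^ 2 ≤ 4 * L := by
      rw [hsq]
      exact_mod_cast hefL
    have hL0 : (0 : ℝ) < L := by exact_mod_cast hL1
    have h9 : (2 * R / L : ℝ) ≤ 8 * R / s ^ 2 := by
      rw [div_le_div_iff₀ hL0 (by positivity)]
      nlinarith
    have h10 : (8 * R / s ^ 2 : ℝ) * (2 * s) ≤ 16 * R := by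
      have : (8 * R / s ^ 2 : ℝ) * (2 * s) = 16 * R / s := by
        field_simp
        ring
      rw [this]
      exact div_le_self (by positivity) hs1
    calc (A.card : ℝ) * (2 * s) ≤ (8 * R / s ^ 2 + 1) * (2 * s) := by
          refine mul_le_mul_of_nonneg_right (hcr.trans (by linarith)) (by positivity)
      _ = (8 * R / s ^ 2 : ℝ) * (2 * s) + 2 * s := by ring
      _ ≤ 22 * R := by linarith

/-- the sum over `p` for fixed `r` -/
theorem inner (r : ℤ) (hr : r ≠ 0) (hr4 : r ≠ 4) (D : ℝ)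
    (hD : ((r * (r - 4)).natAbs.divisors.card : ℝ) ≤ D) (T : Finset ℤ)
    (hT : ∀ p ∈ T, p ≠ 0 ∧ 4 - p - r ≠ 0 ∧ |p| ≤ |r|) :
    ∑ p ∈ T, (gg p (4 - p - r) r : ℝ) ≤ 22 * (r.natAbs : ℝ) * D ^ 2 := by
  classical
  set n := (r * (r - 4)).natAbs with hn
  have hn0 : n ≠ 0 := by
    rw [hn]
    exact Int.natAbs_ne_zero.mpr (mul_ne_zero hr (sub_ne_zero.mpr hr4))
  have hR1 : 1 ≤ r.natAbs := Int.natAbs_pos.mpr hr
  have hn5 : n ≤ 9 * r.natAbs ^ 2 := by
    rw [hn, Int.natAbs_mul]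
    have h1 : (r - 4).natAbs ≤ r.natAbs + 4 := by omega
    nlinarith
  set kap : ℤ → ℕ × ℕ := fun p =>
    (Nat.gcd (gn p (4 - p - r) r) p.natAbs,
      gn p (4 - p - r) r / Nat.gcd (gn p (4 - p - r) r) p.natAbs) with hkap
  -- properties
  have hG0 : ∀ p ∈ T, gn p (4 - p - r) r ≠ 0 := by
    intro p hp h0
    obtain ⟨h1, h2, -⟩ := hT p hp
    have h3 := gn_dvd1 p (4 - p - r) r
    rw [h0] at h3
    exact mul_ne_zero h1 h2 (by simpa using h3)
  have hGn : ∀ p ∈ T, gn p (4 - p - r) r ∣ n := by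
    intro p hp
    rw [hn, ← Int.natCast_dvd]
    have h1 := gn_dvd2 p (4 - p - r) r
    have h2 := gn_dvd3 p (4 - p - r) r
    have h3 : r * (r - 4) = -(p * r) - (4 - p - r) * r := by ring
    rw [h3]
    exact dvd_sub (dvd_neg.mpr h1) h2
  have hGp : ∀ p ∈ T, (gn p (4 - p - r) r : ℤ) ∣ p * (p - 4) := by
    intro p hp
    have h1 := gn_dvd1 p (4 - p - r) r
    have h2 := gn_dvd2 p (4 - p - r) r
    have h3 : p * (p - 4) = -(p * r) - p * (4 - p - r) := by ring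
    rw [h3]
    exact dvd_sub (dvd_neg.mpr h2) h1
  have hmul : ∀ p ∈ T, (kap p).1 * (kap p).2 = gn p (4 - p - r) r := by
    intro p hp
    exact Nat.mul_div_cancel' (Nat.gcd_dvd_left _ _)
  have he1 : ∀ p ∈ T, ((kap p).1 : ℤ) ∣ p := by
    intro p hp
    rw [Int.natCast_dvd]
    exact Nat.gcd_dvd_right _ _
  have hf1 : ∀ p ∈ T, ((kap p).2 : ℤ) ∣ p - 4 := by
    intro p hp
    rw [Int.natCast_dvd]
    have h1 : gn p (4 - p - r) r ∣ p.natAbs * (p - 4).natAbs := by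
      rw [← Int.natAbs_mul, ← Int.natCast_dvd]
      exact hGp p hp
    have hgpos : 0 < Nat.gcd (gn p (4 - p - r) r) p.natAbs :=
      Nat.gcd_pos_of_pos_left _ (Nat.pos_of_ne_zero (hG0 p hp))
    have hcop : Nat.Coprime (gn p (4 - p - r) r / Nat.gcd (gn p (4 - p - r) r) p.natAbs)
        (p.natAbs / Nat.gcd (gn p (4 - p - r) r) p.natAbs) := Nat.coprime_div_gcd_div_gcd hgpos
    refine hcop.dvd_of_dvd_mul_left ?_
    obtain ⟨c, hc⟩ := h1
    refine ⟨c, ?_⟩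
    apply Nat.eq_of_mul_eq_mul_left hgpos
    rw [← mul_assoc, ← mul_assoc, Nat.mul_div_cancel' (Nat.gcd_dvd_right _ _),
      Nat.mul_div_cancel' (Nat.gcd_dvd_left _ _)]
    exact hc
  have hmaps : ∀ p ∈ T, kap p ∈ n.divisors ×ˢ n.divisors := by
    intro p hp
    rw [Finset.mem_product, Nat.mem_divisors, Nat.mem_divisors]
    have h1 := hGn p hp
    rw [← hmul p hp] at h1
    exact ⟨⟨(Dvd.intro _ rfl).trans h1, hn0⟩, ⟨(Dvd.intro_left _ rfl).trans h1, hn0⟩⟩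
  rw [← Finset.sum_fiberwise_of_maps_to hmaps]
  have hfib : ∀ x ∈ n.divisors ×ˢ n.divisors,
      ∑ p ∈ T.filter (fun p => kap p = x), (gg p (4 - p - r) r : ℝ) ≤ 22 * (r.natAbs : ℝ) := by
    intro x hx
    rcases (T.filter (fun p => kap p = x)).eq_empty_or_nonempty with h | ⟨p1, hp1⟩
    · rw [h, Finset.sum_empty]
      positivity
    · obtain ⟨hp1T, hp1x⟩ := Finset.mem_filter.mp hp1
      have hx1 : x.1 * x.2 ≠ 0 := by
        rw [← hp1x, hmul p1 hp1T]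
        exact hG0 p1 hp1T
      have hx2 : x.1 * x.2 ≤ 9 * r.natAbs ^ 2 := by
        refine le_trans ?_ hn5
        rw [← hp1x, hmul p1 hp1T]
        exact Nat.le_of_dvd (Nat.pos_of_ne_zero hn0) (hGn p1 hp1T)
      have hle : ∀ p ∈ T.filter (fun p => kap p = x), (gg p (4 - p - r) r : ℝ) ≤
          2 * Real.sqrt ((x.1 * x.2 : ℕ) : ℝ) := by
        intro p hp
        obtain ⟨hpT, hpx⟩ := Finset.mem_filter.mp hp
        rw [← hpx, hmul p hpT, gg_eq]
        have h1 : ((Nat.sqrt (4 * gn p (4 - p - r) r) : ℕ) : ℝ) ≤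
            Real.sqrt ((4 * gn p (4 - p - r) r : ℕ) : ℝ) := Real.nat_sqrt_le_real_sqrt
        refine h1.trans (le_of_eq ?_)
        push_cast
        rw [Real.sqrt_mul (by norm_num)]
        congr 1
        rw [show (4 : ℝ) = 2 ^ 2 by norm_num]
        exact Real.sqrt_sq (by norm_num)
      calc ∑ p ∈ T.filter (fun p => kap p = x), (gg p (4 - p - r) r : ℝ)
          ≤ ∑ p ∈ T.filter (fun p => kap p = x), 2 * Real.sqrt ((x.1 * x.2 : ℕ) : ℝ) :=
            Finset.sum_le_sum hle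
        _ = ((T.filter (fun p => kap p = x)).card : ℝ) * (2 * Real.sqrt ((x.1 * x.2 : ℕ) : ℝ)) := by
            rw [Finset.sum_const, nsmul_eq_mul]
        _ ≤ 22 * (r.natAbs : ℝ) := by
            refine pair_bound x.1 x.2 (Nat.pos_of_ne_zero (left_ne_zero_of_mul hx1))
              (Nat.pos_of_ne_zero (right_ne_zero_of_mul hx1)) r.natAbs hR1 hx2 _ ?_
            intro p hp
            obtain ⟨hpT, hpx⟩ := Finset.mem_filter.mp hp
            rw [← hpx]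
            refine ⟨?_, he1 p hpT, hf1 p hpT⟩
            rw [Int.natCast_natAbs]
            exact (hT p hpT).2.2
  calc _ ≤ ∑ x ∈ n.divisors ×ˢ n.divisors, 22 * (r.natAbs : ℝ) := Finset.sum_le_sum hfib
    _ = ((n.divisors.card : ℝ)) ^ 2 * (22 * (r.natAbs : ℝ)) := by
        rw [Finset.sum_const, Finset.card_product, nsmul_eq_mul]
        push_cast
        ring
    _ ≤ D ^ 2 * (22 * (r.natAbs : ℝ)) := by gcongr
    _ = _ := by ring

/-- the set of pairs `(r, p)` where `r` is the largest entry -/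
noncomputable def Y (R : ℕ) : Finset (ℤ × ℤ) :=
  (Finset.Icc (-(R : ℤ)) R ×ˢ Finset.Icc (-(R : ℤ)) R).filter
    (fun y => y.1 ≠ 0 ∧ y.2 ≠ 0 ∧ 4 - y.2 - y.1 ≠ 0 ∧ |y.2| ≤ |y.1| ∧ |4 - y.2 - y.1| ≤ |y.1|)

noncomputable def Phi (y : ℤ × ℤ) : ℝ := (gg y.2 (4 - y.2 - y.1) y.1 : ℝ) / ((|y.1| : ℤ) : ℝ)

theorem Phi_nonneg (y : ℤ × ℤ) : 0 ≤ Phi y := by
  unfold Phi
  have : (0 : ℝ) ≤ ((|y.1| : ℤ) : ℝ) := by exact_mod_cast abs_nonneg y.1
  positivity

theorem sum_Y (R : ℕ) (D : ℝ) (hD1 : 1 ≤ D)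
    (hD : ∀ n : ℕ, n ≠ 0 → n ≤ 5 * R ^ 2 → (n.divisors.card : ℝ) ≤ D) :
    ∑ y ∈ Y R, Phi y ≤ (2 * R + 1) * (22 * D ^ 2) := by
  classical
  have hmaps : ∀ y ∈ Y R, y.1 ∈ Finset.Icc (-(R : ℤ)) R := by
    intro y hy
    exact (Finset.mem_product.mp (Finset.mem_filter.mp hy).1).1
  rw [← Finset.sum_fiberwise_of_maps_to hmaps]
  have hfib : ∀ r ∈ Finset.Icc (-(R : ℤ)) R,
      ∑ y ∈ (Y R).filter (fun y => y.1 = r), Phi y ≤ 22 * D ^ 2 := by
    intro r hrR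
    by_cases hr : r = 0
    · have h1 : (Y R).filter (fun y => y.1 = r) = ∅ := by
        rw [Finset.filter_eq_empty_iff]
        intro y hy h
        exact (Finset.mem_filter.mp hy).2.1 (h.trans hr)
      rw [h1, Finset.sum_empty]
      positivity
    · set T := ((Y R).filter (fun y => y.1 = r)).image Prod.snd with hTdef
      have hinj : Set.InjOn Prod.snd (((Y R).filter (fun y => y.1 = r) : Finset (ℤ × ℤ)) :
          Set (ℤ × ℤ)) := by
        intro y hy z hz h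
        have h1 := (Finset.mem_filter.mp hy).2
        have h2 := (Finset.mem_filter.mp hz).2
        exact Prod.ext (h1.trans h2.symm) h
      have hT : ∀ p ∈ T, p ≠ 0 ∧ 4 - p - r ≠ 0 ∧ |p| ≤ |r| ∧ |4 - p - r| ≤ |r| := by
        intro p hp
        obtain ⟨y, hy, rfl⟩ := Finset.mem_image.mp hp
        obtain ⟨hyY, hyr⟩ := Finset.mem_filter.mp hy
        have h1 := (Finset.mem_filter.mp hyY).2
        rw [hyr] at h1
        exact h1.2
      have hsum : ∑ y ∈ (Y R).filter (fun y => y.1 = r), Phi y =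
          (∑ p ∈ T, (gg p (4 - p - r) r : ℝ)) / (r.natAbs : ℝ) := by
        rw [hTdef, Finset.sum_image hinj, Finset.sum_div]
        refine Finset.sum_congr rfl fun y hy => ?_
        have h1 := (Finset.mem_filter.mp hy).2
        unfold Phi
        rw [h1]
        congr 1
        rw [Nat.cast_natAbs]
      rw [hsum]
      have hRpos : (0 : ℝ) < (r.natAbs : ℝ) := by
        exact_mod_cast Int.natAbs_pos.mpr hr
      rw [div_le_iff₀ hRpos]
      by_cases hr4 : r = 4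
      · -- the exceptional value
        have hcard : T.card ≤ 9 := by
          have h1 : T ⊆ Finset.Icc (-4 : ℤ) 4 := by
            intro p hp
            have h2 := (hT p hp).2.2.1
            rw [hr4] at h2
            rw [Finset.mem_Icc]
            have h3 : |(4 : ℤ)| = 4 := rfl
            rw [h3] at h2
            exact abs_le.mp h2
          exact (Finset.card_le_card h1).trans (by simp)
        have hle : ∀ p ∈ T, (gg p (4 - p - r) r : ℝ) ≤ 8 := by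
          intro p hp
          obtain ⟨h1, h2, h3, h4⟩ := hT p hp
          have h5 : |r| = ((4 : ℕ) : ℤ) := by rw [hr4]; rfl
          rw [h5] at h3 h4
          have h6 := gg_le p (4 - p - r) r h1 h2 4 h3 h4
          exact_mod_cast h6
        have h7 : ∑ p ∈ T, (gg p (4 - p - r) r : ℝ) ≤ 72 := by
          calc ∑ p ∈ T, (gg p (4 - p - r) r : ℝ) ≤ ∑ _p ∈ T, (8 : ℝ) := Finset.sum_le_sum hle
            _ = T.card * 8 := by rw [Finset.sum_const, nsmul_eq_mul]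
            _ ≤ 9 * 8 := by
                have : (T.card : ℝ) ≤ 9 := by exact_mod_cast hcard
                nlinarith
            _ = 72 := by norm_num
        have h8 : (r.natAbs : ℝ) = 4 := by rw [hr4]; norm_num
        rw [h8]
        have h9 : 1 ≤ D ^ 2 := one_le_pow₀ hD1
        linarith
      · have hDr : ((r * (r - 4)).natAbs.divisors.card : ℝ) ≤ D := by
          refine hD _ (Int.natAbs_ne_zero.mpr (mul_ne_zero hr (sub_ne_zero.mpr hr4))) ?_
          rw [Finset.mem_Icc] at hrR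
          have h1 : r.natAbs ≤ R := by omega
          have h2 : (r - 4).natAbs ≤ r.natAbs + 4 := by omega
          have h3 : 1 ≤ r.natAbs := Int.natAbs_pos.mpr hr
          rw [Int.natAbs_mul]
          calc r.natAbs * (r - 4).natAbs ≤ r.natAbs * (5 * r.natAbs) :=
                Nat.mul_le_mul_left _ (by omega)
            _ ≤ R * (5 * R) := Nat.mul_le_mul h1 (by omega)
            _ = 5 * R ^ 2 := by ring
        have h1 := inner r hr hr4 D hDr T (fun p hp => ⟨(hT p hp).1, (hT p hp).2.1, (hT p hp).2.2.1⟩)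
        linarith
  calc _ ≤ ∑ _r ∈ Finset.Icc (-(R : ℤ)) R, 22 * D ^ 2 := Finset.sum_le_sum hfib
    _ = _ := by
        rw [Finset.sum_const, Deg.card_Icc_sym, nsmul_eq_mul]
        push_cast
        ring

end SumB

open SumB in
theorem sum_bound (ε : ℝ) (hε : 0 < ε) : ∃ C : ℝ, 0 < C ∧ ∀ N : ℕ, 1 ≤ N →
    ∑ x ∈ (Finset.Icc (-(8 * (N : ℤ) ^ 2)) (8 * (N : ℤ) ^ 2) ×ˢ
        Finset.Icc (-(8 * (N : ℤ) ^ 2)) (8 * (N : ℤ) ^ 2)).filter
          (fun x => x.1 ≠ 0 ∧ x.2 ≠ 0 ∧ 4 - x.1 - x.2 ≠ 0),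
      (gg x.1 x.2 (4 - x.1 - x.2) : ℝ) / ((max |x.1| (max |x.2| |4 - x.1 - x.2|) : ℤ) : ℝ) ≤
        C * (N : ℝ) ^ (2 + ε) := by
  classical
  obtain ⟨C0, hC01, hC0⟩ := Deg.div_eps (ε / 8) (by positivity)
  refine ⟨3 * (41 * (22 * (C0 * (2000 : ℝ) ^ (ε / 8)) ^ 2)), by positivity, fun N hN => ?_⟩
  have hNr : (1 : ℝ) ≤ N := by exact_mod_cast hN
  have hN0 : (0 : ℝ) < N := by linarith
  set R : ℕ := 20 * N ^ 2 with hR
  set D : ℝ := C0 * (2000 : ℝ) ^ (ε / 8) * (N : ℝ) ^ (ε / 2) with hDdef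
  have hp1 : (1 : ℝ) ≤ (2000 : ℝ) ^ (ε / 8) := Real.one_le_rpow (by norm_num) (by positivity)
  have hp2 : (1 : ℝ) ≤ (N : ℝ) ^ (ε / 2) := Real.one_le_rpow hNr (by positivity)
  have hD1 : 1 ≤ D := by
    rw [hDdef]
    have h1 : 1 ≤ C0 * (2000 : ℝ) ^ (ε / 8) := one_le_mul_of_one_le_of_one_le hC01 hp1
    exact one_le_mul_of_one_le_of_one_le h1 hp2
  have hD : ∀ n : ℕ, n ≠ 0 → n ≤ 5 * R ^ 2 → (n.divisors.card : ℝ) ≤ D := by
    intro n hn hle
    have h1 : (n : ℝ) ≤ 2000 * (N : ℝ) ^ 4 := by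
      have h2 : 5 * R ^ 2 = 2000 * N ^ 4 := by rw [hR]; ring
      rw [h2] at hle
      exact_mod_cast hle
    calc (n.divisors.card : ℝ) ≤ C0 * (n : ℝ) ^ (ε / 8) := hC0 n hn
      _ ≤ C0 * (2000 * (N : ℝ) ^ 4) ^ (ε / 8) := by
          refine mul_le_mul_of_nonneg_left ?_ (by linarith)
          exact Real.rpow_le_rpow (by positivity) h1 (by positivity)
      _ = D := by
          rw [hDdef, Real.mul_rpow (by norm_num) (by positivity), ← Real.rpow_natCast,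
            ← Real.rpow_mul hN0.le, mul_assoc]
          congr 3
          push_cast
          ring
  have hY := sum_Y R D hD1 hD
  set X := (Finset.Icc (-(8 * (N : ℤ) ^ 2)) (8 * (N : ℤ) ^ 2) ×ˢ
        Finset.Icc (-(8 * (N : ℤ) ^ 2)) (8 * (N : ℤ) ^ 2)).filter
          (fun x => x.1 ≠ 0 ∧ x.2 ≠ 0 ∧ 4 - x.1 - x.2 ≠ 0) with hX
  set F : ℤ × ℤ → ℝ := fun x =>
    (gg x.1 x.2 (4 - x.1 - x.2) : ℝ) / ((max |x.1| (max |x.2| |4 - x.1 - x.2|) : ℤ) : ℝ) with hF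
  have hF0 : ∀ x, 0 ≤ F x := by
    intro x
    have : (0 : ℝ) ≤ ((max |x.1| (max |x.2| |4 - x.1 - x.2|) : ℤ) : ℝ) := by
      exact_mod_cast (abs_nonneg x.1).trans (le_max_left _ _)
    simp only [hF]
    positivity
  have hNz : (1 : ℤ) ≤ (N : ℤ) ^ 2 := by
    have : (1 : ℤ) ≤ N := by exact_mod_cast hN
    nlinarith
  have hXb : ∀ x ∈ X, (-(8 * (N : ℤ) ^ 2) ≤ x.1 ∧ x.1 ≤ 8 * (N : ℤ) ^ 2) ∧
      (-(8 * (N : ℤ) ^ 2) ≤ x.2 ∧ x.2 ≤ 8 * (N : ℤ) ^ 2) ∧ x.1 ≠ 0 ∧ x.2 ≠ 0 ∧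
        4 - x.1 - x.2 ≠ 0 := by
    intro x hx
    obtain ⟨h1, h2⟩ := Finset.mem_filter.mp hx
    rw [Finset.mem_product, Finset.mem_Icc, Finset.mem_Icc] at h1
    exact ⟨h1.1, h1.2, h2⟩
  have hRz : (R : ℤ) = 20 * (N : ℤ) ^ 2 := by rw [hR]; push_cast; ring
  -- a general transport lemma
  have trans : ∀ (Z : Finset (ℤ × ℤ)) (φ : ℤ × ℤ → ℤ × ℤ), Function.Injective φ →
      (∀ x ∈ Z, φ x ∈ Y R ∧ F x = Phi (φ x)) →
      ∑ x ∈ Z, F x ≤ (2 * R + 1) * (22 * D ^ 2) := by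
    intro Z φ hφ hZ
    calc ∑ x ∈ Z, F x = ∑ x ∈ Z, Phi (φ x) :=
          Finset.sum_congr rfl fun x hx => (hZ x hx).2
      _ = ∑ y ∈ Z.image φ, Phi y := by
          rw [Finset.sum_image]
          intro a _ b _ h
          exact hφ h
      _ ≤ ∑ y ∈ Y R, Phi y := by
          refine Finset.sum_le_sum_of_subset_of_nonneg ?_ (fun y _ _ => Phi_nonneg y)
          intro y hy
          obtain ⟨x, hx, rfl⟩ := Finset.mem_image.mp hy
          exact (hZ x hx).1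
      _ ≤ _ := hY
  have hYm : ∀ r p : ℤ, -(20 * (N : ℤ) ^ 2) ≤ r → r ≤ 20 * (N : ℤ) ^ 2 →
      -(20 * (N : ℤ) ^ 2) ≤ p → p ≤ 20 * (N : ℤ) ^ 2 → r ≠ 0 → p ≠ 0 → 4 - p - r ≠ 0 →
      |p| ≤ |r| → |4 - p - r| ≤ |r| → (r, p) ∈ Y R := by
    intro r p h1 h2 h3 h4 h5 h6 h7 h8 h9
    unfold Y
    rw [Finset.mem_filter, Finset.mem_product, Finset.mem_Icc, Finset.mem_Icc, hRz]
    exact ⟨⟨⟨h1, h2⟩, ⟨h3, h4⟩⟩, h5, h6, h7, h8, h9⟩
  have c1 : ∑ x ∈ X.filter (fun x => |x.1| ≤ |4 - x.1 - x.2| ∧ |x.2| ≤ |4 - x.1 - x.2|), F x ≤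
      (2 * R + 1) * (22 * D ^ 2) := by
    refine trans _ (fun x => (4 - x.1 - x.2, x.1)) ?_ ?_
    · intro x y h
      simp only [Prod.mk.injEq] at h
      exact Prod.ext h.2 (by linarith [h.1, h.2])
    · intro x hx
      obtain ⟨hxX, hm1, hm2⟩ := Finset.mem_filter.mp hx
      obtain ⟨⟨a1, a2⟩, ⟨a3, a4⟩, a5, a6, a7⟩ := hXb x hxX
      have e1 : 4 - x.1 - (4 - x.1 - x.2) = x.2 := by ring
      refine ⟨hYm _ _ (by linarith) (by linarith) (by linarith) (by linarith) a7 a5 ?_ hm1 ?_, ?_⟩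
      · rw [e1]; exact a6
      · rw [e1]; exact hm2
      · simp only [hF, Phi]
        rw [e1, max_eq_right hm2, max_eq_right hm1]
  have c2 : ∑ x ∈ X.filter (fun x => |x.1| ≤ |x.2| ∧ |4 - x.1 - x.2| ≤ |x.2|), F x ≤
      (2 * R + 1) * (22 * D ^ 2) := by
    refine trans _ (fun x => (x.2, x.1)) ?_ ?_
    · intro x y h
      simp only [Prod.mk.injEq] at h
      exact Prod.ext h.2 h.1
    · intro x hx
      obtain ⟨hxX, hm1, hm2⟩ := Finset.mem_filter.mp hx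
      obtain ⟨⟨a1, a2⟩, ⟨a3, a4⟩, a5, a6, a7⟩ := hXb x hxX
      refine ⟨hYm _ _ (by linarith) (by linarith) (by linarith) (by linarith) a6 a5 a7 hm1 hm2, ?_⟩
      simp only [hF, Phi]
      rw [max_eq_left hm2, max_eq_right hm1, gg_swap]
  have c3 : ∑ x ∈ X.filter (fun x => |x.2| ≤ |x.1| ∧ |4 - x.1 - x.2| ≤ |x.1|), F x ≤
      (2 * R + 1) * (22 * D ^ 2) := by
    refine trans _ (fun x => x) (fun x y h => h) ?_
    intro x hx
    obtain ⟨hxX, hm1, hm2⟩ := Finset.mem_filter.mp hx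
    obtain ⟨⟨a1, a2⟩, ⟨a3, a4⟩, a5, a6, a7⟩ := hXb x hxX
    have e1 : 4 - x.2 - x.1 = 4 - x.1 - x.2 := by ring
    refine ⟨?_, ?_⟩
    · have h := hYm x.1 x.2 (by linarith) (by linarith) (by linarith) (by linarith) a5 a6
        (by rw [e1]; exact a7) hm1 (by rw [e1]; exact hm2)
      exact h
    · simp only [hF, Phi]
      rw [e1, max_eq_left (max_le hm1 hm2), gg_cyc]
  have hsub : X ⊆ X.filter (fun x => |x.1| ≤ |4 - x.1 - x.2| ∧ |x.2| ≤ |4 - x.1 - x.2|) ∪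
      (X.filter (fun x => |x.1| ≤ |x.2| ∧ |4 - x.1 - x.2| ≤ |x.2|) ∪
        X.filter (fun x => |x.2| ≤ |x.1| ∧ |4 - x.1 - x.2| ≤ |x.1|)) := by
    intro x hx
    simp only [Finset.mem_union, Finset.mem_filter]
    rcases le_total |x.1| |x.2| with h1 | h1
    · rcases le_total |x.2| |4 - x.1 - x.2| with h2 | h2
      · exact Or.inl ⟨hx, h1.trans h2, h2⟩
      · exact Or.inr (Or.inl ⟨hx, h1, h2⟩)
    · rcases le_total |x.1| |4 - x.1 - x.2| with h2 | h2
      · exact Or.inl ⟨hx, h2, h1.trans h2⟩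
      · exact Or.inr (Or.inr ⟨hx, h1, h2⟩)
  have hunion : ∀ A B : Finset (ℤ × ℤ), ∑ x ∈ A ∪ B, F x ≤ ∑ x ∈ A, F x + ∑ x ∈ B, F x := by
    intro A B
    rw [← Finset.sum_union_inter]
    have : 0 ≤ ∑ x ∈ A ∩ B, F x := Finset.sum_nonneg fun x _ => hF0 x
    linarith
  have htot : ∑ x ∈ X, F x ≤ 3 * ((2 * R + 1) * (22 * D ^ 2)) := by
    calc ∑ x ∈ X, F x ≤ _ := Finset.sum_le_sum_of_subset_of_nonneg hsub (fun x _ _ => hF0 x)
      _ ≤ _ := hunion _ _
      _ ≤ _ := add_le_add le_rfl (hunion _ _)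
      _ ≤ (2 * R + 1) * (22 * D ^ 2) + ((2 * R + 1) * (22 * D ^ 2) +
          (2 * R + 1) * (22 * D ^ 2)) := add_le_add c1 (add_le_add c2 c3)
      _ = _ := by ring
  refine htot.trans ?_
  have hRr : (2 * (R : ℝ) + 1) ≤ 41 * (N : ℝ) ^ 2 := by
    have h1 : (R : ℝ) = 20 * (N : ℝ) ^ 2 := by rw [hR]; push_cast; ring
    rw [h1]
    nlinarith
  have hD2 : D ^ 2 = (C0 * (2000 : ℝ) ^ (ε / 8)) ^ 2 * (N : ℝ) ^ ε := by
    rw [hDdef, mul_pow]
    congr 1
    rw [← Real.rpow_natCast, ← Real.rpow_mul hN0.le]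
    congr 1
    push_cast
    ring
  calc 3 * ((2 * (R : ℝ) + 1) * (22 * D ^ 2)) ≤ 3 * ((41 * (N : ℝ) ^ 2) * (22 * D ^ 2)) := by
        gcongr
    _ = 3 * (41 * (22 * (C0 * (2000 : ℝ) ^ (ε / 8)) ^ 2)) * (N : ℝ) ^ (2 + ε) := by
        rw [hD2, Real.rpow_add hN0]
        have : (N : ℝ) ^ (2 : ℝ) = (N : ℝ) ^ (2 : ℕ) := by
          rw [← Real.rpow_natCast]
          norm_num
        rw [this]
        ring

end Pool.Agent.P8H29.SE
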