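import Mathlib
import Pool.Agent.P8H29.SE.Box
import Pool.Agent.P8H29.SE.Deg
import Pool.Agent.P8H29.SE.Sum

/-! # The additive energy: assembly -/

set_option autoImplicit false

namespace Pool.Agent.P8H29.SE

open Matrix

theorem le_gg {p q r : ℤ} (hp : p ≠ 0) (hq : q ≠ 0) (s : ℕ) (h1 : (s : ℤ) ^ 2 ∣ 4 * (p * q))
    (h2 : (s : ℤ) ^ 2 ∣ 4 * (p * r)) (h3 : (s : ℤ) ^ 2 ∣ 4 * (q * r)) : s ≤ gg p q r := by
  unfold gg
  rw [Nat.le_sqrt]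
  have e : ∀ {x : ℤ}, (s : ℤ) ^ 2 ∣ x → s * s ∣ x.natAbs := by
    intro x hx
    rw [← Int.natCast_dvd_natCast, Int.dvd_natAbs]
    push_cast
    rwa [← pow_two]
  apply Nat.le_of_dvd
  · apply Nat.gcd_pos_of_pos_left
    rw [Int.natAbs_pos]
    exact mul_ne_zero (by norm_num) (mul_ne_zero hp hq)
  · exact Nat.dvd_gcd (e h1) (Nat.dvd_gcd (e h2) (e h3))

/-- the quadruples counted by the energy, in a box -/
def Qd (N : ℕ) (x : M2 × M2 × M2 × M2) : Prop :=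
  x.1.det = 1 ∧ x.2.1.det = 1 ∧ x.2.2.1.det = 1 ∧ x.2.2.2.det = 1 ∧
    (∀ i j, |x.1 i j| ≤ N ∧ |x.2.1 i j| ≤ N ∧ |x.2.2.1 i j| ≤ N ∧ |x.2.2.2 i j| ≤ N) ∧
    x.1 + x.2.1 = x.2.2.1 + x.2.2.2

/-- the triple of a quadruple -/
def tri (x : M2 × M2 × M2 × M2) : T3 := (x.1 + x.2.1, x.1 - x.2.2.1, x.1 - x.2.2.2)

theorem tri_tr {N : ℕ} {x : M2 × M2 × M2 × M2} (h : Qd N x) :
    Tr (x.1 + x.2.1).det (x.1 - x.2.2.1).det (x.1 - x.2.2.2).det (tri x) ∧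
    (x.1 + x.2.1).det + (x.1 - x.2.2.1).det + (x.1 - x.2.2.2).det = 4 := by
  obtain ⟨A, B, C, D⟩ := x
  obtain ⟨h1, h2, h3, h4, -, h5⟩ := h
  simp only at h1 h2 h3 h4 h5
  have hD : ∀ i j, D i j = A i j + B i j - C i j := by
    intro i j
    have := congrFun (congrFun h5 i) j
    simp only [Matrix.add_apply] at this
    linarith
  rw [Matrix.det_fin_two] at h1 h2 h3 h4
  rw [hD, hD, hD, hD] at h4
  refine ⟨⟨?_, ?_, ?_, rfl, rfl, rfl⟩, ?_⟩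
  · unfold bil tri
    simp only [Matrix.add_apply, Matrix.sub_apply]
    linear_combination h4 + h1 - h2 - h3
  · unfold bil tri
    simp only [Matrix.add_apply, Matrix.sub_apply, hD]
    linear_combination -h4 + h1 - h2 + h3
  · unfold bil tri
    simp only [Matrix.sub_apply, hD]
    linear_combination -h4 + h1 + h2 - h3
  · simp only [Matrix.det_fin_two, Matrix.add_apply, Matrix.sub_apply, hD]
    linear_combination h4 + h1 + h2 + h3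

theorem tri_inj {N : ℕ} {x y : M2 × M2 × M2 × M2} (hx : Qd N x) (hy : Qd N y)
    (h : tri x = tri y) : x = y := by
  obtain ⟨A, B, C, D⟩ := x
  obtain ⟨A', B', C', D'⟩ := y
  have h5 : A + B = C + D := hx.2.2.2.2.2
  have h5' : A' + B' = C' + D' := hy.2.2.2.2.2
  unfold tri at h
  simp only [Prod.mk.injEq] at h
  obtain ⟨e1, e2, e3⟩ := h
  have hA : A = A' := by
    ext i j
    have f1 := congrFun (congrFun e1 i) j
    have f2 := congrFun (congrFun e2 i) j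
    have f3 := congrFun (congrFun e3 i) j
    have f4 := congrFun (congrFun h5 i) j
    have f5 := congrFun (congrFun h5' i) j
    simp only [Matrix.add_apply, Matrix.sub_apply] at f1 f2 f3 f4 f5
    linarith
  subst hA
  have hB : B = B' := add_left_cancel e1
  have hC : C = C' := sub_right_injective e2
  have hD : D = D' := sub_right_injective e3
  rw [hB, hC, hD]

theorem det_bd {N : ℕ} {M : M2} (h : ∀ i j, |M i j| ≤ 2 * N) :
    -(8 * (N : ℤ) ^ 2) ≤ M.det ∧ M.det ≤ 8 * (N : ℤ) ^ 2 := by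
  rw [Matrix.det_fin_two]
  have key : ∀ x y : ℤ, |x| ≤ 2 * N → |y| ≤ 2 * N → |x * y| ≤ 4 * (N : ℤ) ^ 2 := by
    intro x y hx hy
    rw [abs_mul]
    calc |x| * |y| ≤ (2 * N) * (2 * N) := mul_le_mul hx hy (abs_nonneg _) (by positivity)
      _ = 4 * (N : ℤ) ^ 2 := by ring
  have h1 := abs_le.1 (key _ _ (h 0 0) (h 1 1))
  have h2 := abs_le.1 (key _ _ (h 0 1) (h 1 0))
  constructor <;> linarith [h1.1, h1.2, h2.1, h2.2]

/-- the non-degenerate quadruples -/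
theorem nondeg_sum (N : ℕ) (hN : 1 ≤ N) (D0 : ℝ)
    (hD0 : ∀ n : ℕ, n ≠ 0 → n ≤ 40960 * N ^ 8 → (n.divisors.card : ℝ) ≤ D0)
    (F : Finset (M2 × M2 × M2 × M2)) (hF : ∀ x ∈ F, Qd N x)
    (hF2 : ∀ x ∈ F, (x.1 + x.2.1).det ≠ 0 ∧ (x.1 - x.2.2.1).det ≠ 0 ∧ (x.1 - x.2.2.2).det ≠ 0) :
    (F.card : ℝ) ≤ D0 ^ 2 * 65536 * 46656 * 144 * N ^ 2 * (Real.logb 2 (48 * N ^ 2) + 2) ^ 2 *
      ∑ x ∈ (Finset.Icc (-(8 * (N : ℤ) ^ 2)) (8 * (N : ℤ) ^ 2) ×ˢ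
        Finset.Icc (-(8 * (N : ℤ) ^ 2)) (8 * (N : ℤ) ^ 2)).filter
          (fun x => x.1 ≠ 0 ∧ x.2 ≠ 0 ∧ 4 - x.1 - x.2 ≠ 0),
      (gg x.1 x.2 (4 - x.1 - x.2) : ℝ) / ((max |x.1| (max |x.2| |4 - x.1 - x.2|) : ℤ) : ℝ) := by
  classical
  have hinj : Set.InjOn tri (F : Set (M2 × M2 × M2 × M2)) := by
    intro x hx y hy hxy
    exact tri_inj (hF x hx) (hF y hy) hxy
  rw [← Finset.card_image_of_injOn hinj]
  set S := F.image tri with hS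
  have hSm : ∀ t ∈ S, ∃ x ∈ F, tri x = t := fun t ht => Finset.mem_image.1 ht
  have hbx : ∀ t ∈ S, ∀ i j, |t.1 i j| ≤ 2 * N ∧ |t.2.1 i j| ≤ 2 * N ∧ |t.2.2 i j| ≤ 2 * N := by
    intro t ht i j
    obtain ⟨x, hx, rfl⟩ := hSm t ht
    have h1 := (hF x hx).2.2.2.2.1 i j
    obtain ⟨a, b, c, d⟩ := h1
    unfold tri
    simp only [Matrix.add_apply, Matrix.sub_apply]
    rw [abs_le] at a b c d ⊢
    rw [abs_le, abs_le]
    refine ⟨⟨?_, ?_⟩, ⟨?_, ?_⟩, ⟨?_, ?_⟩⟩ <;> linarith [a.1, a.2, b.1, b.2, c.1, c.2, d.1, d.2]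
  set I := (Finset.Icc (-(8 * (N : ℤ) ^ 2)) (8 * (N : ℤ) ^ 2) ×ˢ
        Finset.Icc (-(8 * (N : ℤ) ^ 2)) (8 * (N : ℤ) ^ 2)).filter
          (fun x => x.1 ≠ 0 ∧ x.2 ≠ 0 ∧ 4 - x.1 - x.2 ≠ 0) with hI
  have hr : ∀ t ∈ S, t.1.det + t.2.1.det + t.2.2.det = 4 := by
    intro t ht
    obtain ⟨x, hx, rfl⟩ := hSm t ht
    exact (tri_tr (hF x hx)).2
  have hmaps : ∀ t ∈ S, (t.1.det, t.2.1.det) ∈ I := by
    intro t ht
    have h0 := hr t ht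
    have hb1 := det_bd fun i j => (hbx t ht i j).1
    have hb2 := det_bd fun i j => (hbx t ht i j).2.1
    obtain ⟨x, hx, rfl⟩ := hSm t ht
    have h2 := hF2 x hx
    rw [hI, Finset.mem_filter, Finset.mem_product, Finset.mem_Icc, Finset.mem_Icc]
    refine ⟨⟨hb1, hb2⟩, h2.1, h2.2.1, ?_⟩
    have : 4 - (tri x).1.det - (tri x).2.1.det = (x.1 - x.2.2.2).det := by
      have h3 : (tri x).2.2.det = (x.1 - x.2.2.2).det := rfl
      linarith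
    simp only
    rw [this]
    exact h2.2.2
  have hN1 : (1 : ℝ) ≤ N := by exact_mod_cast hN
  have hcard : (S.card : ℝ) = ∑ c ∈ I, ((S.filter fun t => (t.1.det, t.2.1.det) = c).card : ℝ) := by
    rw [Finset.card_eq_sum_card_fiberwise hmaps]
    push_cast
    rfl
  rw [hcard, Finset.mul_sum]
  apply Finset.sum_le_sum
  rintro ⟨p, q⟩ hc
  rw [hI, Finset.mem_filter, Finset.mem_product, Finset.mem_Icc, Finset.mem_Icc] at hc
  obtain ⟨⟨⟨hp1, hp2⟩, hq1, hq2⟩, hp0, hq0, hr0⟩ := hc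
  simp only at hp1 hp2 hq1 hq2 hp0 hq0 hr0
  have hbox := box_count hp0 hq0 hr0 (by ring) (gg p q (4 - p - q))
    (fun s h1 h2 h3 => le_gg hp0 hq0 s h1 h2 h3) N hN
    (S.filter fun t => (t.1.det, t.2.1.det) = (p, q))
    (by
      intro t ht
      rw [Finset.mem_filter, Prod.mk.injEq] at ht
      have h0 := hr t ht.1
      obtain ⟨x, hx, hxt⟩ := hSm t ht.1
      have h1 := (tri_tr (hF x hx)).1
      rw [hxt] at h1
      exact ⟨h1.bPQ, h1.bPR, h1.bQR, ht.2.1, ht.2.2, by linarith [ht.2.1, ht.2.2]⟩)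
    (fun t ht => hbx t (Finset.mem_filter.1 ht).1) _ rfl
  obtain ⟨Dn, hDn⟩ : ∃ Dn : ℕ, Dn =
    (4 * (p * q * (p * (4 - p - q)))).natAbs.divisors.card := ⟨_, rfl⟩
  have hDle : (Dn : ℝ) ≤ D0 := by
    rw [hDn]
    apply hD0
    · rw [Int.natAbs_ne_zero]
      exact mul_ne_zero (by norm_num) (mul_ne_zero (mul_ne_zero hp0 hq0) (mul_ne_zero hp0 hr0))
    · have hNZ : (1 : ℤ) ≤ N := by exact_mod_cast hN
      have hN2 : (1 : ℤ) ≤ (N : ℤ) ^ 2 := by nlinarith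
      have a1 : |p| ≤ 8 * (N : ℤ) ^ 2 := abs_le.2 ⟨hp1, hp2⟩
      have a2 : |q| ≤ 8 * (N : ℤ) ^ 2 := abs_le.2 ⟨hq1, hq2⟩
      have a3 : |4 - p - q| ≤ 20 * (N : ℤ) ^ 2 := abs_le.2 ⟨by linarith, by linarith⟩
      have a4 : |4 * (p * q * (p * (4 - p - q)))| ≤ 40960 * (N : ℤ) ^ 8 := by
        rw [abs_mul, abs_mul, abs_mul, abs_mul]
        have b1 : |p| * |q| ≤ 8 * (N : ℤ) ^ 2 * (8 * (N : ℤ) ^ 2) :=
          mul_le_mul a1 a2 (abs_nonneg _) (by positivity)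
        have b2 : |p| * |4 - p - q| ≤ 8 * (N : ℤ) ^ 2 * (20 * (N : ℤ) ^ 2) :=
          mul_le_mul a1 a3 (abs_nonneg _) (by positivity)
        have b3 : |p| * |q| * (|p| * |4 - p - q|) ≤
            8 * (N : ℤ) ^ 2 * (8 * (N : ℤ) ^ 2) * (8 * (N : ℤ) ^ 2 * (20 * (N : ℤ) ^ 2)) :=
          mul_le_mul b1 b2 (by positivity) (by positivity)
        calc |(4 : ℤ)| * (|p| * |q| * (|p| * |4 - p - q|)) =
            4 * (|p| * |q| * (|p| * |4 - p - q|)) := by norm_num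
          _ ≤ 4 * (8 * (N : ℤ) ^ 2 * (8 * (N : ℤ) ^ 2) *
              (8 * (N : ℤ) ^ 2 * (20 * (N : ℤ) ^ 2))) := by linarith
          _ = 40960 * (N : ℤ) ^ 8 := by ring
      have a5 : ((4 * (p * q * (p * (4 - p - q)))).natAbs : ℤ) ≤ ((40960 * N ^ 8 : ℕ) : ℤ) := by
        rw [Int.natCast_natAbs]
        push_cast
        exact a4
      exact_mod_cast a5
  rw [← hDn] at hbox
  refine hbox.trans ?_
  simp only
  obtain ⟨Mx, hMx⟩ : ∃ Mx : ℝ, Mx = ((max |p| (max |q| |4 - p - q|) : ℤ) : ℝ) := ⟨_, rfl⟩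
  rw [← hMx]
  have hM0 : (0 : ℝ) ≤ Mx := by
    rw [hMx]
    have : (0 : ℤ) ≤ max |p| (max |q| |4 - p - q|) := (abs_nonneg p).trans (le_max_left _ _)
    exact_mod_cast this
  have hsq : (Dn : ℝ) * Dn ≤ D0 ^ 2 := by
    rw [pow_two]
    exact mul_le_mul hDle hDle (by positivity) (le_trans (by positivity) hDle)
  have hrest : (0 : ℝ) ≤ (gg p q (4 - p - q) : ℝ) * 65536 * (46656 * (144 * N ^ 2 / Mx) *
      (Real.logb 2 (48 * N ^ 2) + 2) ^ 2) := by positivity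
  calc (Dn : ℝ) * (Dn * (gg p q (4 - p - q) : ℝ) * 65536) * (46656 * (144 * N ^ 2 / Mx) *
      (Real.logb 2 (48 * N ^ 2) + 2) ^ 2) = (Dn : ℝ) * Dn * ((gg p q (4 - p - q) : ℝ) * 65536 *
        (46656 * (144 * N ^ 2 / Mx) * (Real.logb 2 (48 * N ^ 2) + 2) ^ 2)) := by ring
    _ ≤ D0 ^ 2 * ((gg p q (4 - p - q) : ℝ) * 65536 *
        (46656 * (144 * N ^ 2 / Mx) * (Real.logb 2 (48 * N ^ 2) + 2) ^ 2)) :=
        mul_le_mul_of_nonneg_right hsq hrest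
    _ = _ := by ring

theorem logb_bd (δ : ℝ) (hδ : 0 < δ) : ∃ C : ℝ, 0 < C ∧ ∀ N : ℕ, 1 ≤ N →
    (Real.logb 2 (48 * N ^ 2) + 2) ^ 2 ≤ C * (N : ℝ) ^ δ := by
  have hl2 : 0 < Real.log 2 := Real.log_pos (by norm_num)
  refine ⟨((48 : ℝ) ^ (δ / 4) / (δ / 4) / Real.log 2 + 2) ^ 2, by positivity, ?_⟩
  intro N hN
  have hN1 : (1 : ℝ) ≤ N := by exact_mod_cast hN
  have hN0 : (0 : ℝ) < N := by linarith
  have h1 : Real.log (48 * (N : ℝ) ^ 2) ≤ (48 : ℝ) ^ (δ / 4) / (δ / 4) * (N : ℝ) ^ (δ / 2) := by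
    calc Real.log (48 * (N : ℝ) ^ 2) ≤ (48 * (N : ℝ) ^ 2) ^ (δ / 4) / (δ / 4) :=
          Real.log_le_rpow_div (by positivity) (by positivity)
      _ = (48 : ℝ) ^ (δ / 4) / (δ / 4) * (N : ℝ) ^ (δ / 2) := by
          rw [Real.mul_rpow (by positivity) (by positivity), ← Real.rpow_natCast (N : ℝ) 2,
            ← Real.rpow_mul hN0.le]
          have : ((2 : ℕ) : ℝ) * (δ / 4) = δ / 2 := by push_cast; ring
          rw [this]
          ring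
  have h2 : Real.logb 2 (48 * (N : ℝ) ^ 2) ≤
      (48 : ℝ) ^ (δ / 4) / (δ / 4) / Real.log 2 * (N : ℝ) ^ (δ / 2) := by
    unfold Real.logb
    rw [div_le_iff₀ hl2]
    refine h1.trans (le_of_eq ?_)
    field_simp
  have h3 : (1 : ℝ) ≤ (N : ℝ) ^ (δ / 2) := Real.one_le_rpow hN1 (by positivity)
  have h0 : 0 ≤ Real.logb 2 (48 * (N : ℝ) ^ 2) := by
    apply Real.logb_nonneg (by norm_num)
    nlinarith
  have h4 : Real.logb 2 (48 * (N : ℝ) ^ 2) + 2 ≤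
      ((48 : ℝ) ^ (δ / 4) / (δ / 4) / Real.log 2 + 2) * (N : ℝ) ^ (δ / 2) := by
    rw [add_mul]
    linarith
  have h5 : ((N : ℝ) ^ (δ / 2)) ^ 2 = (N : ℝ) ^ δ := by
    rw [← Real.rpow_natCast, ← Real.rpow_mul hN0.le]
    congr 1
    push_cast
    ring
  rw [← h5, ← mul_pow]
  exact pow_le_pow_left₀ (by linarith) h4 2

theorem energy_fin (ε : ℝ) (hε : 0 < ε) : ∃ C : ℝ, 0 < C ∧ ∀ N : ℕ, 1 ≤ N →
    ∀ F : Finset (M2 × M2 × M2 × M2), (∀ x ∈ F, Qd N x) → (F.card : ℝ) ≤ C * (N : ℝ) ^ (4 + ε) := by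
  classical
  obtain ⟨C1, hC1, h1⟩ := degen_bound ε hε
  obtain ⟨C2, hC2, h2⟩ := sum_bound (ε / 4) (by positivity)
  obtain ⟨C3, hC3, h3⟩ := logb_bd (ε / 4) (by positivity)
  obtain ⟨C4, hC4, h4⟩ := Deg.div_eps (ε / 64) (by positivity)
  obtain ⟨C5, hC5⟩ : ∃ C5 : ℝ, C5 = (C4 * (40960 : ℝ) ^ (ε / 64)) ^ 2 * 65536 * 46656 * 144 * C3 *
    C2 := ⟨_, rfl⟩
  have hC50 : 0 < C5 := by
    rw [hC5]
    have : 0 < C4 := by linarith
    positivity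
  refine ⟨C1 + C5, by positivity, ?_⟩
  intro N hN F hF
  have hN1 : (1 : ℝ) ≤ N := by exact_mod_cast hN
  have hN0 : (0 : ℝ) < N := by linarith
  have hsplit := Finset.card_filter_add_card_filter_not (s := F) (fun x : M2 × M2 × M2 × M2 =>
    (x.1 + x.2.1).det = 0 ∨ (x.1 - x.2.2.1).det = 0 ∨ (x.1 - x.2.2.2).det = 0)
  have hd := h1 N hN (F.filter fun x : M2 × M2 × M2 × M2 =>
    (x.1 + x.2.1).det = 0 ∨ (x.1 - x.2.2.1).det = 0 ∨ (x.1 - x.2.2.2).det = 0) (by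
      intro x hx
      rw [Finset.mem_filter] at hx
      have h := hF x hx.1
      exact ⟨h.1, h.2.1, h.2.2.1, h.2.2.2.1, h.2.2.2.2.1, h.2.2.2.2.2, hx.2⟩)
  have hnd := nondeg_sum N hN (C4 * (40960 : ℝ) ^ (ε / 64) * (N : ℝ) ^ (ε / 8)) (by
      intro n hn hle
      refine (h4 n hn).trans ?_
      rw [mul_assoc]
      apply mul_le_mul_of_nonneg_left _ (by linarith)
      have e1 : (n : ℝ) ≤ 40960 * (N : ℝ) ^ 8 := by exact_mod_cast hle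
      calc (n : ℝ) ^ (ε / 64) ≤ (40960 * (N : ℝ) ^ 8) ^ (ε / 64) :=
            Real.rpow_le_rpow (by positivity) e1 (by positivity)
        _ = (40960 : ℝ) ^ (ε / 64) * ((N : ℝ) ^ 8) ^ (ε / 64) :=
            Real.mul_rpow (by positivity) (by positivity)
        _ = (40960 : ℝ) ^ (ε / 64) * (N : ℝ) ^ (ε / 8) := by
            rw [← Real.rpow_natCast, ← Real.rpow_mul hN0.le]
            congr 2
            push_cast
            ring)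
    (F.filter fun x : M2 × M2 × M2 × M2 => ¬
      ((x.1 + x.2.1).det = 0 ∨ (x.1 - x.2.2.1).det = 0 ∨ (x.1 - x.2.2.2).det = 0))
    (fun x hx => hF x (Finset.mem_filter.1 hx).1) (by
      intro x hx
      have h := (Finset.mem_filter.1 hx).2
      push Not at h
      exact h)
  have hs := h2 N hN
  have hl := h3 N hN
  have e8 : ((N : ℝ) ^ (ε / 8)) ^ 2 = (N : ℝ) ^ (ε / 4) := by
    rw [← Real.rpow_natCast, ← Real.rpow_mul hN0.le]
    congr 1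
    push_cast
    ring
  have hnd2 : ((F.filter fun x : M2 × M2 × M2 × M2 => ¬
      ((x.1 + x.2.1).det = 0 ∨ (x.1 - x.2.2.1).det = 0 ∨ (x.1 - x.2.2.2).det = 0)).card : ℝ) ≤
      C5 * (N : ℝ) ^ (4 + ε) := by
    refine hnd.trans ?_
    have g1 := mul_le_mul hl hs (Finset.sum_nonneg fun x _ => by
      have : (0 : ℤ) ≤ max |x.1| (max |x.2| |4 - x.1 - x.2|) :=
        (abs_nonneg _).trans (le_max_left _ _)
      have : (0 : ℝ) ≤ ((max |x.1| (max |x.2| |4 - x.1 - x.2|) : ℤ) : ℝ) := by exact_mod_cast this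
      positivity) (by positivity)
    have g2 : (0 : ℝ) ≤ (C4 * (40960 : ℝ) ^ (ε / 64) * (N : ℝ) ^ (ε / 8)) ^ 2 * 65536 * 46656 *
      144 * N ^ 2 := by positivity
    have g3 := mul_le_mul_of_nonneg_left g1 g2
    have g4 : (N : ℝ) ^ (ε / 4) * (N : ℝ) ^ (2 : ℕ) * ((N : ℝ) ^ (ε / 4) * (N : ℝ) ^ (2 + ε / 4)) ≤
        (N : ℝ) ^ (4 + ε) := by
      rw [← Real.rpow_natCast, ← Real.rpow_add hN0, ← Real.rpow_add hN0, ← Real.rpow_add hN0]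
      apply Real.rpow_le_rpow_of_exponent_le hN1
      push_cast
      linarith
    calc _ = (C4 * (40960 : ℝ) ^ (ε / 64) * (N : ℝ) ^ (ε / 8)) ^ 2 * 65536 * 46656 *
          144 * N ^ 2 * ((Real.logb 2 (48 * N ^ 2) + 2) ^ 2 * ∑ x ∈ (Finset.Icc
          (-(8 * (N : ℤ) ^ 2)) (8 * (N : ℤ) ^ 2) ×ˢ
          Finset.Icc (-(8 * (N : ℤ) ^ 2)) (8 * (N : ℤ) ^ 2)).filter
          (fun x => x.1 ≠ 0 ∧ x.2 ≠ 0 ∧ 4 - x.1 - x.2 ≠ 0),
          (gg x.1 x.2 (4 - x.1 - x.2) : ℝ) /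
          ((max |x.1| (max |x.2| |4 - x.1 - x.2|) : ℤ) : ℝ)) := by ring
      _ ≤ _ := g3
      _ = C5 * ((N : ℝ) ^ (ε / 4) * (N : ℝ) ^ (2 : ℕ) *
          ((N : ℝ) ^ (ε / 4) * (N : ℝ) ^ (2 + ε / 4))) := by
          rw [hC5, mul_pow, e8]
          ring
      _ ≤ _ := mul_le_mul_of_nonneg_left g4 hC50.le
  have hsplitR : (F.card : ℝ) = ((F.filter fun x : M2 × M2 × M2 × M2 =>
    (x.1 + x.2.1).det = 0 ∨ (x.1 - x.2.2.1).det = 0 ∨ (x.1 - x.2.2.2).det = 0).card : ℝ) +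
    ((F.filter fun x : M2 × M2 × M2 × M2 => ¬
      ((x.1 + x.2.1).det = 0 ∨ (x.1 - x.2.2.1).det = 0 ∨ (x.1 - x.2.2.2).det = 0)).card : ℝ) := by
    exact_mod_cast hsplit.symm
  rw [hsplitR, add_mul]
  exact add_le_add hd hnd2

end Pool.Agent.P8H29.SE
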